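import Pool.Agent.Y167.Bpf
import Pool.Agent.TH735.AQ.Crit
import Pool.Agent.Y167.NS

/-!
# Effective base point freeness of nef line bundles on torus quotients
-/

set_option autoImplicit false

namespace Pool.Agent.Q42.EB

open Pool.Agent.W594.SYZ2 Pool.Agent.W594.SYZ2.TQ Pool.Agent.TH735.AQ Pool.Agent.Y167

variable {V : Type*} [NormedAddCommGroup V] [NormedSpace ℂ V]
  {Γ : Subgroup (V ≃ᵃ[ℂ] V)}

/-- The order of the finite group `G` of the linear parts of `Γ`. If `X = V / Γ` is the quotient of the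
complex torus `A = V / Λ`, `Λ` the lattice of the translations in `Γ`, then `X = A / G`. -/
noncomputable def order (Γ : Subgroup (V ≃ᵃ[ℂ] V)) : ℕ :=
  Nat.card {A : V ≃ₗ[ℂ] V // ∃ γ ∈ Γ, γ.linear = A}

/-- `L` is base point free: for every point there is a global section of `L` that does not vanish
there. -/
def BasePointFree (L : LineBundle Γ) : Prop := ∀ v, ∃ s, L.IsSection s ∧ s v ≠ 0

theorem order_eq : order Γ = Nat.card (Lin Γ) := rfl

/-- The line bundle `L ^ m ⊗ M⁻¹`. -/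
noncomputable def quo (L M : LineBundle Γ) (m : ℕ) : LineBundle Γ where
  e := fun γ v => L.e γ v ^ m * (M.e γ v)⁻¹
  holo := fun γ => ((L.holo γ).pow m).mul ((M.holo γ).inv (M.ne_zero γ))
  ne_zero := fun γ v => mul_ne_zero (pow_ne_zero m (L.ne_zero γ v)) (inv_ne_zero (M.ne_zero γ v))
  mul := fun γ δ v => by rw [L.mul, M.mul, mul_pow, mul_inv]; ring
  stab := fun γ v h => by rw [L.stab γ v h, M.stab γ v h, one_pow, inv_one, mul_one]

theorem quo_pot {L M : LineBundle Γ} {H : V → V → ℂ} {F F' : V → ℂ} {m : ℕ}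
    (hL : IsPot L H F) (hM : IsPot M (fun v w => (m : ℂ) * H v w) F') :
    IsPot (quo L M m) (fun _ _ => 0) fun v => m * F v - F' v := by
  refine ⟨(hL.1.const_mul _).sub hM.1, fun γ v => ?_⟩
  have h1 := hL.2 γ v
  have h2 := hM.2 γ v
  have hr : ∀ z : ℂ, ((m : ℂ) * z).re = (m : ℝ) * z.re := fun z => by
    have : ((m : ℕ) : ℂ) = ((m : ℝ) : ℂ) := by push_cast; rfl
    rw [this, Complex.re_ofReal_mul]
  change ‖L.e γ v ^ m * (M.e γ v)⁻¹‖ ^ 2 = _
  have h3 : ‖L.e γ v ^ m * (M.e γ v)⁻¹‖ ^ 2 = (‖L.e γ v‖ ^ 2) ^ m * (‖M.e γ v‖ ^ 2)⁻¹ := by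
    rw [norm_mul, norm_pow, norm_inv, mul_pow, inv_pow, ← pow_mul, ← pow_mul, mul_comm m 2]
  rw [h3, h1, h2, ← Real.exp_nat_mul, ← Real.exp_neg, ← Real.exp_add]
  congr 1
  simp only [Complex.sub_re, hr, Complex.zero_re]
  ring

variable [FiniteDimensional ℂ V]

/-- If `H^1(X, O_X) = 0` then line bundles with Chern form zero are torsion, with exponent the square
of the order of the group. -/
theorem flat_torsion (hΓ : IsTorusQuotient Γ) (h01 : HOneZero Γ) {P : LineBundle Γ} {F : V → ℂ}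
    (hF : IsPot P (fun _ _ => 0) F) (γ : Γ) (v : V) : tw P F γ v ^ (order Γ ^ 2) = 1 := by
  have hH : IsHermitian (fun _ _ : V => (0 : ℂ)) :=
    ⟨fun _ _ _ => (add_zero _).symm, fun _ _ _ => (mul_zero _).symm, fun _ _ => (map_zero _).symm⟩
  have := finite_Lin hΓ
  have S : Sit Γ P (fun _ _ => 0) F (0 : V →ₗ[ℂ] (Fin 0 → ℂ)) hH (Nat.card (Lin Γ)) :=
    { tq := hΓ
      pot := hF
      nef := fun _ => le_rfl
      surj := fun w => ⟨0, Subsingleton.elim _ _⟩
      ker_iff := fun v => ⟨fun _ _ => rfl, fun _ => Subsingleton.elim _ _⟩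
      pos := Nat.card_pos
      root := fun b hb hbK => chi_pow hΓ h01 hH hF hb hbK }
  have h := S.tw_pow γ v fun _ => rfl
  rw [order_eq, sq]
  exact h

/-- A section of a flat line bundle is constant. -/
theorem flat_section (hΓ : IsTorusQuotient Γ) {P : LineBundle Γ} (hP : IsFlat P) {m : ℕ}
    {s : V → ℂ} (hs : (P.pow m).IsSection s) : ∀ v w, s v = s w := by
  have : ProperSpace V := FiniteDimensional.proper ℂ V
  obtain ⟨C, hC⟩ := cobounded (latt Γ) hΓ.span_top
  have hb : Bornology.IsBounded (Set.range s) := by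
    have hK : IsCompact (Metric.closedBall (0 : V) C) := isCompact_closedBall _ _
    obtain ⟨R, hR⟩ := ((hK.image hs.holo.continuous).isBounded).subset_closedBall (0 : ℂ)
    refine (Metric.isBounded_closedBall (x := (0 : ℂ)) (r := R)).subset ?_
    rintro _ ⟨v, rfl⟩
    obtain ⟨b, hb, hbC⟩ := hC v
    have h1 := hR ⟨b + v, by rwa [mem_closedBall_zero_iff], rfl⟩
    rw [mem_closedBall_zero_iff] at h1 ⊢
    have h2 : s (b + v) = P.e (tr b hb) v ^ m * s v := hs.eq (tr b hb) v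
    rwa [h2, norm_mul, norm_pow, hP.2, one_pow, one_mul] at h1
  exact fun v w => hs.holo.apply_eq_apply_of_bounded hb v w

/-- If `H^1(X, O_X) ≠ 0` there is a flat line bundle no positive power of which has a section. -/
theorem exists_bad (hΓ : IsTorusQuotient Γ) (h01 : ¬ HOneZero Γ) :
    ∃ P : LineBundle Γ, IsFlat P ∧ ∀ m : ℕ, 1 ≤ m → ∀ s, (P.pow m).IsSection s → s = 0 := by
  obtain ⟨P, hP, hbad⟩ := exists_flat hΓ h01
  refine ⟨P, hP, fun m hm s hs => ?_⟩
  by_contra hne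
  have hconst := flat_section hΓ hP hs
  have hs0 : s 0 ≠ 0 := by
    intro h0
    apply hne
    funext v
    rw [hconst v 0, h0]
    rfl
  have hP1 : ∀ (γ : Γ) (v : V), P.e γ v ^ m = 1 := by
    intro γ v
    have h1 : s ((γ : V ≃ᵃ[ℂ] V) v) = P.e γ v ^ m * s v := hs.eq γ v
    rw [hconst _ 0, hconst v 0] at h1
    exact mul_right_cancel₀ hs0 (by rw [← h1, one_mul])
  have hc := chern_of_flat hP
  obtain ⟨hH, -⟩ := hc
  have hpot : IsPot P (fun _ _ => 0) (fun _ => 0) := by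
    refine ⟨differentiable_const _, fun γ v => ?_⟩
    rw [hP.2]
    simp
  obtain ⟨n, Δ, π, -, h2, h3⟩ := exists_sit hΓ hH hpot (fun _ => le_rfl) hm (fun b hb _ => by
    rw [chi_eq hb, tw, sub_self, Complex.exp_zero, mul_one]
    exact hP1 _ _)
  exact hbad n Δ π h2 h3

omit [FiniteDimensional ℂ V] in
theorem chern_pow {L : LineBundle Γ} {H : V → V → ℂ} (hc : IsChernForm L H) (m : ℕ) :
    IsChernForm (L.pow m) (fun v w => (m : ℂ) * H v w) := by
  obtain ⟨hH, F, hF, hFe⟩ := hc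
  have hr : ∀ z : ℂ, ((m : ℂ) * z).re = (m : ℝ) * z.re := fun z => by
    have : ((m : ℕ) : ℂ) = ((m : ℝ) : ℂ) := by push_cast; rfl
    rw [this, Complex.re_ofReal_mul]
  refine ⟨⟨fun u v w => ?_, fun a v w => ?_, fun v w => ?_⟩, fun v => (m : ℂ) * F v,
    hF.const_mul _, fun γ v => ?_⟩
  · rw [hH.add_left, mul_add]
  · rw [hH.smul_left]
    ring
  · rw [map_mul, Complex.conj_natCast, ← hH.symm]
  · change ‖L.e γ v ^ m‖ ^ 2 = _
    rw [norm_pow, ← pow_mul, mul_comm m 2, pow_mul, hFe, ← Real.exp_nat_mul]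
    congr 1
    simp only [hr]
    ring

/-- A line bundle with a positive power that has a section is nef. -/
theorem nef_of_pow (hΓ : IsTorusQuotient Γ) {L : LineBundle Γ} {H : V → V → ℂ}
    (hc : IsChernForm L H) {m : ℕ} (hm : 1 ≤ m) {s : V → ℂ} (hs : (L.pow m).IsSection s)
    (h0 : s ≠ 0) : IsNefForm H := by
  intro v
  have h1 := nef_of_section hΓ (chern_pow hc m) hs (by
    by_contra hne
    push Not at hne
    exact h0 (funext hne)) v
  have hr : ((m : ℂ) * H v v).re = (m : ℝ) * (H v v).re := by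
    have : ((m : ℕ) : ℂ) = ((m : ℝ) : ℂ) := by push_cast; rfl
    rw [this, Complex.re_ofReal_mul]
  rw [hr] at h1
  have h2 : (0 : ℝ) < m := by exact_mod_cast hm
  exact nonneg_of_mul_nonneg_right h1 h2

omit [FiniteDimensional ℂ V] in
theorem order_pos (hΓ : IsTorusQuotient Γ) : 1 ≤ order Γ := by
  have := finite_Lin hΓ
  rw [order_eq]
  exact Nat.card_pos

/-- Every nef class is, up to the factor `4 |G| ^ 3`, the class of a base point free line bundle. -/
theorem numerical_bpf (hΓ : IsTorusQuotient Γ) {L : LineBundle Γ} {H : V → V → ℂ}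
    (hc : IsChernForm L H) (hn : IsNefForm H) :
    ∃ M : LineBundle Γ, IsChernForm M (fun v w => ((4 * order Γ ^ 3 : ℕ) : ℂ) * H v w) ∧
      BasePointFree M := by
  obtain ⟨hH, F, hF⟩ := hc
  have hpot : IsPot L H F := hF
  set N := Nat.card (Lin Γ) with hN
  set q : ℕ := 2 * N ^ 2 with hq
  have hqc : (q : ℂ) = ((q : ℝ) : ℂ) := by push_cast; rfl
  have D : EvenForm Γ N (fun v w => (q : ℂ) * H v w) := by
    refine ⟨⟨?_, ?_, ?_⟩, ?_, ?_, ?_⟩
    · intro u v w
      rw [hH.add_left, mul_add]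
    · intro c v w
      rw [hH.smul_left]
      ring
    · intro v w
      rw [map_mul, ← hH.symm, Complex.conj_natCast]
    · intro v
      change 0 ≤ ((q : ℂ) * H v v).re
      rw [hqc, Complex.re_ofReal_mul]
      exact mul_nonneg (Nat.cast_nonneg _) (hn v)
    · intro γ hγ v w
      rw [h_inv hH hpot ⟨γ, hγ⟩]
    · intro v hv w hw
      obtain ⟨n, hn⟩ := im_int hH hpot (mem_frac.1 hv) (mem_frac.1 hw)
      refine ⟨n, ?_⟩
      rw [hqc, Complex.im_ofReal_mul, ← hn, ← Complex.coe_smul, ← Complex.coe_smul, hH.smul_left,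
        h_smul_right hH, Complex.conj_ofReal, Complex.im_ofReal_mul, Complex.im_ofReal_mul, hq]
      push_cast
      ring
  obtain ⟨M, hM, hs⟩ := D.bpf hΓ
  refine ⟨M, ?_, hs⟩
  have e1 : (fun v w => (2 * N : ℂ) * ((q : ℂ) * H v w)) =
      fun v w => ((4 * order Γ ^ 3 : ℕ) : ℂ) * H v w := by
    funext v w
    rw [order_eq, ← hN, hq]
    push_cast
    ring
  rw [e1] at hM
  exact hM

/-- **Effective semiampleness.** -/
theorem effective (hΓ : IsTorusQuotient Γ) (h01 : HOneZero Γ) {L : LineBundle Γ} {H : V → V → ℂ}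
    (hc : IsChernForm L H) (hn : IsNefForm H) : BasePointFree (L.pow (4 * order Γ ^ 5)) := by
  obtain ⟨M, hM, hs⟩ := numerical_bpf hΓ hc hn
  obtain ⟨-, F, hF⟩ := hc
  have hpot : IsPot L H F := hF
  obtain ⟨-, F', hF'⟩ := hM
  set N := order Γ with hN
  set m : ℕ := 4 * N ^ 3 with hm
  have hpotM : IsPot M (fun v w => (m : ℂ) * H v w) F' := hF'
  have hquo := quo_pot hpot hpotM
  set G : V → ℂ := fun v => m * F v - F' v with hG
  intro v
  obtain ⟨s, hs1, hs2⟩ := hs v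
  refine ⟨fun v => s v ^ (N ^ 2) * Complex.exp (((N ^ 2 : ℕ) : ℂ) * G v), ⟨?_, ?_⟩,
    mul_ne_zero (pow_ne_zero _ hs2) (Complex.exp_ne_zero _)⟩
  · exact (hs1.holo.pow _).mul ((hquo.1.const_mul _).cexp)
  · intro γ w
    have h1 := flat_torsion hΓ h01 hquo γ w
    have h2 : tw (quo L M m) G γ w ^ (N ^ 2) = 1 := h1
    rw [tw, mul_pow, ← Complex.exp_nat_mul] at h2
    change (L.e γ w ^ m * (M.e γ w)⁻¹) ^ (N ^ 2) * _ = 1 at h2
    rw [hs1.eq γ w, mul_pow]
    change _ = L.e γ w ^ (4 * N ^ 5) * _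
    have h3 : L.e γ w ^ (4 * N ^ 5) = (L.e γ w ^ m) ^ (N ^ 2) := by
      rw [← pow_mul, hm]
      congr 1
      ring
    have h4 : (L.e γ w ^ m) ^ (N ^ 2) * Complex.exp (((N ^ 2 : ℕ) : ℂ) *
        (G w - G ((γ : V ≃ᵃ[ℂ] V) w))) = M.e γ w ^ (N ^ 2) := by
      have h5 := M.ne_zero γ w
      rw [mul_pow, inv_pow] at h2
      have h6 : M.e γ w ^ (N ^ 2) ≠ 0 := pow_ne_zero _ h5
      field_simp at h2
      linear_combination h2
    have h7 : Complex.exp (((N ^ 2 : ℕ) : ℂ) * G w) =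
        Complex.exp (((N ^ 2 : ℕ) : ℂ) * (G w - G ((γ : V ≃ᵃ[ℂ] V) w))) *
          Complex.exp (((N ^ 2 : ℕ) : ℂ) * G ((γ : V ≃ᵃ[ℂ] V) w)) := by
      rw [← Complex.exp_add]
      congr 1
      ring
    rw [h3, h7, ← h4]
    ring

end Pool.Agent.Q42.EB
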