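import Pool.Agent.Q42.EB.Stm2

/-! Row MP_eb524a_co: bisecting cells (`S_BIS`). -/

set_option autoImplicit false

namespace Pool.Agent.Q42.EB.BIS

open Multiset Pool.Agent.Q42.EB

/-- The hypotheses on the cells `[y i - e i, y i + e i]`. -/
def Cells {ι : Type} (F : Finset ι) (y e : ι → ℝ) (ω : ℝ) : Prop :=
  (∀ i ∈ F, 0 < e i ∧ e i < y i ∧ ω * (y i + e i) ≤ e i) ∧
  (∀ i ∈ F, ∀ j ∈ F, i ≠ j → y i + e i ≤ y j - e j ∨ y j + e j ≤ y i - e i) ∧
  (∀ i ∈ F, ∀ j ∈ F, y i + e i ≤ 2 * (y j - e j))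

lemma ratio_mono {w v : ℝ} (hw : 0 < w) (hwv : w ≤ v) : (1 - v) / (1 + v) ≤ (1 - w) / (1 + w) := by
  rw [div_le_div_iff₀ (by linarith) (by linarith)]
  nlinarith

lemma cells_inj {ι : Type} {F : Finset ι} {y e : ι → ℝ} {ω : ℝ} (h : Cells F y e ω) :
    ∀ i ∈ F, ∀ j ∈ F, y i = y j → i = j := by
  intro i hi j hj hij
  by_contra hne
  have h1 := (h.1 i hi).1
  have h2 := (h.1 j hj).1
  rcases h.2.1 i hi j hj hne with h3 | h3 <;> linarith

lemma le_low {ι : Type} {F : Finset ι} {y e : ι → ℝ} {ω : ℝ} (h : Cells F y e ω)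
    {i j : ι} (hi : i ∈ F) (hj : j ∈ F) (hji : y j < y i) : y j + e j ≤ y i - e i := by
  have h1 := (h.1 i hi).1
  have h2 := (h.1 j hj).1
  have hne : i ≠ j := by
    rintro rfl
    exact lt_irrefl _ hji
  rcases h.2.1 i hi j hj hne with h3 | h3
  · linarith
  · exact h3

lemma up {ι : Type} {F : Finset ι} {y e : ι → ℝ} {ω : ℝ} (h : Cells F y e ω) (hω : 0 < ω)
    {i : ι} (hi : i ∈ F) : ω * y i ≤ e i := by
  obtain ⟨h1, h2, h3⟩ := h.1 i hi
  nlinarith [mul_pos hω h1]

/-- smaller centres are smaller by a factor -/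
lemma gap_bound {ι : Type} {F : Finset ι} {y e : ι → ℝ} {ω : ℝ} (h : Cells F y e ω) (hω : 0 < ω)
    {i j : ι} (hi : i ∈ F) (hj : j ∈ F) (hji : y j < y i) :
    y j ≤ (1 - ω) / (1 + ω) * y i := by
  have h1 := le_low h hi hj hji
  have h2 := up h hω hi
  have h3 := up h hω hj
  rw [div_mul_eq_mul_div, le_div_iff₀ (by linarith)]
  linarith

/-- any two centres have quotient at most `2 (1 - ω) / (1 + ω)` -/
lemma rat_bound {ι : Type} {F : Finset ι} {y e : ι → ℝ} {ω : ℝ} (h : Cells F y e ω) (hω : 0 < ω)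
    {i j : ι} (hi : i ∈ F) (hj : j ∈ F) :
    y i ≤ 2 * ((1 - ω) / (1 + ω)) * y j := by
  have h1 := h.2.2 i hi j hj
  have h2 := up h hω hi
  have h3 := up h hω hj
  have e1 : 2 * ((1 - ω) / (1 + ω)) * y j = (2 * (1 - ω) * y j) / (1 + ω) := by ring
  rw [e1, le_div_iff₀ (by linarith)]
  linarith

/-- a smaller centre against the lower child -/
lemma low_bound {ι : Type} {F : Finset ι} {y e : ι → ℝ} {ω : ℝ} (h : Cells F y e ω) (hω : 0 < ω)
    (hω1 : ω < 1) {i j : ι} (hi : i ∈ F) (hj : j ∈ F) (hji : y j < y i) :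
    y j ≤ 2 * ((1 - ω / 2) / (1 + ω / 2)) * ((y i - e i / 2) / 2) := by
  have h1 := le_low h hi hj hji
  have h2 := up h hω hi
  have h3 := up h hω hj
  have hyj : 0 < y j := lt_trans (h.1 j hj).1 (h.1 j hj).2.1
  have e1 : 2 * ((1 - ω / 2) / (1 + ω / 2)) * ((y i - e i / 2) / 2)
      = ((1 - ω / 2) * (y i - e i / 2)) / (1 + ω / 2) := by ring
  rw [e1, le_div_iff₀ (by linarith)]
  have k1 : y j * (1 + ω) ≤ y i - e i := by linarith
  have k2 : (y i - e i) * (1 - ω / 2) ≤ (1 - ω) * (y i - e i / 2) := by nlinarith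
  have k3 : y j * (1 + ω) * (1 - ω / 2) ≤ (1 - ω) * (y i - e i / 2) :=
    le_trans (mul_le_mul_of_nonneg_right k1 (by linarith)) k2
  have k4 : (1 - ω) * (1 + ω / 2) ≤ (1 - ω / 2) ^ 2 * (1 + ω) := by
    nlinarith [mul_pos hω hω, mul_pos (mul_pos hω hω) hω, mul_pos hω (sub_pos.2 hω1)]
  have k5 : (1 - ω) * (y j * (1 + ω / 2)) ≤ (1 - ω) * ((1 - ω / 2) * (y i - e i / 2)) := by
    calc (1 - ω) * (y j * (1 + ω / 2)) = y j * ((1 - ω) * (1 + ω / 2)) := by ring
      _ ≤ y j * ((1 - ω / 2) ^ 2 * (1 + ω)) := mul_le_mul_of_nonneg_left k4 hyj.le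
      _ = (1 - ω / 2) * (y j * (1 + ω) * (1 - ω / 2)) := by ring
      _ ≤ (1 - ω / 2) * ((1 - ω) * (y i - e i / 2)) :=
          mul_le_mul_of_nonneg_left k3 (by linarith)
      _ = (1 - ω) * ((1 - ω / 2) * (y i - e i / 2)) := by ring
  exact le_of_mul_le_mul_left k5 (by linarith)

/-- the centres of the children -/
noncomputable def yc {ι : Type} (y e : ι → ℝ) : ι × Bool → ℝ :=
  fun q => if q.2 then (y q.1 + e q.1 / 2) / 2 else (y q.1 - e q.1 / 2) / 2

/-- the half-widths of the children -/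
noncomputable def ec {ι : Type} (e : ι → ℝ) : ι × Bool → ℝ := fun q => e q.1 / 4

lemma yc_lo {ι : Type} (y e : ι → ℝ) (q : ι × Bool) (he : 0 < e q.1) :
    (y q.1 - e q.1) / 2 ≤ yc y e q - ec e q := by
  unfold yc ec
  split_ifs <;> linarith

lemma yc_hi {ι : Type} (y e : ι → ℝ) (q : ι × Bool) (he : 0 < e q.1) :
    yc y e q + ec e q ≤ (y q.1 + e q.1) / 2 := by
  unfold yc ec
  split_ifs <;> linarith

lemma cells_step {ι : Type} {F : Finset ι} {y e : ι → ℝ} {ω : ℝ} (h : Cells F y e ω) (hω : 0 < ω) :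
    Cells (F ×ˢ (Finset.univ : Finset Bool)) (yc y e) (ec e) (ω / 2) := by
  refine ⟨?_, ?_, ?_⟩
  · intro q hq
    have hi : q.1 ∈ F := (Finset.mem_product.1 hq).1
    obtain ⟨h1, h2, h3⟩ := h.1 q.1 hi
    have lo := yc_lo y e q h1
    have hi' := yc_hi y e q h1
    refine ⟨?_, ?_, ?_⟩
    · unfold ec
      linarith
    · linarith
    · have k : ω / 2 * (yc y e q + ec e q) ≤ ω / 2 * ((y q.1 + e q.1) / 2) :=
        mul_le_mul_of_nonneg_left hi' (by linarith)
      have k2 : ω / 2 * ((y q.1 + e q.1) / 2) = ω * (y q.1 + e q.1) / 4 := by ring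
      unfold ec at *
      linarith
  · intro q hq r hr hqr
    have hi : q.1 ∈ F := (Finset.mem_product.1 hq).1
    have hj : r.1 ∈ F := (Finset.mem_product.1 hr).1
    have h1 := (h.1 q.1 hi).1
    have h2 := (h.1 r.1 hj).1
    have lo := yc_lo y e q h1
    have hi' := yc_hi y e q h1
    have lo2 := yc_lo y e r h2
    have hi2 := yc_hi y e r h2
    by_cases hne : q.1 = r.1
    · have hb : q.2 ≠ r.2 := fun hb => hqr (Prod.ext hne hb)
      obtain ⟨i, b⟩ := q
      obtain ⟨j, c⟩ := r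
      simp only at hne hb
      subst hne
      unfold yc ec
      cases b <;> cases c
      · exact absurd rfl hb
      · left
        simp
        linarith
      · right
        simp
        linarith
      · exact absurd rfl hb
    · rcases h.2.1 q.1 hi r.1 hj hne with h3 | h3
      · left
        linarith
      · right
        linarith
  · intro q hq r hr
    have hi : q.1 ∈ F := (Finset.mem_product.1 hq).1
    have hj : r.1 ∈ F := (Finset.mem_product.1 hr).1
    have h1 := (h.1 q.1 hi).1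
    have h2 := (h.1 r.1 hj).1
    have hi' := yc_hi y e q h1
    have lo2 := yc_lo y e r h2
    have h3 := h.2.2 q.1 hi r.1 hj
    linarith

lemma map_children {ι : Type} (F : Finset ι) (y e : ι → ℝ) :
    F.val.map (fun i => (y i - e i / 2) / 2) + F.val.map (fun i => y i - (y i - e i / 2) / 2)
      = (F ×ˢ (Finset.univ : Finset Bool)).val.map (yc y e) := by
  have hu : (Finset.univ : Finset Bool).val = true ::ₘ {false} := rfl
  have hp : (F ×ˢ (Finset.univ : Finset Bool)).val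
      = F.val.bind (fun i => (Finset.univ : Finset Bool).val.map (Prod.mk i)) := rfl
  have hf : ∀ i, ((Finset.univ : Finset Bool).val.map (Prod.mk i)).map (yc y e)
      = (y i - (y i - e i / 2) / 2) ::ₘ {(y i - e i / 2) / 2} := by
    intro i
    rw [hu]
    have e1 : yc y e (i, true) = y i - (y i - e i / 2) / 2 := by
      simp [yc]
      ring
    have e2 : yc y e (i, false) = (y i - e i / 2) / 2 := by
      simp [yc]
    rw [Multiset.map_cons, Multiset.map_cons, Multiset.map_singleton, Multiset.map_singleton, e1, e2]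
  rw [hp, Multiset.map_bind]
  simp only [hf]
  rw [Multiset.bind_cons, Multiset.bind_singleton, add_comm]

lemma one_step (hrev : S_REV) {ι : Type} {F : Finset ι} {y e : ι → ℝ} {ω D : ℝ} (h : Cells F y e ω)
    (hω : 0 < ω) (hω1 : ω < 1) (hD : 2 * ((1 - ω / 2) / (1 + ω / 2)) ≤ D) :
    Path D (F.val.map y) ((F ×ˢ (Finset.univ : Finset Bool)).val.map (yc y e)) := by
  rw [← map_children]
  have h' := cells_step h hω
  have hmono : (1 - ω) / (1 + ω) ≤ (1 - ω / 2) / (1 + ω / 2) := ratio_mono (by linarith) (by linarith)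
  refine hrev ι F y (fun i => (y i - e i / 2) / 2) D (cells_inj h) ?_ ?_ ?_ ?_
  · intro i hi
    obtain ⟨h1, h2, h3⟩ := h.1 i hi
    constructor
    · show 0 < (y i - e i / 2) / 2
      linarith
    · show (y i - e i / 2) / 2 ≤ y i / 2
      linarith
  · intro i hi j hj hji
    obtain ⟨h1, h2, h3⟩ := h.1 i hi
    refine le_trans (low_bound h hω hω1 hi hj hji) ?_
    exact mul_le_mul_of_nonneg_right hD (by linarith)
  · intro i hi j hj
    have hyj : 0 < y j := lt_trans (h.1 j hj).1 (h.1 j hj).2.1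
    refine le_trans (rat_bound h hω hi hj) ?_
    exact mul_le_mul_of_nonneg_right (by linarith) hyj.le
  · intro i hi j hj
    obtain ⟨h1, h2, h3⟩ := h.1 j hj
    have hq : ((i, true) : ι × Bool) ∈ F ×ˢ (Finset.univ : Finset Bool) := by simp [hi]
    have hr : ((j, false) : ι × Bool) ∈ F ×ˢ (Finset.univ : Finset Bool) := by simp [hj]
    have k := rat_bound h' (by linarith) hq hr
    have e1 : yc y e (i, true) = y i - (y i - e i / 2) / 2 := by
      simp [yc]
      ring
    have e2 : yc y e (j, false) = (y j - e j / 2) / 2 := by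
      simp [yc]
    rw [e1, e2] at k
    refine le_trans k ?_
    exact mul_le_mul_of_nonneg_right hD (by linarith)

lemma path_refl {D : ℝ} {M : Multiset ℝ} (h : Bal D M) : Path D M M :=
  ⟨le_rfl, fun _ => M, rfl, rfl, fun _ h1 h2 => absurd h2 (not_lt.2 h1), fun _ _ _ => h⟩

theorem main (hrev : S_REV) (htrans : S_TRANS) (Q : ℕ) : ∀ (ι : Type) (F : Finset ι) (y e : ι → ℝ)
    (ω : ℝ), 0 < ω → ω < 1 → Cells F y e ω →
    ∃ Z : Finset ℝ, Z.card = 2 ^ Q * F.card ∧ (∀ v ∈ Z, 0 < v) ∧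
    (∀ v ∈ Z, ∀ v' ∈ Z, v' < v → v' ≤ (1 - ω / 2 ^ Q) / (1 + ω / 2 ^ Q) * v) ∧
    (∀ v ∈ Z, ∀ v' ∈ Z, v ≤ 2 * ((1 - ω / 2 ^ Q) / (1 + ω / 2 ^ Q)) * v') ∧
    Path (2 * ((1 - ω / 2 ^ Q) / (1 + ω / 2 ^ Q))) (F.val.map y) Z.val := by
  classical
  induction Q with
  | zero =>
    intro ι F y e ω hω hω1 h
    have hinj : Set.InjOn y (F : Set ι) := fun i hi j hj hij => cells_inj h i hi j hj hij
    refine ⟨F.image y, ?_, ?_, ?_, ?_, ?_⟩
    · rw [Finset.card_image_of_injOn hinj]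
      simp
    · intro v hv
      obtain ⟨i, hi, rfl⟩ := Finset.mem_image.1 hv
      exact lt_trans (h.1 i hi).1 (h.1 i hi).2.1
    · intro v hv v' hv' hlt
      obtain ⟨i, hi, rfl⟩ := Finset.mem_image.1 hv
      obtain ⟨j, hj, rfl⟩ := Finset.mem_image.1 hv'
      simpa using gap_bound h hω hi hj hlt
    · intro v hv v' hv'
      obtain ⟨i, hi, rfl⟩ := Finset.mem_image.1 hv
      obtain ⟨j, hj, rfl⟩ := Finset.mem_image.1 hv'
      simpa using rat_bound h hω hi hj
    · rw [Finset.image_val_of_injOn hinj]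
      apply path_refl
      constructor
      · intro v hv
        obtain ⟨i, hi, rfl⟩ := Multiset.mem_map.1 hv
        exact lt_trans (h.1 i hi).1 (h.1 i hi).2.1
      · intro v hv v' hv'
        obtain ⟨i, hi, rfl⟩ := Multiset.mem_map.1 hv
        obtain ⟨j, hj, rfl⟩ := Multiset.mem_map.1 hv'
        simpa using rat_bound h hω (i := i) (j := j) hi hj
  | succ Q ih =>
    intro ι F y e ω hω hω1 h
    obtain ⟨Z, hcard, hpos, hgap, hrat, hpath⟩ := ih (ι × Bool) (F ×ˢ (Finset.univ : Finset Bool))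
      (yc y e) (ec e) (ω / 2) (by linarith) (by linarith) (cells_step h hω)
    have hw : ω / 2 / 2 ^ Q = ω / 2 ^ (Q + 1) := by
      rw [pow_succ, div_div, mul_comm]
    rw [hw] at hgap hrat hpath
    refine ⟨Z, ?_, hpos, hgap, hrat, ?_⟩
    · rw [hcard, Finset.card_product]
      simp
      ring
    · refine htrans.2 _ _ _ _ (one_step hrev h hω hω1 ?_) hpath
      have hp : 0 < ω / 2 ^ (Q + 1) := by positivity
      have hle : ω / 2 ^ (Q + 1) ≤ ω / 2 := by
        rw [← hw]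
        apply div_le_self (by linarith)
        exact one_le_pow₀ (by norm_num)
      have := ratio_mono hp hle
      linarith

end Pool.Agent.Q42.EB.BIS

/-- `S_BIS` holds. -/
theorem Pool.Agent.Q42.EB.t_BIS : Pool.Agent.Q42.EB.S_BIS := by
  intro hrev htrans ι F y e ω _ hω hω1 h1 h2 h3 Q
  exact Pool.Agent.Q42.EB.BIS.main hrev htrans Q ι F y e ω hω hω1 ⟨h1, h2, h3⟩
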