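import Pool.Agent.Q42.EB.Stm2

/-! Row MP_eb524a_co, job CHAIN: the generations `1, ..., p` of the pattern. -/

set_option autoImplicit false

namespace Pool.Agent.Q42.EB.CHAIN

open Multiset

lemma prod_map (X t : Multiset ℝ) (f : ℝ → ℝ) :
    X ×ˢ t.map f = (X ×ˢ t).map (fun q : ℝ × ℝ => (q.1, f q.2)) := by
  show X.bind (fun a => (t.map f).map (Prod.mk a)) =
    (X.bind fun a => t.map (Prod.mk a)).map (fun q : ℝ × ℝ => (q.1, f q.2))
  rw [Multiset.map_bind]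
  simp only [Multiset.map_map, Function.comp_def]

lemma st_succ {p : ℕ} {T : ℕ → Finset ℝ} {ζ : ℕ → ℝ → ℝ} (hP : Pattern p T ζ) (X : Finset ℝ)
    (u : ℝ) {g : ℕ} (hg : g < p) :
    (X ×ˢ T g).val.map (fun q : ℝ × ℝ => q.1 * (1 + u * ζ g q.2) / 2 ^ (g + 1)) +
    (X ×ˢ T g).val.map (fun q : ℝ × ℝ => q.1 * (1 + u * q.2) / 2 ^ g -
      q.1 * (1 + u * ζ g q.2) / 2 ^ (g + 1)) = St X u (T (g + 1)) (g + 1) := by
  unfold St
  rw [Finset.product_val, Finset.product_val, hP.step g hg, Multiset.product_add, prod_map,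
    prod_map, Multiset.map_add, Multiset.map_map, Multiset.map_map]
  congr 1
  apply Multiset.map_congr rfl
  intro q _
  simp only [Function.comp]
  rw [pow_succ]
  field_simp
  ring

lemma mem_low {p : ℕ} {T : ℕ → Finset ℝ} {ζ : ℕ → ℝ → ℝ} (hP : Pattern p T ζ) {g : ℕ}
    (hg : g < p) {τ : ℝ} (hτ : τ ∈ T g) : ζ g τ ∈ T (g + 1) := by
  rw [← Finset.mem_val, hP.step g hg, Multiset.mem_add]
  exact Or.inl (Multiset.mem_map_of_mem _ (show τ ∈ (T g).val from hτ))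

lemma mem_up {p : ℕ} {T : ℕ → Finset ℝ} {ζ : ℕ → ℝ → ℝ} (hP : Pattern p T ζ) {g : ℕ}
    (hg : g < p) {τ : ℝ} (hτ : τ ∈ T g) : 2 * τ - ζ g τ ∈ T (g + 1) := by
  rw [← Finset.mem_val, hP.step g hg, Multiset.mem_add]
  exact Or.inr (Multiset.mem_map_of_mem (fun τ => 2 * τ - ζ g τ) (show τ ∈ (T g).val from hτ))

lemma one_step (hREV : S_REV) (hREVS : S_REVS) {p : ℕ} {T : ℕ → Finset ℝ} {ζ : ℕ → ℝ → ℝ}
    (hP : Pattern p T ζ) (X : Finset ℝ) (u : ℝ) (hu : 0 < u) (A B : ℝ) (hB : B < 1)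
    (hrg : ∀ g, g ≤ p → ∀ τ ∈ T g, 1 - B < 1 + u * τ ∧ 1 + u * τ < 1 + A)
    (hpos : ∀ x ∈ X, 0 < x)
    (h1 : ∀ x ∈ X, ∀ y ∈ X, y < x → y * (1 + A) ≤ x * (1 - B))
    (h2 : ∀ x ∈ X, ∀ y ∈ X, x * (1 + A) ≤ 2 * (y * (1 - B)))
    {g : ℕ} (hg1 : 1 ≤ g) (hg : g < p) :
    ∃ D : ℝ, D < 2 ∧ 1 ≤ D ∧ Path D (St X u (T g) g) (St X u (T (g + 1)) (g + 1)) := by
  have hpw : (0 : ℝ) < 2 ^ g := by positivity
  -- comparison of different clusters
  have hcmp : ∀ x ∈ X, ∀ y ∈ X, y < x → ∀ a b : ℝ, a < 1 + A → 1 - B < b → y * a < x * b := by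
    intro x hx y hy hyx a b ha hb
    calc y * a < y * (1 + A) := mul_lt_mul_of_pos_left ha (hpos y hy)
      _ ≤ x * (1 - B) := h1 x hx y hy hyx
      _ < x * b := mul_lt_mul_of_pos_left hb (hpos x hx)
  have hcmp2 : ∀ x ∈ X, ∀ y ∈ X, ∀ a b : ℝ, a < 1 + A → 1 - B < b → x * a < 2 * (y * b) := by
    intro x hx y hy a b ha hb
    calc x * a < x * (1 + A) := mul_lt_mul_of_pos_left ha (hpos x hx)
      _ ≤ 2 * (y * (1 - B)) := h2 x hx y hy
      _ < 2 * (y * b) := by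
        have := mul_lt_mul_of_pos_left hb (hpos y hy)
        linarith
  obtain ⟨D, hD2, hD1, hD⟩ := hREVS hREV (ℝ × ℝ) (X ×ˢ T g)
    (fun q => q.1 * (1 + u * q.2) / 2 ^ g) (fun q => q.1 * (1 + u * ζ g q.2) / 2 ^ (g + 1))
    (by
      rintro ⟨x, τ⟩ hi ⟨y, σ⟩ hj h
      rw [Finset.mem_product] at hi hj
      obtain ⟨hx, hτ⟩ := hi
      obtain ⟨hy, hσ⟩ := hj
      simp only at hx hτ hy hσ h
      have h' : x * (1 + u * τ) = y * (1 + u * σ) := by
        rw [div_left_inj' hpw.ne'] at h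
        exact h
      have r1 := hrg g hg.le τ hτ
      have r2 := hrg g hg.le σ hσ
      rcases lt_trichotomy x y with hlt | heq | hgt
      · exact absurd h' (hcmp y hy x hx hlt _ _ r1.2 r2.1).ne
      · subst heq
        have := mul_left_cancel₀ (hpos x hx).ne' h'
        have h3 : u * τ = u * σ := by linarith
        rw [mul_left_cancel₀ hu.ne' h3]
      · exact absurd h'.symm (hcmp x hx y hy hgt _ _ r2.2 r1.1).ne)
    (by
      rintro ⟨x, τ⟩ hi
      rw [Finset.mem_product] at hi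
      obtain ⟨hx, hτ⟩ := hi
      simp only at hx hτ ⊢
      have r1 := hrg (g + 1) hg _ (mem_low hP hg hτ)
      have h3 := hpos x hx
      have h4 : 0 < 1 + u * ζ g τ := by linarith [r1.1]
      refine ⟨by positivity, ?_⟩
      rw [pow_succ, div_div, div_le_div_iff_of_pos_right (by positivity)]
      apply mul_le_mul_of_nonneg_left _ h3.le
      have := mul_lt_mul_of_pos_left (hP.lt g hg τ hτ) hu
      linarith)
    (by
      rintro ⟨x, τ⟩ hi ⟨y, σ⟩ hj h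
      rw [Finset.mem_product] at hi hj
      obtain ⟨hx, hτ⟩ := hi
      obtain ⟨hy, hσ⟩ := hj
      simp only at hx hτ hy hσ h ⊢
      have r1 := hrg g hg.le τ hτ
      have r2 := hrg g hg.le σ hσ
      have r3 := hrg (g + 1) hg _ (mem_low hP hg hτ)
      have h' : y * (1 + u * σ) < x * (1 + u * τ) := (div_lt_div_iff_of_pos_right hpw).1 h
      have goal' : y * (1 + u * σ) < x * (1 + u * ζ g τ) := by
        rcases lt_trichotomy x y with hlt | heq | hgt
        · exact absurd h' (hcmp y hy x hx hlt _ _ r1.2 r2.1).asymm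
        · subst heq
          have h5 := (mul_lt_mul_iff_right₀ (hpos x hx)).1 h'
          have h6 : u * σ < u * τ := by linarith
          have h7 := (mul_lt_mul_iff_right₀ hu).1 h6
          have h8 := hP.gaps g hg1 hg τ hτ σ hσ h7
          have h9 := mul_lt_mul_of_pos_left h8 hu
          exact mul_lt_mul_of_pos_left (by linarith) (hpos x hx)
        · exact hcmp x hx y hy hgt _ _ r2.2 r3.1
      rw [pow_succ, ← div_div, div_lt_iff₀ hpw]
      have : 2 * (x * (1 + u * ζ g τ) / 2 ^ g / 2) * 2 ^ g = x * (1 + u * ζ g τ) := by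
        field_simp
      rw [this]
      exact goal')
    (by
      rintro ⟨x, τ⟩ hi ⟨y, σ⟩ hj
      rw [Finset.mem_product] at hi hj
      obtain ⟨hx, hτ⟩ := hi
      obtain ⟨hy, hσ⟩ := hj
      simp only at hx hτ hy hσ ⊢
      have r1 := hrg g hg.le τ hτ
      have r2 := hrg g hg.le σ hσ
      have h3 := hcmp2 x hx y hy _ _ r1.2 r2.1
      rw [← mul_div_assoc]
      exact (div_lt_div_iff_of_pos_right hpw).2 h3)
    (by
      rintro ⟨x, τ⟩ hi ⟨y, σ⟩ hj
      rw [Finset.mem_product] at hi hj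
      obtain ⟨hx, hτ⟩ := hi
      obtain ⟨hy, hσ⟩ := hj
      simp only at hx hτ hy hσ ⊢
      have r1 := hrg (g + 1) hg _ (mem_up hP hg hτ)
      have r2 := hrg (g + 1) hg _ (mem_low hP hg hσ)
      have h3 := hcmp2 x hx y hy _ _ r1.2 r2.1
      have h4 : x * (1 + u * τ) / 2 ^ g - x * (1 + u * ζ g τ) / 2 ^ (g + 1) =
          x * (1 + u * (2 * τ - ζ g τ)) / 2 ^ (g + 1) := by
        rw [pow_succ]
        field_simp
        ring
      rw [h4, ← mul_div_assoc]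
      exact (div_lt_div_iff_of_pos_right (by positivity)).2 h3)
  refine ⟨D, hD2, hD1, ?_⟩
  rw [st_succ hP X u hg] at hD
  exact hD

end Pool.Agent.Q42.EB.CHAIN

open Pool.Agent.Q42.EB Pool.Agent.Q42.EB.CHAIN in
theorem Pool.Agent.Q42.EB.t_CHAIN : S_CHAIN := by
  intro hREV hREVS hTR p T ζ hp hP X u δ _ hu hδ hδ1 hpos h1 h2
  have hp1 : (2 : ℝ) ^ p = 2 * 2 ^ (p - 1) := by
    rw [← pow_succ']
    congr 1
    omega
  have hpp : (0 : ℝ) < 2 ^ (p - 1) := by positivity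
  have hp0 : (0 : ℝ) ≤ p := Nat.cast_nonneg p
  obtain ⟨A, hA⟩ : ∃ A : ℝ, A = ((p : ℝ) + 2 ^ (p - 1)) * u := ⟨_, rfl⟩
  obtain ⟨B, hB⟩ : ∃ B : ℝ, B = ((p : ℝ) + 1 + 2 ^ (p - 1)) * u := ⟨_, rfl⟩
  have hAB : A + B = δ := by
    rw [hA, hB, hδ, hp1]
    ring
  have hA0 : 0 < A := by
    rw [hA]
    positivity
  have hB0 : 0 < B := by
    rw [hB]
    positivity
  have hB1 : B < 1 := by linarith
  have hkey : (1 - δ) * (1 + A) ≤ 1 - B := by
    have : 0 ≤ δ * A := mul_nonneg (by linarith) hA0.le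
    nlinarith
  have hrg : ∀ g, g ≤ p → ∀ τ ∈ T g, 1 - B < 1 + u * τ ∧ 1 + u * τ < 1 + A := by
    intro g hg τ hτ
    have h := hP.range g hg τ hτ
    have a1 := mul_lt_mul_of_pos_left h.1 hu
    have a2 := mul_lt_mul_of_pos_left h.2 hu
    rw [hA, hB]
    constructor <;> linarith
  have k1 : ∀ x ∈ X, ∀ y ∈ X, y < x → y * (1 + A) ≤ x * (1 - B) := by
    intro x hx y hy hyx
    calc y * (1 + A) ≤ ((1 - δ) * x) * (1 + A) :=
          mul_le_mul_of_nonneg_right (h1 x hx y hy hyx) (by linarith)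
      _ = x * ((1 - δ) * (1 + A)) := by ring
      _ ≤ x * (1 - B) := mul_le_mul_of_nonneg_left hkey (hpos x hx).le
  have k2 : ∀ x ∈ X, ∀ y ∈ X, x * (1 + A) ≤ 2 * (y * (1 - B)) := by
    intro x hx y hy
    calc x * (1 + A) ≤ (2 * (1 - δ) * y) * (1 + A) :=
          mul_le_mul_of_nonneg_right (h2 x hx y hy) (by linarith)
      _ = 2 * (y * ((1 - δ) * (1 + A))) := by ring
      _ ≤ 2 * (y * (1 - B)) := by
        have := mul_le_mul_of_nonneg_left hkey (hpos y hy).le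
        linarith
  have hst : ∀ g, 1 ≤ g → g < p →
      ∃ D : ℝ, D < 2 ∧ 1 ≤ D ∧ Path D (St X u (T g) g) (St X u (T (g + 1)) (g + 1)) :=
    fun g hg1 hg => one_step hREV hREVS hP X u hu A B hB1 hrg hpos k1 k2 hg1 hg
  intro g hg1
  induction g, hg1 using Nat.le_induction with
  | base =>
    intro _
    obtain ⟨D, hD2, hD1, hcard, f, hf1, hf2, hf3, hf4⟩ := hst 1 le_rfl (by omega)
    refine ⟨D, hD2, hD1, le_rfl, fun _ => St X u (T 1) 1, rfl, rfl, fun t h3 h4 => ?_,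
      fun t h3 h4 => ?_⟩
    · exact absurd h4 (by omega)
    · have := hf4 _ le_rfl hcard
      rw [hf1] at this
      exact this
  | succ g hg1 ih =>
    intro hg
    obtain ⟨D, hD2, hD1, hD⟩ := ih (by omega)
    obtain ⟨D', hD2', hD1', hD'⟩ := hst g hg1 (by omega)
    exact ⟨max D D', max_lt hD2 hD2', hD1.trans (le_max_left _ _),
      hTR.2 _ _ _ _ (hTR.1 _ _ _ _ (le_max_left _ _) hD) (hTR.1 _ _ _ _ (le_max_right _ _) hD')⟩
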