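import Pool.Agent.Q42.EB.Stm2

/-! Row MP_eb524a_co: the infinite sequence is glued from the stages. -/

set_option autoImplicit false

namespace Pool.Agent.Q42.EB.GLUE

open Multiset Pool.Agent.Q42.EB

lemma bal_mono {D D' : ℝ} {M : Multiset ℝ} (h : D ≤ D') (hM : Bal D M) : Bal D' M :=
  ⟨hM.1, fun x hx y hy => (hM.2 x hx y hy).trans (mul_le_mul_of_nonneg_right h (hM.1 y hy).le)⟩

lemma glue (Q : ℕ → Multiset ℝ) (D : ℕ → ℝ) (hD : Monotone D) (h0 : card (Q 0) = 1)
    (hc : ∀ k, card (Q k) < card (Q (k + 1))) (hP : ∀ k, Path (D k) (Q k) (Q (k + 1))) :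
    ∃ f : ℕ → Multiset ℝ, f 1 = Q 0 ∧ (∀ t, 1 ≤ t → MCut (f t) (f (t + 1))) ∧
      ∀ k t, 1 ≤ t → t ≤ card (Q (k + 1)) → Bal (D k) (f t) := by
  classical
  choose hle g hg0 hg1 hcut hbal using hP
  have hmono : StrictMono (fun k => card (Q k)) := strictMono_nat_of_lt_succ hc
  have hlt : ∀ t : ℕ, ∃ k, t ≤ card (Q (k + 1)) := by
    intro t
    have h1 : t + 1 ≤ card (Q (t + 1)) := hmono.le_apply
    exact ⟨t, by omega⟩
  obtain ⟨K, hK, hKm⟩ : ∃ K : ℕ → ℕ, (∀ t, t ≤ card (Q (K t + 1))) ∧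
      ∀ t k, t ≤ card (Q (k + 1)) → K t ≤ k :=
    ⟨fun t => Nat.find (hlt t), fun t => Nat.find_spec (hlt t), fun t k h => Nat.find_min' (hlt t) h⟩
  have hKl : ∀ t, 1 ≤ t → card (Q (K t)) ≤ t := by
    intro t ht
    rcases Nat.eq_zero_or_pos (K t) with h | h
    · rw [h, h0]; exact ht
    · by_contra hcon
      push Not at hcon
      obtain ⟨j, hj⟩ := Nat.exists_eq_succ_of_ne_zero h.ne'
      have h1 := hKm t j (by rw [hj] at hcon; exact hcon.le)
      omega
  refine ⟨fun t => g (K t) t, ?_, ?_, ?_⟩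
  · have h1 : K 1 = 0 := by
      have h2 := hKm 1 0 (by have := hc 0; omega)
      omega
    have h3 := hg0 0
    rw [h0] at h3
    simp only [h1]
    exact h3
  · intro t ht
    rcases lt_or_eq_of_le (hK t) with h | h
    · have h2 : K (t + 1) = K t := by
        apply le_antisymm
        · exact hKm _ _ h
        · exact hKm _ _ ((Nat.le_succ t).trans (hK (t + 1)))
      simp only [h2]
      exact hcut (K t) t (hKl t ht) h
    · have h2 : K (t + 1) = K t + 1 := by
        apply le_antisymm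
        · exact hKm _ _ (by have := hc (K t + 1); omega)
        · by_contra hcon
          push Not at hcon
          have h3 := hK (t + 1)
          have h4 : card (Q (K (t + 1) + 1)) ≤ card (Q (K t + 1)) := hmono.monotone (by omega)
          omega
      simp only [h2]
      have h5 : g (K t) t = g (K t + 1) t := by
        have h6 := hg1 (K t)
        have h7 := hg0 (K t + 1)
        rw [← h] at h6 h7
        rw [h6, h7]
      rw [h5]
      exact hcut (K t + 1) t h.ge (by have := hc (K t + 1); omega)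
  · intro k t ht htk
    exact bal_mono (hD (hKm t k htk)) (hbal (K t) t (hKl t ht) (hK t))

end Pool.Agent.Q42.EB.GLUE

namespace Pool.Agent.Q42.EB

open Multiset

theorem t_GLUE : S_GLUE := by
  classical
  intro hT b hb _ hinit hstage
  obtain ⟨M0, D0, hD0, hG0, hP0⟩ := hinit
  choose A B hA hPA hPB hGB hNB using hstage
  obtain ⟨K0, hK0⟩ := exists_nat_ge (2 * b / (2 - D0))
  obtain ⟨s, hs0, hs⟩ : ∃ s : ℕ → {M : Multiset ℝ // Good b M}, s 0 = ⟨M0, hG0⟩ ∧
      ∀ k, s (k + 1) = ⟨B (s k).1 (s k).2 (card (s k).1 + 1 + K0), hGB _ _ _⟩ :=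
    ⟨fun k => Nat.rec ⟨M0, hG0⟩ (fun _ p => ⟨B p.1 p.2 (card p.1 + 1 + K0), hGB _ _ _⟩) k,
      rfl, fun k => rfl⟩
  obtain ⟨n, hn⟩ : ∃ n : ℕ → ℕ, ∀ k, n k = card (s k).1 := ⟨_, fun k => rfl⟩
  obtain ⟨a, ha⟩ : ∃ a : ℕ → Multiset ℝ, ∀ k, a k = A (s k).1 (s k).2 (card (s k).1 + 1 + K0) :=
    ⟨_, fun k => rfl⟩
  have hcarda : ∀ k, card (a k) = 2 * n k := by
    intro k
    rw [ha, hn]
    exact hA _ _ _
  have hstep : ∀ k, n k + 1 + K0 ≤ n (k + 1) := by
    intro k
    rw [hn (k + 1), hs k, hn k]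
    exact hNB _ _ _
  have hn32 : ∀ k, 32 ≤ n k := by
    intro k
    rw [hn]
    exact (s k).2.1
  have hpa : ∀ k, Path (2 - 2 * b / (n k : ℝ)) (s k).1 (a k) := by
    intro k
    rw [ha, hn]
    exact hPA _ _ _
  have hpb : ∀ k, Path (2 - 2 * b / (n (k + 1) : ℝ)) (a k) (s (k + 1)).1 := by
    intro k
    have h1 := hPB (s k).1 (s k).2 (card (s k).1 + 1 + K0)
    rw [ha, hn (k + 1), hs k]
    exact h1
  have hDm : ∀ k l, n k ≤ n l → 2 - 2 * b / (n k : ℝ) ≤ 2 - 2 * b / (n l : ℝ) := by
    intro k l h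
    have h1 : (0 : ℝ) < n k := by
      have := hn32 k
      exact_mod_cast (by omega : 0 < n k)
    have h2 : (n k : ℝ) ≤ n l := by exact_mod_cast h
    have h3 : 2 * b / (n l : ℝ) ≤ 2 * b / (n k : ℝ) :=
      div_le_div_of_nonneg_left (by linarith) h1 h2
    linarith
  have hnm : Monotone n := monotone_nat_of_le_succ fun k => by have := hstep k; omega
  -- the sequence of the states at the times `1, 2 n₁, 2 n₂, …`
  obtain ⟨f, hf1, hf2, hf3⟩ := GLUE.glue (fun k => Nat.casesOn k {1} fun j => a (j + 1))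
    (fun k => 2 - 2 * b / (n (k + 1) : ℝ)) (fun k l hkl => hDm _ _ (hnm (by omega))) (by simp)
    (by
      intro k
      cases k with
      | zero =>
        show card ({1} : Multiset ℝ) < card (a 1)
        rw [hcarda, card_singleton]
        have := hn32 1
        omega
      | succ j =>
        show card (a (j + 1)) < card (a (j + 2))
        rw [hcarda, hcarda]
        have := hstep (j + 1)
        have e : j + 1 + 1 = j + 2 := rfl
        rw [e] at this
        omega)
    (by
      intro k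
      cases k with
      | zero =>
        show Path (2 - 2 * b / (n 1 : ℝ)) {1} (a 1)
        have h1 : D0 ≤ 2 - 2 * b / (n 1 : ℝ) := by
          have h2 : (K0 : ℝ) ≤ n 1 := by
            have := hstep 0
            have e : 0 + 1 = 1 := rfl
            rw [e] at this
            exact_mod_cast (by omega : K0 ≤ n 1)
          have h3 : (0 : ℝ) < n 1 := by
            have := hn32 1
            exact_mod_cast (by omega : 0 < n 1)
          have h4 : 2 * b / (2 - D0) ≤ n 1 := hK0.trans h2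
          have h5 : 2 * b / (n 1 : ℝ) ≤ 2 - D0 := by
            rw [div_le_iff₀ h3]
            rw [div_le_iff₀ (by linarith)] at h4
            linarith
          linarith
        have h01 : n 0 ≤ n 1 := hnm (by omega)
        have p1 : Path (2 - 2 * b / (n 1 : ℝ)) {1} (s 0).1 := by
          rw [hs0]
          exact hT.1 _ _ _ _ h1 hP0
        have p2 := hT.1 _ _ _ _ (hDm 0 1 h01) (hpa 0)
        exact hT.2 _ _ _ _ (hT.2 _ _ _ _ (hT.2 _ _ _ _ p1 p2) (hpb 0)) (hpa 1)
      | succ j =>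
        show Path (2 - 2 * b / (n (j + 1 + 1) : ℝ)) (a (j + 1)) (a (j + 1 + 1))
        exact hT.2 _ _ _ _ (hpb (j + 1)) (hpa (j + 1 + 1)))
  refine ⟨f, hf1, hf2, fun N => ?_⟩
  have hN : N ≤ n (N + 1) := by
    have h1 : ∀ k, k ≤ n k := by
      intro k
      induction k with
      | zero => exact Nat.zero_le _
      | succ k ih => have := hstep k; omega
    have := h1 (N + 1)
    omega
  refine ⟨n (N + 1), hN, by have := hn32 (N + 1); omega, fun t ht1 ht2 => ?_⟩
  refine hf3 N t ht1 ?_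
  show t ≤ card (a (N + 1))
  rw [hcarda]
  exact ht2

end Pool.Agent.Q42.EB
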