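import Pool.Agent.Q42.EB.Stm

/-! Row MP_eb524a_co, job SEQ: the optimal sequence. -/

set_option autoImplicit false

namespace Pool.Agent.Q42.EB.SEQ

/-- the sequence before normalisation -/
noncomputable def b (m : ℕ) (q : ℝ) (k : ℕ) : ℝ :=
  if h : 1 ≤ k ∧ k < m then b m q (2 * k) + b m q (2 * k + 1)
  else if k < 2 * m then q ^ k else q ^ (k / 2) / 2
termination_by m - k
decreasing_by all_goals omega

variable {m : ℕ} {q : ℝ}

lemma b_low {k : ℕ} (h1 : 1 ≤ k) (h2 : k < m) : b m q k = b m q (2 * k) + b m q (2 * k + 1) := by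
  rw [b, dif_pos ⟨h1, h2⟩]

lemma b_mid {k : ℕ} (h1 : m ≤ k) (h2 : k < 2 * m) : b m q k = q ^ k := by
  rw [b, dif_neg (by omega), if_pos h2]

lemma b_high {k : ℕ} (h1 : 2 * m ≤ k) : b m q k = q ^ (k / 2) / 2 := by
  rw [b, dif_neg (by omega), if_neg (by omega)]

lemma b_add {k : ℕ} (h1 : 1 ≤ k) (h2 : k < 2 * m) :
    b m q k = b m q (2 * k) + b m q (2 * k + 1) := by
  rcases lt_or_ge k m with h | h
  · exact b_low h1 h
  · rw [b_mid h h2, b_high (by omega), b_high (by omega)]
    have e1 : 2 * k / 2 = k := by omega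
    have e2 : (2 * k + 1) / 2 = k := by omega
    rw [e1, e2]
    ring

lemma b_pos (hq : 0 < q) (k : ℕ) : 0 < b m q k := by
  induction h : m - k using Nat.strong_induction_on generalizing k with
  | _ n ih =>
    by_cases hk : 1 ≤ k ∧ k < m
    · rw [b_low hk.1 hk.2]
      exact add_pos (ih (m - 2 * k) (by omega) _ rfl) (ih (m - (2 * k + 1)) (by omega) _ rfl)
    · rw [b, dif_neg hk]
      split_ifs
      · positivity
      · positivity

section

variable (hq0 : 0 < q) (hq1 : q ≤ 1) (hqm : q ^ m = 1 / 2)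
include hq0 hq1 hqm

lemma b_dec (k : ℕ) (h1 : 1 ≤ k) (h2 : k + 1 < 2 * m) : b m q (k + 1) ≤ q * b m q k := by
  induction h : 2 * m - k using Nat.strong_induction_on generalizing k with
  | _ n ih =>
    rcases lt_or_ge k m with hk | hk
    · rcases eq_or_lt_of_le (show k + 1 ≤ m from hk) with hk1 | hk1
      · subst hk1
        rw [b_mid le_rfl h2, b_low h1 hk, b_mid (by omega) (by omega),
          b_mid (by omega) (by omega), hqm]
        have h3 : q * (q ^ (2 * k) + q ^ (2 * k + 1)) = q ^ (2 * k + 1) + (q ^ (k + 1)) ^ 2 := by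
          ring
        have h4 : (q ^ (k + 1)) ^ 2 ≤ q ^ (2 * k + 1) := by
          rw [← pow_mul]
          exact pow_le_pow_of_le_one hq0.le hq1 (by omega)
        rw [h3]
        rw [hqm] at h4 ⊢
        linarith
      · have e1 := ih (2 * m - 2 * k) (by omega) (2 * k) (by omega) (by omega) rfl
        have e2 := ih (2 * m - (2 * k + 1)) (by omega) (2 * k + 1) (by omega) (by omega) rfl
        have e3 := ih (2 * m - (2 * k + 2)) (by omega) (2 * k + 2) (by omega) (by omega) rfl
        rw [b_low (k := k + 1) (by omega) hk1, b_low h1 hk]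
        have p1 := b_pos (m := m) hq0 (2 * k)
        have p2 := b_pos (m := m) hq0 (2 * k + 1)
        have f1 : 2 * (k + 1) = 2 * k + 1 + 1 := by ring
        have f2 : 2 * k + 1 + 1 + 1 = 2 * k + 2 + 1 := by ring
        rw [f1, f2]
        have g1 : b m q (2 * k + 1 + 1) ≤ q * (q * b m q (2 * k)) :=
          e2.trans (mul_le_mul_of_nonneg_left e1 hq0.le)
        have g2 : b m q (2 * k + 2 + 1) ≤ q * (q * b m q (2 * k + 1)) :=
          e3.trans (mul_le_mul_of_nonneg_left e2 hq0.le)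
        have g3 : q * (q * b m q (2 * k)) ≤ q * (1 * b m q (2 * k)) :=
          mul_le_mul_of_nonneg_left (mul_le_mul_of_nonneg_right hq1 p1.le) hq0.le
        have g4 : q * (q * b m q (2 * k + 1)) ≤ q * (1 * b m q (2 * k + 1)) :=
          mul_le_mul_of_nonneg_left (mul_le_mul_of_nonneg_right hq1 p2.le) hq0.le
        rw [mul_add]
        linarith
    · rw [b_mid (by omega) h2, b_mid hk (by omega), pow_succ, mul_comm]

lemma b_step (k : ℕ) (h1 : 1 ≤ k) (h2 : k + 1 < 4 * m) : b m q (k + 1) ≤ b m q k := by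
  rcases lt_trichotomy (k + 1) (2 * m) with h | h | h
  · have p := b_pos (m := m) hq0 k
    have e := b_dec hq0 hq1 hqm k h1 h
    have g : q * b m q k ≤ 1 * b m q k := mul_le_mul_of_nonneg_right hq1 p.le
    linarith
  · rw [b_high h.ge, b_mid (by omega) (by omega), h]
    have e1 : 2 * m / 2 = m := by omega
    rw [e1, hqm]
    have h4 : (q ^ m) ^ 2 ≤ q ^ k := by
      rw [← pow_mul]
      exact pow_le_pow_of_le_one hq0.le hq1 (by omega)
    rw [hqm] at h4
    linarith
  · rw [b_high (by omega), b_high (by omega)]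
    have h4 : q ^ ((k + 1) / 2) ≤ q ^ (k / 2) := pow_le_pow_of_le_one hq0.le hq1 (by omega)
    linarith

lemma b_anti (k l : ℕ) (h1 : 1 ≤ k) (hkl : k ≤ l) (h2 : l < 4 * m) : b m q l ≤ b m q k := by
  induction l, hkl using Nat.le_induction with
  | base => exact le_rfl
  | succ l hl ih =>
    exact (b_step hq0 hq1 hqm l (h1.trans hl) h2).trans (ih (by omega))

lemma b_ratio (t : ℕ) (h1 : 1 ≤ t) (h2 : t ≤ 2 * m) :
    b m q t ≤ 2 * q * b m q (2 * t - 1) := by
  rcases lt_trichotomy t m with h | h | h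
  · obtain ⟨s, rfl⟩ : ∃ s, t = s + 1 := ⟨t - 1, by omega⟩
    have e1 := b_dec hq0 hq1 hqm (2 * s + 1) (by omega) (by omega)
    have e2 := b_dec hq0 hq1 hqm (2 * s + 2) (by omega) (by omega)
    have p := b_pos (m := m) hq0 (2 * s + 1)
    have f1 : 2 * (s + 1) - 1 = 2 * s + 1 := by omega
    rw [b_low h1 h, f1]
    have f2 : 2 * (s + 1) = 2 * s + 1 + 1 := by ring
    have f3 : 2 * s + 1 + 1 + 1 = 2 * s + 2 + 1 := by ring
    rw [f2, f3]
    have g1 : b m q (2 * s + 2 + 1) ≤ q * (q * b m q (2 * s + 1)) :=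
      e2.trans (mul_le_mul_of_nonneg_left e1 hq0.le)
    have g2 : q * (q * b m q (2 * s + 1)) ≤ q * (1 * b m q (2 * s + 1)) :=
      mul_le_mul_of_nonneg_left (mul_le_mul_of_nonneg_right hq1 p.le) hq0.le
    linarith
  · subst h
    rw [b_mid le_rfl (by omega), b_mid (by omega) (by omega)]
    have e : 2 * q * q ^ (2 * t - 1) = 2 * (q ^ t) ^ 2 := by
      rw [← pow_mul, mul_assoc, ← pow_succ']
      congr 2
      omega
    rw [e, hqm]
    norm_num
  · have e1 : (2 * t - 1) / 2 = t - 1 := by omega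
    rw [b_high (k := 2 * t - 1) (by omega), e1]
    have e : 2 * q * (q ^ (t - 1) / 2) = q ^ t := by
      obtain ⟨s, rfl⟩ : ∃ s, t = s + 1 := ⟨t - 1, by omega⟩
      rw [Nat.add_sub_cancel, pow_succ]
      ring
    rw [e]
    rcases eq_or_lt_of_le h2 with h3 | h3
    · subst h3
      have e2 : 2 * m / 2 = m := by omega
      rw [b_high le_rfl, e2, mul_comm 2 m, pow_mul, hqm]
      norm_num
    · rw [b_mid h.le h3]

end

end Pool.Agent.Q42.EB.SEQ

namespace Pool.Agent.Q42.EB

open SEQ in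
theorem t_SEQ : S_SEQ := by
  intro m hm
  set q : ℝ := (2 : ℝ) ^ (-(1 / (m : ℝ))) with hq
  have hm0 : (0 : ℝ) < m := by exact_mod_cast hm
  have hq0 : 0 < q := by positivity
  have hq1 : q ≤ 1 := by
    rw [hq]
    exact Real.rpow_le_one_of_one_le_of_nonpos one_le_two (by
      have : (0 : ℝ) ≤ 1 / m := by positivity
      linarith)
  have hqm : q ^ m = 1 / 2 := by
    rw [hq, ← Real.rpow_natCast, ← Real.rpow_mul zero_le_two, neg_mul,
      one_div_mul_cancel hm0.ne', Real.rpow_neg_one]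
    norm_num
  have h2q : (2 : ℝ) ^ (1 - 1 / (m : ℝ)) = 2 * q := by
    rw [hq, sub_eq_add_neg, Real.rpow_add two_pos, Real.rpow_one]
  have p := fun k => b_pos (m := m) hq0 k
  refine ⟨fun k => b m q k / b m q 1, fun k _ => div_pos (p k) (p 1), div_self (p 1).ne',
    fun k h1 h2 => ?_, fun k l h1 h2 h3 => ?_, fun t h1 h2 => ?_⟩
  · change b m q k / b m q 1 = b m q (2 * k) / b m q 1 + b m q (2 * k + 1) / b m q 1
    rw [b_add h1 h2, add_div]
  · exact div_le_div_of_nonneg_right (b_anti hq0 hq1 hqm k l h1 h2 h3) (p 1).le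
  · change b m q t / b m q 1 ≤ _ * (b m q (2 * t - 1) / b m q 1)
    rw [h2q, ← mul_div_assoc]
    exact div_le_div_of_nonneg_right (b_ratio hq0 hq1 hqm t h1 h2) (p 1).le

end Pool.Agent.Q42.EB
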