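import Pool.Agent.Q42.EB.Stm2
import Pool.Agent.Q42.EB.SEQ

/-! Row MP_eb524a_co, job INIT: the initial state. -/

set_option autoImplicit false

namespace Pool.Agent.Q42.EB.INIT

open Multiset Pool.Agent.Q42.EB.SEQ

/-- the state at time `t` -/
noncomputable def fs (a : ℕ → ℝ) (t : ℕ) : Multiset ℝ := (Multiset.range t).map (fun i => a (t + i))

lemma card_fs (a : ℕ → ℝ) (t : ℕ) : card (fs a t) = t := by simp [fs]

lemma fs_succ (a : ℕ → ℝ) (s : ℕ) :
    fs a (s + 1) = a (s + 1) ::ₘ (Multiset.range s).map (fun i => a (s + 2 + i)) := by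
  unfold fs
  rw [← Multiset.coe_range, ← Multiset.coe_range, Multiset.map_coe, Multiset.map_coe,
    List.range_succ_eq_map, List.map_cons, List.map_map, Multiset.cons_coe]
  congr 2
  apply List.map_congr_left
  intro i _
  simp only [Function.comp]
  congr 1
  omega

lemma fs_succ2 (a : ℕ → ℝ) (s : ℕ) :
    fs a (s + 2) = a (2 * (s + 1) + 1) ::ₘ a (2 * (s + 1)) ::ₘ
      (Multiset.range s).map (fun i => a (s + 2 + i)) := by
  unfold fs
  rw [Multiset.range_succ, Multiset.map_cons, Multiset.range_succ, Multiset.map_cons]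
  have e1 : s + 2 + (s + 1) = 2 * (s + 1) + 1 := by ring
  have e2 : s + 2 + s = 2 * (s + 1) := by ring
  rw [e1, e2]

lemma mcut (a : ℕ → ℝ) (s : ℕ) (hp : ∀ k, 1 ≤ k → 0 < a k)
    (h : a (s + 1) = a (2 * (s + 1)) + a (2 * (s + 1) + 1)) : MCut (fs a (s + 1)) (fs a (s + 2)) := by
  refine ⟨_, _, _, hp _ (by omega), hp _ (by omega), ?_, fs_succ2 a s⟩
  rw [fs_succ, h, add_comm]

lemma large (b : ℝ) (hb : 0 < b) (hb2 : b < Real.log 2) :
    ∃ m : ℕ, 32 ≤ m ∧ gap b m ≤ 1 - (2 : ℝ) ^ (-(1 / (m : ℝ))) := by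
  have hL : 0 < Real.log 2 - b := by linarith
  obtain ⟨N, hN⟩ := exists_nat_gt (17 * b / (Real.log 2 - b))
  refine ⟨max N 32, le_max_right _ _, ?_⟩
  set m : ℕ := max N 32 with hm
  have hm32 : (32 : ℝ) ≤ m := by exact_mod_cast le_max_right N 32
  have hmN : (N : ℝ) ≤ m := by exact_mod_cast le_max_left N 32
  have hm0 : (0 : ℝ) < m := by linarith
  have h17 : 17 * b ≤ (Real.log 2 - b) * m := by
    rw [div_lt_iff₀ hL] at hN
    nlinarith
  have hlog1 : Real.log 2 ≤ 1 := by
    have := Real.log_two_lt_d9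
    linarith
  have hlog0 : 0 < Real.log 2 := by linarith
  have hexp : (2 : ℝ) ^ (-(1 / (m : ℝ))) ≤ 1 / (1 + Real.log 2 / m) := by
    rw [Real.rpow_def_of_pos (by norm_num), mul_neg, Real.exp_neg, mul_one_div, one_div]
    apply inv_anti₀ (by positivity)
    have := Real.add_one_le_exp (Real.log 2 / m)
    linarith
  have h1 : Real.log 2 / (m + 1) ≤ 1 - 1 / (1 + Real.log 2 / m) := by
    have e : 1 - 1 / (1 + Real.log 2 / m) = Real.log 2 / (m + Real.log 2) := by
      field_simp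
      ring
    rw [e]
    apply div_le_div_of_nonneg_left hlog0.le (by positivity)
    linarith
  have h2 : gap b m ≤ Real.log 2 / (m + 1) := by
    unfold gap
    have e : b * (1 + 8 / (m : ℝ)) / (m : ℝ) = b * (m + 8) / (m * m) := by
      field_simp
    rw [e, div_le_div_iff₀ (by positivity) (by positivity)]
    nlinarith
  linarith

end Pool.Agent.Q42.EB.INIT

namespace Pool.Agent.Q42.EB

open INIT SEQ Multiset in
theorem t_INIT : S_INIT := by
  intro b hb hb2
  obtain ⟨m, hm32, hgap⟩ := large b hb hb2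
  set q : ℝ := (2 : ℝ) ^ (-(1 / (m : ℝ))) with hq
  have hm0 : (0 : ℝ) < m := by
    have : 0 < m := by omega
    exact_mod_cast this
  have hq0 : 0 < q := by positivity
  have hq1' : q < 1 := by
    rw [hq]
    exact Real.rpow_lt_one_of_one_lt_of_neg one_lt_two (by
      have : (0 : ℝ) < 1 / m := by positivity
      linarith)
  have hq1 : q ≤ 1 := hq1'.le
  have hqm : q ^ m = 1 / 2 := by
    rw [hq, ← Real.rpow_natCast, ← Real.rpow_mul zero_le_two, neg_mul,
      one_div_mul_cancel hm0.ne', Real.rpow_neg_one]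
    norm_num
  have p := fun k => b_pos (m := m) hq0 k
  set c : ℝ := SEQ.b m q 1 with hc
  have hc0 : 0 < c := p 1
  set a : ℕ → ℝ := fun k => SEQ.b m q k / c with ha
  have ha0 : ∀ k, 1 ≤ k → 0 < a k := fun k _ => div_pos (p k) hc0
  have ha1 : a 1 = 1 := div_self hc0.ne'
  have hadd : ∀ k, 1 ≤ k → k < 2 * m → a k = a (2 * k) + a (2 * k + 1) := by
    intro k h1 h2
    change SEQ.b m q k / c = SEQ.b m q (2 * k) / c + SEQ.b m q (2 * k + 1) / c
    rw [b_add h1 h2, add_div]
  have hanti : ∀ k l, 1 ≤ k → k ≤ l → l < 4 * m → a l ≤ a k := fun k l h1 h2 h3 =>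
    div_le_div_of_nonneg_right (b_anti hq0 hq1 hqm k l h1 h2 h3) hc0.le
  have hratio : ∀ t, 1 ≤ t → t ≤ 2 * m → a t ≤ 2 * q * a (2 * t - 1) := by
    intro t h1 h2
    change SEQ.b m q t / c ≤ _ * (SEQ.b m q (2 * t - 1) / c)
    rw [← mul_div_assoc]
    exact div_le_div_of_nonneg_right (b_ratio hq0 hq1 hqm t h1 h2) hc0.le
  have hmid : ∀ i, i < m → a (m + i) = q ^ (m + i) / c := fun i hi => by
    change SEQ.b m q (m + i) / c = _
    rw [b_mid (by omega) (by omega)]
  have hmem : ∀ x ∈ fs a m, ∃ i, i < m ∧ x = q ^ (m + i) / c := by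
    intro x hx
    unfold fs at hx
    rw [Multiset.mem_map] at hx
    obtain ⟨i, hi, rfl⟩ := hx
    exact ⟨i, Multiset.mem_range.1 hi, hmid i (Multiset.mem_range.1 hi)⟩
  refine ⟨fs a m, 2 * q, by linarith, ⟨?_, ?_, ?_, ?_, ?_⟩, ?_, fs a, ?_, ?_, ?_, ?_⟩
  · rw [card_fs]; exact hm32
  · unfold fs
    apply Multiset.Nodup.map_on _ (Multiset.nodup_range m)
    intro i hi j hj hij
    rw [Multiset.mem_range] at hi hj
    rw [hmid i hi, hmid j hj] at hij
    have h1 : q ^ (m + i) = q ^ (m + j) := by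
      field_simp at hij
      exact hij
    have h2 := (pow_right_strictAnti₀ hq0 hq1').injective h1
    omega
  · intro x hx
    obtain ⟨i, hi, rfl⟩ := hmem x hx
    positivity
  · intro x hx y hy hyx
    obtain ⟨i, hi, rfl⟩ := hmem x hx
    obtain ⟨j, hj, rfl⟩ := hmem y hy
    rw [card_fs]
    have h1 : q ^ (m + j) < q ^ (m + i) := by
      by_contra h
      exact absurd hyx (not_lt.2 (div_le_div_of_nonneg_right (not_lt.1 h) hc0.le))
    have h2 : m + i < m + j := (pow_lt_pow_iff_right_of_lt_one₀ hq0 hq1').1 h1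
    have h3 : q ^ (m + j) ≤ q * q ^ (m + i) := by
      rw [← pow_succ']
      exact pow_le_pow_of_le_one hq0.le hq1 (by omega)
    have h4 : q * q ^ (m + i) ≤ (1 - gap b m) * q ^ (m + i) :=
      mul_le_mul_of_nonneg_right (by linarith) (by positivity)
    rw [← mul_div_assoc]
    exact div_le_div_of_nonneg_right (h3.trans h4) hc0.le
  · intro x hx y hy
    obtain ⟨i, hi, rfl⟩ := hmem x hx
    obtain ⟨j, hj, rfl⟩ := hmem y hy
    rw [card_fs]
    have h1 : q ^ (m + i) ≤ q ^ m := pow_le_pow_of_le_one hq0.le hq1 (by omega)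
    have h2 : q ^ (m + m) ≤ q * q ^ (m + j) := by
      rw [← pow_succ']
      exact pow_le_pow_of_le_one hq0.le hq1 (by omega)
    have h3 : q ^ (m + m) = 1 / 4 := by rw [pow_add, hqm]; norm_num
    have h4 : q * q ^ (m + j) ≤ (1 - gap b m) * q ^ (m + j) :=
      mul_le_mul_of_nonneg_right (by linarith) (by positivity)
    rw [← mul_div_assoc]
    apply div_le_div_of_nonneg_right _ hc0.le
    rw [hqm] at h1
    rw [h3] at h2
    linarith
  · rw [card_fs, Multiset.card_singleton]; omega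
  · rw [Multiset.card_singleton]
    simp [fs, ha1]
  · rw [card_fs]
  · intro t h1 h2
    rw [Multiset.card_singleton] at h1
    rw [card_fs] at h2
    obtain ⟨s, rfl⟩ : ∃ s, t = s + 1 := ⟨t - 1, by omega⟩
    exact mcut a s ha0 (hadd _ (by omega) (by omega))
  · intro t h1 h2
    rw [Multiset.card_singleton] at h1
    rw [card_fs] at h2
    have hm' : ∀ x ∈ fs a t, ∃ i, i < t ∧ x = a (t + i) := by
      intro x hx
      unfold fs at hx
      rw [Multiset.mem_map] at hx
      obtain ⟨i, hi, rfl⟩ := hx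
      exact ⟨i, Multiset.mem_range.1 hi, rfl⟩
    refine ⟨fun x hx => ?_, fun x hx y hy => ?_⟩
    · obtain ⟨i, hi, rfl⟩ := hm' x hx
      exact ha0 _ (by omega)
    · obtain ⟨i, hi, rfl⟩ := hm' x hx
      obtain ⟨j, hj, rfl⟩ := hm' y hy
      calc a (t + i) ≤ a t := hanti t (t + i) h1 (by omega) (by omega)
        _ ≤ 2 * q * a (2 * t - 1) := hratio t h1 (by omega)
        _ ≤ 2 * q * a (t + j) :=
          mul_le_mul_of_nonneg_left (hanti (t + j) (2 * t - 1) (by omega) (by omega) (by omega))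
            (by positivity)

end Pool.Agent.Q42.EB
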