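import Pool.Agent.Q42.EB.Stm2

set_option autoImplicit false

/-! Row MP_eb524a_co, job LIFT: a sequence of multisets is realised by lists. -/

namespace Pool.Agent.Q42.EB.LIFT

theorem step (M M' : Multiset ℝ) (h : MCut M M') (l : List ℝ) (hl : (l : Multiset ℝ) = M) :
    ∃ l' : List ℝ, Cut l l' ∧ (l' : Multiset ℝ) = M' := by
  obtain ⟨R, y, z, _, _, h1, h2⟩ := h
  subst h1
  have hmem : y + z ∈ l := by
    rw [← Multiset.mem_coe, hl]
    exact Multiset.mem_cons_self _ _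
  obtain ⟨l₁, l₂, rfl⟩ := List.append_of_mem hmem
  have h3 : ((l₁ ++ (y + z) :: l₂ : List ℝ) : Multiset ℝ) =
      (y + z) ::ₘ ((l₁ ++ l₂ : List ℝ) : Multiset ℝ) := by
    rw [Multiset.cons_coe, Multiset.coe_eq_coe]
    exact List.perm_middle
  rw [h3] at hl
  have h4 : ((l₁ ++ l₂ : List ℝ) : Multiset ℝ) = R := (Multiset.cons_inj_right _).1 hl
  refine ⟨l₁ ++ y :: z :: l₂, ⟨l₁, l₂, y, z, rfl, rfl⟩, ?_⟩
  rw [h2, ← h4, Multiset.cons_coe, Multiset.cons_coe, Multiset.coe_eq_coe]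
  exact List.perm_middle.trans (List.Perm.cons _ List.perm_middle)

theorem inv (f : ℕ → Multiset ℝ) (h1 : f 1 = {1}) (hf : ∀ t, 1 ≤ t → MCut (f t) (f (t + 1)))
    (t : ℕ) (ht : 1 ≤ t) : (∀ x ∈ f t, 0 < x) ∧ (f t).sum = 1 ∧ Multiset.card (f t) = t := by
  induction t, ht using Nat.le_induction with
  | base => simp [h1]
  | succ t ht ih =>
    obtain ⟨R, y, z, hy, hz, e1, e2⟩ := hf t ht
    obtain ⟨i1, i2, i3⟩ := ih
    rw [e1] at i1 i2 i3
    rw [e2]
    refine ⟨fun x hx => ?_, ?_, ?_⟩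
    · rw [Multiset.mem_cons, Multiset.mem_cons] at hx
      rcases hx with rfl | rfl | hx
      · exact hy
      · exact hz
      · exact i1 x (Multiset.mem_cons_of_mem hx)
    · rw [Multiset.sum_cons] at i2
      rw [Multiset.sum_cons, Multiset.sum_cons]
      linarith
    · rw [Multiset.card_cons] at i3
      rw [Multiset.card_cons, Multiset.card_cons]
      omega

open Classical in
/-- the strategy: `T f k` has `k + 1` intervals -/
noncomputable def T (f : ℕ → Multiset ℝ) : ℕ → List ℝ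
  | 0 => [1]
  | k + 1 => if h : ∃ l' : List ℝ, Cut (T f k) l' ∧ (l' : Multiset ℝ) = f (k + 2) then h.choose else []

theorem T_spec (f : ℕ → Multiset ℝ) (h1 : f 1 = {1}) (hf : ∀ t, 1 ≤ t → MCut (f t) (f (t + 1)))
    (k : ℕ) : (T f k : Multiset ℝ) = f (k + 1) ∧ Cut (T f k) (T f (k + 1)) := by
  have main : ∀ k, (T f k : Multiset ℝ) = f (k + 1) → (T f (k + 1) : Multiset ℝ) = f (k + 2) ∧
      Cut (T f k) (T f (k + 1)) := by
    intro k hk
    have hex := step _ _ (hf (k + 1) (by omega)) (T f k) hk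
    have hT : T f (k + 1) = hex.choose := by
      rw [T, dif_pos hex]
    rw [hT]
    exact ⟨hex.choose_spec.2, hex.choose_spec.1⟩
  have h : ∀ k, (T f k : Multiset ℝ) = f (k + 1) := by
    intro k
    induction k with
    | zero =>
      rw [h1, T]
      rfl
    | succ k ih => exact (main k ih).1
  exact ⟨h k, (main k (h k)).2⟩

end Pool.Agent.Q42.EB.LIFT

namespace Pool.Agent.Q42.EB

open LIFT

theorem t_LIFT : S_LIFT := by
  intro f h1 hf
  have hT := T_spec f h1 hf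
  refine ⟨fun t => T f (t - 1), fun i hi => ?_, fun i hi => ?_, fun i hi => ?_, fun i hi => ?_⟩
  all_goals obtain ⟨k, rfl⟩ : ∃ k, i = k + 1 := ⟨i - 1, by omega⟩
  · obtain ⟨j1, j2, _⟩ := inv f h1 hf (k + 1) hi
    rw [← (hT k).1] at j1 j2
    exact ⟨fun x hx => j1 x (Multiset.mem_coe.2 hx), by rw [← Multiset.sum_coe]; exact j2⟩
  · obtain ⟨_, _, j3⟩ := inv f h1 hf (k + 1) hi
    rw [← (hT k).1, Multiset.coe_card] at j3
    exact j3
  · exact (hT k).2
  · exact (hT k).1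

end Pool.Agent.Q42.EB
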