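import Pool.Agent.Q42.EB.Stm

set_option autoImplicit false

/-! Row MP_eb524a_co, job LIST: the strategy of lists belonging to the sequence `a`. -/

namespace Pool.Agent.Q42.EB.LIST

/-- the elements of `l` are `a t, …, a (2 t - 1)` -/
def Good (a : ℕ → ℝ) (t : ℕ) (l : List ℝ) : Prop :=
  (l : Multiset ℝ) = (Multiset.range t).map (fun i => a (t + i))

theorem front (a : ℕ → ℝ) (s : ℕ) :
    (Multiset.range (s + 1)).map (fun i => a (s + 1 + i)) =
      a (s + 1) ::ₘ (Multiset.range s).map (fun i => a (s + 2 + i)) := by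
  have h : Multiset.range (s + 1) = 0 ::ₘ (Multiset.range s).map Nat.succ := by
    unfold Multiset.range
    rw [List.range_succ_eq_map, Multiset.map_coe, Multiset.cons_coe]
  rw [h, Multiset.map_cons, Multiset.map_map, Nat.add_zero]
  refine congrArg _ (Multiset.map_congr rfl fun i _ => ?_)
  simp only [Function.comp]
  exact congrArg a (by omega)

theorem back (a : ℕ → ℝ) (s : ℕ) :
    (Multiset.range (s + 2)).map (fun i => a (s + 2 + i)) =
      a (2 * (s + 1) + 1) ::ₘ a (2 * (s + 1)) ::ₘ (Multiset.range s).map (fun i => a (s + 2 + i)) := by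
  rw [Multiset.range_succ, Multiset.range_succ, Multiset.map_cons, Multiset.map_cons]
  have e1 : s + 2 + (s + 1) = 2 * (s + 1) + 1 := by omega
  have e2 : s + 2 + s = 2 * (s + 1) := by omega
  simp only [e1, e2]

theorem step (N : ℕ) (a : ℕ → ℝ) (hrec : ∀ k, 1 ≤ k → k < N → a k = a (2 * k) + a (2 * k + 1))
    (t : ℕ) (ht : 1 ≤ t) (htN : t < N) (l : List ℝ) (hl : Good a t l) :
    ∃ l', Cut l l' ∧ Good a (t + 1) l' := by
  obtain ⟨s, rfl⟩ : ∃ s, t = s + 1 := ⟨t - 1, by omega⟩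
  have h1 : (l : Multiset ℝ) = a (s + 1) ::ₘ (Multiset.range s).map (fun i => a (s + 2 + i)) := by
    rw [hl, front]
  have hmem : a (s + 1) ∈ l := by
    rw [← Multiset.mem_coe, h1]
    exact Multiset.mem_cons_self _ _
  obtain ⟨l₁, l₂, rfl⟩ := List.append_of_mem hmem
  have h2 : ((l₁ ++ l₂ : List ℝ) : Multiset ℝ) =
      (Multiset.range s).map (fun i => a (s + 2 + i)) := by
    have h3 : ((l₁ ++ a (s + 1) :: l₂ : List ℝ) : Multiset ℝ) =
        a (s + 1) ::ₘ ((l₁ ++ l₂ : List ℝ) : Multiset ℝ) := by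
      rw [Multiset.cons_coe, Multiset.coe_eq_coe]
      exact List.perm_middle
    rw [h3] at h1
    exact (Multiset.cons_inj_right _).1 h1
  refine ⟨l₁ ++ a (2 * (s + 1)) :: a (2 * (s + 1) + 1) :: l₂,
    ⟨l₁, l₂, a (2 * (s + 1)), a (2 * (s + 1) + 1), ?_, rfl⟩, ?_⟩
  · rw [← hrec (s + 1) ht htN]
  · unfold Good
    rw [show s + 1 + 1 = s + 2 by omega, back, ← h2, Multiset.cons_coe, Multiset.cons_coe,
      Multiset.coe_eq_coe]
    refine List.perm_middle.trans ?_
    refine (List.Perm.cons _ List.perm_middle).trans ?_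
    exact List.Perm.swap _ _ _

theorem good_sum (N : ℕ) (a : ℕ → ℝ) (h1 : a 1 = 1)
    (hrec : ∀ k, 1 ≤ k → k < N → a k = a (2 * k) + a (2 * k + 1)) (t : ℕ) (ht : 1 ≤ t)
    (htN : t ≤ N) : ((Multiset.range t).map (fun i => a (t + i))).sum = 1 := by
  induction t, ht using Nat.le_induction with
  | base => simp [h1]
  | succ t ht ih =>
    obtain ⟨s, rfl⟩ : ∃ s, t = s + 1 := ⟨t - 1, by omega⟩
    have h2 := ih (by omega)
    rw [front, Multiset.sum_cons, hrec (s + 1) ht (by omega)] at h2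
    rw [show s + 1 + 1 = s + 2 by omega, back, Multiset.sum_cons, Multiset.sum_cons]
    linarith

theorem good_part (N : ℕ) (a : ℕ → ℝ) (hpos : ∀ k, 1 ≤ k → 0 < a k) (h1 : a 1 = 1)
    (hrec : ∀ k, 1 ≤ k → k < N → a k = a (2 * k) + a (2 * k + 1)) (t : ℕ) (ht : 1 ≤ t)
    (htN : t ≤ N) (l : List ℝ) (hl : Good a t l) : IsPartition l ∧ l.length = t := by
  refine ⟨⟨fun x hx => ?_, ?_⟩, ?_⟩
  · rw [← Multiset.mem_coe, hl, Multiset.mem_map] at hx
    obtain ⟨i, _, rfl⟩ := hx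
    exact hpos _ (by omega)
  · rw [← Multiset.sum_coe, hl]
    exact good_sum N a h1 hrec t ht htN
  · rw [← Multiset.coe_card, hl, Multiset.card_map, Multiset.card_range]

open Classical in
/-- the strategy: `T a k` has `k + 1` intervals -/
noncomputable def T (a : ℕ → ℝ) : ℕ → List ℝ
  | 0 => [1]
  | k + 1 => if h : ∃ l', Cut (T a k) l' ∧ Good a (k + 2) l' then h.choose else []

theorem T_spec (N : ℕ) (a : ℕ → ℝ) (h1 : a 1 = 1)
    (hrec : ∀ k, 1 ≤ k → k < N → a k = a (2 * k) + a (2 * k + 1)) (k : ℕ) (hk : k + 1 ≤ N) :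
    Good a (k + 1) (T a k) ∧ (k + 1 < N → Cut (T a k) (T a (k + 1))) := by
  induction k with
  | zero =>
    have hg : Good a (0 + 1) (T a 0) := by
      unfold Good T
      simp [h1]
    refine ⟨hg, fun h2 => ?_⟩
    have hex := step N a hrec (0 + 1) (by omega) h2 _ hg
    have hT : T a (0 + 1) = hex.choose := by rw [T, dif_pos hex]
    rw [hT]
    exact hex.choose_spec.1
  | succ k ih =>
    obtain ⟨hg0, _⟩ := ih (by omega)
    have hex := step N a hrec (k + 1) (by omega) (by omega) _ hg0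
    have hT : T a (k + 1) = hex.choose := by rw [T, dif_pos hex]
    have hg : Good a (k + 1 + 1) (T a (k + 1)) := by
      rw [hT]
      exact hex.choose_spec.2
    refine ⟨hg, fun h2 => ?_⟩
    have hex2 := step N a hrec (k + 1 + 1) (by omega) h2 _ hg
    have hT2 : T a (k + 1 + 1) = hex2.choose := by rw [T, dif_pos hex2]
    rw [hT2]
    exact hex2.choose_spec.1

end Pool.Agent.Q42.EB.LIST

namespace Pool.Agent.Q42.EB

open LIST

theorem t_LIST : S_LIST := by
  intro N a hpos h1 hrec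
  have hT := T_spec N a h1 hrec
  refine ⟨fun t => T a (t - 1), ⟨fun i hi hiN => ?_, fun i hi hiN => ?_, fun i hi hiN => ?_⟩,
    fun t ht htN => ?_⟩
  · obtain ⟨k, rfl⟩ : ∃ k, i = k + 1 := ⟨i - 1, by omega⟩
    exact (good_part N a hpos h1 hrec (k + 1) hi hiN _ (hT k hiN).1).1
  · obtain ⟨k, rfl⟩ : ∃ k, i = k + 1 := ⟨i - 1, by omega⟩
    exact (good_part N a hpos h1 hrec (k + 1) hi hiN _ (hT k hiN).1).2
  · obtain ⟨k, rfl⟩ : ∃ k, i = k + 1 := ⟨i - 1, by omega⟩
    exact (hT k (by omega)).2 hiN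
  · obtain ⟨k, rfl⟩ : ∃ k, t = k + 1 := ⟨t - 1, by omega⟩
    exact (hT k htN).1

end Pool.Agent.Q42.EB
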