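import Pool.Agent.Q42.EB.Stm

/-! JOB EB-LOW (project EB of helper42), written by helper231. -/

set_option autoImplicit false

namespace Pool.Agent.Q42.EB

namespace LOW

theorem erase_le (l₁ l₂ : List ℝ) (y z : ℝ) :
    ((l₁ ++ (y + z) :: l₂ : List ℝ) : Multiset ℝ).erase (y + z) ≤
      ((l₁ ++ y :: z :: l₂ : List ℝ) : Multiset ℝ) := by
  have h1 : ((l₁ ++ (y + z) :: l₂ : List ℝ) : Multiset ℝ) =
      (y + z) ::ₘ ((l₁ ++ l₂ : List ℝ) : Multiset ℝ) := by
    rw [Multiset.cons_coe, Multiset.coe_eq_coe]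
    exact List.perm_middle
  have h2 : ((l₁ ++ y :: z :: l₂ : List ℝ) : Multiset ℝ) =
      y ::ₘ z ::ₘ ((l₁ ++ l₂ : List ℝ) : Multiset ℝ) := by
    rw [Multiset.cons_coe, Multiset.cons_coe, Multiset.coe_eq_coe]
    exact List.perm_middle.trans (List.Perm.cons _ List.perm_middle)
  rw [h1, h2, Multiset.erase_cons_head]
  exact (Multiset.le_cons_self _ _).trans (Multiset.le_cons_self _ _)

theorem common {n m : ℕ} {S : ℕ → List ℝ} (hm : 1 ≤ m) (hS : IsStrategyUpTo n S) (j : ℕ) :
    m + j ≤ n → ∃ R : Multiset ℝ, R ≤ (S m : Multiset ℝ) ∧ R ≤ (S (m + j) : Multiset ℝ) ∧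
      m ≤ Multiset.card R + j := by
  induction j with
  | zero =>
    intro h
    refine ⟨(S m : Multiset ℝ), le_rfl, le_rfl, ?_⟩
    rw [Multiset.coe_card, hS.len m hm (by omega)]
    omega
  | succ j ih =>
    intro h
    obtain ⟨R, h1, h2, h3⟩ := ih (by omega)
    obtain ⟨l₁, l₂, y, z, h4, h5⟩ := hS.cut (m + j) (by omega) (by omega)
    refine ⟨R.erase (y + z), (Multiset.erase_le _ _).trans h1, ?_, ?_⟩
    · have h6 := Multiset.erase_le_erase (y + z) h2
      rw [h4] at h6
      have h7 : S (m + (j + 1)) = l₁ ++ y :: z :: l₂ := h5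
      rw [h7]
      exact h6.trans (erase_le l₁ l₂ y z)
    · have h6 : Multiset.card R ≤ Multiset.card (R.erase (y + z)) + 1 := by
        by_cases hmem : (y + z) ∈ R
        · rw [Multiset.card_erase_add_one hmem]
        · rw [Multiset.erase_of_notMem hmem]
          omega
      omega

theorem main : S_LOW := by
  intro n m S D hm hmn hS hD
  have hne : ∀ t, 1 ≤ t → t ≤ n → ∃ a ∈ S t, ∀ x ∈ S t, x ≤ a := by
    intro t h1 h2
    have h3 : (S t).toFinset.Nonempty := by
      rw [List.toFinset_nonempty_iff]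
      intro h4
      have h5 := hS.len t h1 h2
      rw [h4] at h5
      simp only [List.length_nil] at h5
      omega
    obtain ⟨a, ha, hb⟩ := (S t).toFinset.exists_max_image id h3
    exact ⟨a, List.mem_toFinset.1 ha, fun x hx => hb x (List.mem_toFinset.2 hx)⟩
  choose! a ha hamax using hne
  have hpos : ∀ t, 1 ≤ t → t ≤ n → 0 < a t := fun t h1 h2 =>
    (hS.part t h1 h2).1 _ (ha t h1 h2)
  have hD1 : 1 ≤ D := by
    have h1 := hD m hm (by omega) _ (ha m hm (by omega)) _ (ha m hm (by omega))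
    have h2 := hpos m hm (by omega)
    by_contra h3
    rw [not_le] at h3
    nlinarith
  have hstep : ∀ t, 1 ≤ t → t + 1 ≤ n → a (t + 1) ≤ D / 2 * a t := by
    intro t h1 h2
    obtain ⟨l₁, l₂, y, z, h4, h5⟩ := hS.cut t h1 (by omega)
    have h6 : y + z ≤ a t := hamax t h1 (by omega) _ (by rw [h4]; simp)
    have hy : a (t + 1) ≤ D * y := hD (t + 1) (by omega) h2 _ (ha (t + 1) (by omega) h2) _
      (by rw [h5]; simp)
    have hz : a (t + 1) ≤ D * z := hD (t + 1) (by omega) h2 _ (ha (t + 1) (by omega) h2) _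
      (by rw [h5]; simp)
    nlinarith
  have hiter : ∀ j, m + j ≤ n → a (m + j) ≤ (D / 2) ^ j * a m := by
    intro j
    induction j with
    | zero => intro h; simp
    | succ j ih =>
      intro h
      have h1 := ih (by omega)
      have h2 := hstep (m + j) (by omega) (by omega)
      have h3 : D / 2 * a (m + j) ≤ D / 2 * ((D / 2) ^ j * a m) :=
        mul_le_mul_of_nonneg_left h1 (by linarith)
      calc a (m + (j + 1)) ≤ D / 2 * a (m + j) := h2
        _ ≤ D / 2 * ((D / 2) ^ j * a m) := h3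
        _ = (D / 2) ^ (j + 1) * a m := by ring
  obtain ⟨R, hR1, hR2, hR3⟩ := common hm hS (m - 1) (by omega)
  have hRpos : 0 < Multiset.card R := by omega
  obtain ⟨x, hx⟩ := Multiset.card_pos_iff_exists_mem.1 hRpos
  have hx1 : x ∈ S m := Multiset.mem_coe.1 (Multiset.mem_of_le hR1 hx)
  have hx2 : x ∈ S (m + (m - 1)) := Multiset.mem_coe.1 (Multiset.mem_of_le hR2 hx)
  have h1 : a m ≤ D * x := hD m hm (by omega) _ (ha m hm (by omega)) _ hx1
  have h2 : x ≤ a (m + (m - 1)) := hamax _ (by omega) (by omega) _ hx2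
  have h3 := hiter (m - 1) (by omega)
  have h4 := hpos m hm (by omega)
  have h5 : a m ≤ D * ((D / 2) ^ (m - 1) * a m) := by
    refine h1.trans ?_
    exact mul_le_mul_of_nonneg_left (h2.trans h3) (by linarith)
  have h6 : 1 ≤ D * (D / 2) ^ (m - 1) := by
    by_contra h7
    rw [not_le] at h7
    nlinarith
  have h7 : (2 : ℝ) ^ (m - 1) ≤ D ^ m := by
    have h8 : D * (D / 2) ^ (m - 1) = D ^ m / 2 ^ (m - 1) := by
      obtain ⟨k, rfl⟩ : ∃ k, m = k + 1 := ⟨m - 1, by omega⟩
      rw [Nat.add_sub_cancel, div_pow, pow_succ]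
      ring
    rw [h8, le_div_iff₀ (by positivity), one_mul] at h6
    exact h6
  by_contra h8
  rw [not_le] at h8
  have h9 := pow_lt_pow_left₀ h8 (by linarith) (show m ≠ 0 by omega)
  have h10 : ((2 : ℝ) ^ (1 - 1 / (m : ℝ))) ^ m = 2 ^ (m - 1) := by
    have hm0 : (m : ℝ) ≠ 0 := by
      have : m ≠ 0 := by omega
      exact_mod_cast this
    rw [← Real.rpow_natCast, ← Real.rpow_mul (by norm_num), ← Real.rpow_natCast]
    congr 1
    rw [Nat.cast_sub hm]
    push_cast
    field_simp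
  rw [h10] at h9
  linarith

end LOW

theorem t_LOW : S_LOW := LOW.main

end Pool.Agent.Q42.EB
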