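import Pool.Agent.Q42.EB.Stm2

/-! Row MP_eb524a_co: the numbers of one stage. -/

set_option autoImplicit false

namespace Pool.Agent.Q42.EB

namespace NUM

lemma three_mul_le (n : ℕ) (hn : 4 ≤ n) : 3 * n ≤ 2 ^ n := by
  induction n, hn using Nat.le_induction with
  | base => norm_num
  | succ k hk ih => rw [pow_succ]; omega

lemma pow_big (n : ℕ) (hn : 4 ≤ n) : (2 * (2 * n) + 1) * n ≤ 2 ^ (2 * n) := by
  have h := three_mul_le n hn
  have h2 : 2 ^ (2 * n) = 2 ^ n * 2 ^ n := by rw [two_mul, pow_add]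
  rw [h2]
  nlinarith

lemma sq_lt (x : ℝ) (h0 : 0 < x) (h1 : x ≤ 1 / 32) : (1 + x) * (1 + x) < 1 + 8 * x := by nlinarith

lemma aux9 (x P : ℝ) (h0 : 0 < x) (h1 : x ≤ 1 / 32) (hP : 0 < P) :
    (1 + x) * (P * (1 + x)) < P * (1 + 8 * x) := by
  have h := mul_lt_mul_of_pos_left (sq_lt x h0 h1) hP
  calc (1 + x) * (P * (1 + x)) = P * ((1 + x) * (1 + x)) := by ring
    _ < P * (1 + 8 * x) := h

/-- the elementary estimates -/
lemma est (b n p P : ℝ) (hb : 0 < b) (hb7 : b < 7 / 10) (hn : 32 ≤ n) (hp : 2 ≤ p)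
    (hP : (2 * p + 1) * n ≤ P) :
    ∃ u ω : ℝ, 0 < u ∧ b * (1 + 8 / n) / n = (P + 2 * p + 1) * u ∧
      ω = u / (2 * (1 + (p + P / 2) * u)) ∧ u ≤ 8 * b / n ^ 2 ∧ b * (1 + 8 / n) / n < 1 / 2 ∧
      0 < ω ∧ ω < 1 ∧ b < P * n * (2 * ω) := by
  have hn0 : 0 < n := by linarith
  have hPn : 5 * n ≤ P := by nlinarith
  have hP0 : 0 < P := by nlinarith
  have hS : 0 < P + 2 * p + 1 := by nlinarith
  obtain ⟨δ, hδ⟩ : ∃ δ : ℝ, δ = b * (1 + 8 / n) / n := ⟨_, rfl⟩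
  have h8 : 8 / n ≤ 1 / 4 := by
    rw [div_le_div_iff₀ hn0 (by norm_num)]; linarith
  have h80 : 0 < 8 / n := by positivity
  have hδ0 : 0 < δ := by rw [hδ]; positivity
  have hδn : δ * n = b * (1 + 8 / n) := by rw [hδ]; field_simp
  have hδn1 : δ * n < 1 := by
    rw [hδn]
    nlinarith
  have hδ1 : δ < 1 / 32 := by nlinarith
  obtain ⟨u, hu⟩ : ∃ u : ℝ, u = δ / (P + 2 * p + 1) := ⟨_, rfl⟩
  have hu0 : 0 < u := by rw [hu]; positivity
  have hSu : (P + 2 * p + 1) * u = δ := by rw [hu]; field_simp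
  obtain ⟨A, hA⟩ : ∃ A : ℝ, A = (p + P / 2) * u := ⟨_, rfl⟩
  have hA0 : 0 < A := by rw [hA]; positivity
  have hAδ : 2 * A ≤ δ := by rw [← hSu, hA]; nlinarith
  have hAn : 2 * A * n < 1 := by nlinarith
  have hu1 : u < 1 := by nlinarith
  obtain ⟨ω, hω⟩ : ∃ ω : ℝ, ω = u / (2 * (1 + A)) := ⟨_, rfl⟩
  have hω0 : 0 < ω := by rw [hω]; positivity
  have h1A : 0 < 2 * (1 + A) := by linarith
  have hωu : ω * (2 * (1 + A)) = u := by rw [hω]; field_simp
  refine ⟨u, ω, hu0, ?_, ?_, ?_, ?_, hω0, ?_, ?_⟩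
  · rw [hSu, hδ]
  · rw [hω, hA]
  · rw [le_div_iff₀ (by positivity)]
    have h2 : u * n ^ 2 * (P + 2 * p + 1) = δ * n * n := by rw [← hSu]; ring
    have h3 : δ * n * n = b * (n + 8) := by rw [hδn]; field_simp
    have h4 : b * (n + 8) ≤ 8 * b * (P + 2 * p + 1) := by nlinarith
    have h5 : u * n ^ 2 * (P + 2 * p + 1) ≤ 8 * b * (P + 2 * p + 1) := by rw [h2, h3]; exact h4
    exact le_of_mul_le_mul_right h5 hS
  · rw [← hδ]; linarith
  · nlinarith
  · -- b < P n 2 ω = P n u / (1 + A)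
    have h1 : P * n * (2 * ω) * (1 + A) = P * n * u := by rw [← hωu]; ring
    have h2 : b * (1 + A) * (P + 2 * p + 1) < P * n * u * (P + 2 * p + 1) := by
      have h3 : P * n * u * (P + 2 * p + 1) = P * (δ * n) := by rw [← hSu]; ring
      rw [h3, hδn]
      have h4 : (1 + A) * (P + 2 * p + 1) < P * (1 + 8 / n) := by
        have h5 : (2 * p + 1) ≤ P / n := by rw [le_div_iff₀ hn0]; exact hP
        have h6 : (P + 2 * p + 1) ≤ P * (1 + 1 / n) := by
          have : P * (1 + 1 / n) = P + P / n := by field_simp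
          rw [this]; linarith
        have h7 : A ≤ 1 / n := by
          rw [le_div_iff₀ hn0]; nlinarith
        have h8' : (1 + A) * (P + 2 * p + 1) ≤ (1 + 1 / n) * (P * (1 + 1 / n)) := by
          apply mul_le_mul (by linarith) h6 hS.le
          positivity
        have h9 : (1 + 1 / n) * (P * (1 + 1 / n)) < P * (1 + 8 / n) := by
          have hx0 : 0 < 1 / n := by positivity
          have hx1 : 1 / n ≤ 1 / 32 := by
            rw [div_le_div_iff₀ hn0 (by norm_num)]; linarith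
          have h88 : 8 / n = 8 * (1 / n) := by ring
          rw [h88]
          exact aux9 _ _ hx0 hx1 hP0
        linarith
      calc b * (1 + A) * (P + 2 * p + 1) = b * ((1 + A) * (P + 2 * p + 1)) := by ring
        _ < b * (P * (1 + 8 / n)) := mul_lt_mul_of_pos_left h4 hb
        _ = P * (b * (1 + 8 / n)) := by ring
    have h3 : b * (1 + A) < P * n * u := lt_of_mul_lt_mul_right h2 hS.le
    rw [← h1] at h3
    exact lt_of_mul_lt_mul_right h3 (by linarith)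

/-- the last estimate -/
lemma fin (b ω T m c : ℝ) (hb : 0 < b) (hω0 : 0 < ω) (hω1 : ω < 1) (hT1 : 1 ≤ T) (hm : 32 ≤ m)
    (hc : c = m * (2 * ω)) (hcb : 0 < c - b) (hTc : 3 * b / (c - b) ≤ T) :
    (1 - ω / T) / (1 + ω / T) ≤ 1 - b * (1 + 8 / (T * m)) / (T * m) := by
  have hT0 : 0 < T := by linarith
  have hm0 : 0 < m := by linarith
  have hw0 : 0 < ω / T := by positivity
  have hTm : 0 < T * m := by positivity
  have e1 : 8 / (T * m) ≤ 1 / T := by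
    rw [div_le_div_iff₀ (by positivity) hT0]
    calc 8 * T ≤ m * T := mul_le_mul_of_nonneg_right (by linarith) hT0.le
      _ = 1 * (T * m) := by ring
  have e2 : ω / T ≤ 1 / T := div_le_div_of_nonneg_right hω1.le hT0.le
  have e3 : 0 < 8 / (T * m) := by positivity
  have e4 : 1 / T ≤ 1 := by rw [div_le_one hT0]; exact hT1
  have e5 : 0 < 1 / T := by positivity
  have e6 : (1 + 8 / (T * m)) * (1 + ω / T) ≤ 1 + 3 * (1 / T) := by
    calc (1 + 8 / (T * m)) * (1 + ω / T) ≤ (1 + 1 / T) * (1 + 1 / T) := by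
          apply mul_le_mul <;> linarith
      _ = 1 + 2 * (1 / T) + (1 / T) * (1 / T) := by ring
      _ ≤ 1 + 2 * (1 / T) + (1 / T) * 1 := by
          have := mul_le_mul_of_nonneg_left e4 e5.le
          linarith
      _ = 1 + 3 * (1 / T) := by ring
  have e7 : b * (3 * (1 / T)) ≤ c - b := by
    rw [div_le_iff₀ hcb] at hTc
    have e8 : b * (3 * (1 / T)) = 3 * b / T := by ring
    rw [e8, div_le_iff₀ hT0]
    linarith
  have hkey : b * (1 + 8 / (T * m)) * (1 + ω / T) ≤ c := by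
    calc b * (1 + 8 / (T * m)) * (1 + ω / T) = b * ((1 + 8 / (T * m)) * (1 + ω / T)) := by ring
      _ ≤ b * (1 + 3 * (1 / T)) := mul_le_mul_of_nonneg_left e6 hb.le
      _ ≤ c := by linarith
  have h1w : 0 < 1 + ω / T := by linarith
  rw [div_le_iff₀ h1w]
  have h9 : b * (1 + 8 / (T * m)) / (T * m) * (1 + ω / T) ≤ 2 * (ω / T) := by
    have e9 : b * (1 + 8 / (T * m)) / (T * m) * (1 + ω / T) =
        (b * (1 + 8 / (T * m)) * (1 + ω / T)) / (T * m) := by ring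
    rw [e9, div_le_iff₀ hTm]
    have e10 : 2 * (ω / T) * (T * m) = c := by rw [hc]; field_simp
    rw [e10]
    exact hkey
  have e11 : (1 - b * (1 + 8 / (T * m)) / (T * m)) * (1 + ω / T) =
      1 + ω / T - b * (1 + 8 / (T * m)) / (T * m) * (1 + ω / T) := by ring
  rw [e11]
  linarith

end NUM

/-- **The numbers of one stage.** -/
theorem t_NUM : S_NUM := by
  intro b n hb hb2 hn
  have hlog : Real.log 2 < 7 / 10 := by have := Real.log_two_lt_d9; linarith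
  have hn' : (32 : ℝ) ≤ n := by exact_mod_cast hn
  have hn0 : (0 : ℝ) < n := by linarith
  obtain ⟨p, hp⟩ : ∃ p : ℕ, p = 2 * n := ⟨_, rfl⟩
  have hP0 : (2 * p + 1) * n ≤ 2 ^ p := by rw [hp]; exact NUM.pow_big n (by omega)
  have hP : (2 * (p : ℝ) + 1) * n ≤ (2 : ℝ) ^ p := by exact_mod_cast hP0
  have hp2 : 2 ≤ p := by omega
  have hp2' : (2 : ℝ) ≤ p := by exact_mod_cast hp2
  have hhalf : (2 : ℝ) ^ (p - 1) = 2 ^ p / 2 := by
    obtain ⟨k, hk⟩ : ∃ k, p = k + 1 := ⟨p - 1, by omega⟩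
    rw [hk, Nat.add_sub_cancel, pow_succ]; ring
  obtain ⟨u, ω, hu, h1, h2, h3, h4, h5, h6, h7⟩ :=
    NUM.est b n p (2 ^ p) hb (by linarith) hn' hp2' hP
  refine ⟨p, hp2, u, ω, hu, h1, by rw [hhalf]; exact h2, h3, h4, h5, h6, ?_⟩
  intro D N hD
  obtain ⟨c, hc⟩ : ∃ c : ℝ, c = (2 : ℝ) ^ p * n * (2 * ω) := ⟨_, rfl⟩
  rw [← hc] at h7
  have hcb : 0 < c - b := by linarith
  have h2D : 0 < 2 - D := by linarith
  obtain ⟨Q, hQ⟩ := exists_nat_ge (max (N : ℝ) (max (2 * b / (2 - D)) (3 * b / (c - b))))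
  have hQN : (N : ℝ) ≤ Q := le_trans (le_max_left _ _) hQ
  have hQD : 2 * b / (2 - D) ≤ Q := le_trans (le_trans (le_max_left _ _) (le_max_right _ _)) hQ
  have hQc : 3 * b / (c - b) ≤ Q := le_trans (le_trans (le_max_right _ _) (le_max_right _ _)) hQ
  have hQ2 : Q < 2 ^ Q := Nat.lt_two_pow_self
  have hQ2' : (Q : ℝ) ≤ 2 ^ Q := by exact_mod_cast hQ2.le
  have hpn : 32 ≤ 2 ^ p * n := le_trans hn (Nat.le_mul_of_pos_left n (by positivity))
  have hge : 2 ^ Q ≤ 2 ^ Q * (2 ^ p * n) := Nat.le_mul_of_pos_right _ (by omega)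
  have hT0 : (0 : ℝ) < 2 ^ Q := by positivity
  have hT1 : (1 : ℝ) ≤ 2 ^ Q := one_le_pow₀ (by norm_num)
  have hcast : (((2 ^ Q * (2 ^ p * n) : ℕ)) : ℝ) = (2 : ℝ) ^ Q * (2 ^ p * n) := by push_cast; ring
  have hpn' : (32 : ℝ) ≤ 2 ^ p * n := by exact_mod_cast hpn
  have hn'0 : (0 : ℝ) < (2 : ℝ) ^ Q * (2 ^ p * n) := by positivity
  refine ⟨Q, ?_, ?_, ?_, ?_⟩
  · have h8 : N ≤ Q := by exact_mod_cast hQN
    omega
  · calc 32 ≤ 2 ^ p * n := hpn
      _ ≤ 2 ^ Q * (2 ^ p * n) := Nat.le_mul_of_pos_left _ (by positivity)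
  · rw [hcast]
    have h8 : 2 * b / ((2 : ℝ) ^ Q * (2 ^ p * n)) ≤ 2 - D := by
      rw [div_le_iff₀ hn'0]
      rw [div_le_iff₀ h2D] at hQD
      have h9 : (2 : ℝ) ^ Q * 1 ≤ (2 : ℝ) ^ Q * (2 ^ p * n) :=
        mul_le_mul_of_nonneg_left (by linarith) hT0.le
      have h10 : (Q : ℝ) ≤ (2 : ℝ) ^ Q * (2 ^ p * n) := by linarith
      calc 2 * b ≤ (Q : ℝ) * (2 - D) := hQD
        _ ≤ ((2 : ℝ) ^ Q * (2 ^ p * n)) * (2 - D) := mul_le_mul_of_nonneg_right h10 h2D.le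
        _ = (2 - D) * ((2 : ℝ) ^ Q * (2 ^ p * n)) := by ring
    linarith
  · unfold gap
    rw [hcast]
    exact NUM.fin b ω (2 ^ Q) (2 ^ p * n) c hb h5 h6 hT1 hpn' hc hcb (le_trans hQc hQ2')

end Pool.Agent.Q42.EB
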