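import Pool.Agent.Q42.EB.Stm2

/-!
# PAT (helper178): the pattern of depth `p`
-/

set_option autoImplicit false

namespace Pool.Agent.Q42.EB

namespace PAT

open Multiset

/-- the unit `2 ^ (p - g)` of generation `g` -/
noncomputable def E (p g : ℕ) : ℝ := 2 ^ (p - g)

theorem E_pos (p g : ℕ) : 0 < E p g := by
  unfold E
  positivity

theorem E_succ {p g : ℕ} (h : g < p) : E p g = 2 * E p (g + 1) := by
  unfold E
  have h1 : p - g = (p - (g + 1)) + 1 := by omega
  rw [h1, pow_succ]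
  ring

theorem E_mul {p g : ℕ} (h1 : 1 ≤ g) (h : g ≤ p) : (2 : ℝ) ^ (g - 1) * E p g = 2 ^ (p - 1) := by
  unfold E
  rw [← pow_add]
  congr 1
  omega

/-- the nodes `F` (`i = 0`) and `L i` -/
noncomputable def lf (p g i : ℕ) : ℝ :=
  if i = 0 then (g : ℝ) / 2 else (p : ℝ) + ((i : ℝ) + 1 / 2) * E p g

/-- the nodes `S` (`i = 0`) and `R i` -/
noncomputable def rt (p g i : ℕ) : ℝ :=
  if i = 0 then ((g : ℝ) - 2) / 2
  else -(p : ℝ) + ((g : ℝ) - 3 - (Nat.log 2 i : ℝ)) - ((i : ℝ) + 1 / 2) * E p g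

theorem lf0 (p g : ℕ) : lf p g 0 = (g : ℝ) / 2 := if_pos rfl

theorem rt0 (p g : ℕ) : rt p g 0 = ((g : ℝ) - 2) / 2 := if_pos rfl

theorem lfs {p g i : ℕ} (h : i ≠ 0) : lf p g i = (p : ℝ) + ((i : ℝ) + 1 / 2) * E p g := if_neg h

theorem rts {p g i : ℕ} (h : i ≠ 0) : rt p g i =
    -(p : ℝ) + ((g : ℝ) - 3 - (Nat.log 2 i : ℝ)) - ((i : ℝ) + 1 / 2) * E p g := if_neg h

/-- the position of the lower child -/
noncomputable def zeta (p g : ℕ) (τ : ℝ) : ℝ :=
  if τ = (g : ℝ) / 2 then τ - 1 / 2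
  else if τ = ((g : ℝ) - 2) / 2 then -(p : ℝ) + g - 2 - 3 / 4 * E p g
  else τ - E p g / 4

theorem log1 {i : ℕ} (hi : i ≠ 0) : Nat.log 2 (2 * i) = Nat.log 2 i + 1 := by
  rw [mul_comm]
  exact Nat.log_mul_base (by norm_num) hi

theorem log2 {i : ℕ} (hi : i ≠ 0) : Nat.log 2 (2 * i + 1) = Nat.log 2 i + 1 := by
  rw [Nat.log_of_one_lt_of_le (by norm_num) (by omega)]
  congr 2
  omega

theorem z_lf0 (p g : ℕ) : zeta p g (lf p g 0) = (g : ℝ) / 2 - 1 / 2 := by
  rw [lf0, zeta, if_pos rfl]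

theorem z_rt0 (p g : ℕ) : zeta p g (rt p g 0) = -(p : ℝ) + g - 2 - 3 / 4 * E p g := by
  rw [rt0, zeta, if_neg (by intro h; linarith), if_pos rfl]

theorem lf_gt {p g i : ℕ} (hi : i ≠ 0) (hg : g ≤ p) : (g : ℝ) / 2 < lf p g i - E p g / 4 := by
  rw [lfs hi]
  have h1 := E_pos p g
  have h2 : (1 : ℝ) ≤ i := by exact_mod_cast Nat.one_le_iff_ne_zero.2 hi
  have h3 : (g : ℝ) ≤ p := by exact_mod_cast hg
  have h4 : (0 : ℝ) ≤ g := Nat.cast_nonneg g
  nlinarith

theorem rt_lt {p g i : ℕ} (hi : i ≠ 0) (hg : g ≤ p) :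
    rt p g i ≤ -(p : ℝ) + g - 3 - 3 / 2 * E p g := by
  rw [rts hi]
  have h1 := E_pos p g
  have h2 : (1 : ℝ) ≤ i := by exact_mod_cast Nat.one_le_iff_ne_zero.2 hi
  have h4 : (0 : ℝ) ≤ Nat.log 2 i := Nat.cast_nonneg _
  nlinarith

theorem z_lf {p g i : ℕ} (hi : i ≠ 0) (hg : g ≤ p) :
    zeta p g (lf p g i) = lf p g i - E p g / 4 := by
  have h1 := lf_gt hi hg
  have h2 := E_pos p g
  rw [zeta, if_neg (by intro h; linarith), if_neg (by intro h; linarith)]

theorem z_rt {p g i : ℕ} (hi : i ≠ 0) (hg : g ≤ p) :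
    zeta p g (rt p g i) = rt p g i - E p g / 4 := by
  have h1 := rt_lt hi hg
  have h2 := E_pos p g
  have h3 : (g : ℝ) ≤ p := by exact_mod_cast hg
  have h4 : (0 : ℝ) ≤ g := Nat.cast_nonneg g
  rw [zeta, if_neg (by intro h; linarith), if_neg (by intro h; linarith)]

theorem lf_mono {p g : ℕ} (hg : g ≤ p) : StrictMono (lf p g) := by
  refine strictMono_nat_of_lt_succ fun i => ?_
  have h2 := E_pos p g
  by_cases hi : i = 0
  · subst hi
    have h1 := lf_gt (p := p) (i := 0 + 1) (by omega) hg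
    rw [lf0]
    linarith
  · rw [lfs hi, lfs (Nat.succ_ne_zero i)]
    push_cast
    nlinarith

theorem rt_anti {p g : ℕ} (hg : g ≤ p) : StrictAnti (rt p g) := by
  refine strictAnti_nat_of_succ_lt fun i => ?_
  have h2 := E_pos p g
  have h3 : (g : ℝ) ≤ p := by exact_mod_cast hg
  have h4 : (0 : ℝ) ≤ g := Nat.cast_nonneg g
  by_cases hi : i = 0
  · subst hi
    have h1 := rt_lt (p := p) (i := 0 + 1) (by omega) hg
    rw [rt0]
    linarith
  · rw [rts hi, rts (Nat.succ_ne_zero i)]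
    have h5 : (Nat.log 2 i : ℝ) ≤ Nat.log 2 (i + 1) := by
      exact_mod_cast Nat.log_mono_right (Nat.le_succ i)
    push_cast
    nlinarith

theorem rt_le {p g : ℕ} (hg : g ≤ p) (i : ℕ) : rt p g i ≤ ((g : ℝ) - 2) / 2 := by
  rw [← rt0 p g]
  exact (rt_anti hg).antitone (Nat.zero_le i)

theorem lf_ge {p g : ℕ} (hg : g ≤ p) (i : ℕ) : (g : ℝ) / 2 ≤ lf p g i := by
  rw [← lf0 p g]
  exact (lf_mono hg).monotone (Nat.zero_le i)

theorem rt_lt_lf {p g : ℕ} (hg : g ≤ p) (i j : ℕ) : rt p g i < lf p g j := by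
  have h1 := rt_le hg i
  have h2 := lf_ge hg j
  linarith

/-- the multiset of the nodes -/
noncomputable def M (p : ℕ) : ℕ → Multiset ℝ
  | 0 => {0}
  | g + 1 => (Multiset.range (2 ^ g)).map (lf p (g + 1)) + (Multiset.range (2 ^ g)).map (rt p (g + 1))

theorem M_nodup {p : ℕ} : ∀ g, g ≤ p → (M p g).Nodup
  | 0, _ => Multiset.nodup_singleton 0
  | g + 1, hg => by
    rw [M, Multiset.nodup_add]
    refine ⟨(Multiset.nodup_range _).map (lf_mono hg).injective,
      (Multiset.nodup_range _).map (rt_anti hg).injective, ?_⟩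
    rw [Multiset.disjoint_left]
    intro a h1 h2
    rw [Multiset.mem_map] at h1 h2
    obtain ⟨i, -, rfl⟩ := h1
    obtain ⟨j, -, h3⟩ := h2
    have := rt_lt_lf hg j i
    linarith

theorem M_card (p : ℕ) : ∀ g, Multiset.card (M p g) = 2 ^ g
  | 0 => rfl
  | g + 1 => by
    rw [M, Multiset.card_add, Multiset.card_map, Multiset.card_map, Multiset.card_range, pow_succ]
    ring

/-- the set of the nodes -/
noncomputable def T (p g : ℕ) : Finset ℝ := (M p g).toFinset

theorem T_val {p g : ℕ} (hg : g ≤ p) : (T p g).val = M p g := by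
  rw [T, Multiset.toFinset_val, (M_nodup g hg).dedup]

theorem mem_T {p g : ℕ} {τ : ℝ} (h : τ ∈ T p (g + 1)) :
    ∃ i, i < 2 ^ g ∧ (τ = lf p (g + 1) i ∨ τ = rt p (g + 1) i) := by
  rw [T, Multiset.mem_toFinset, M, Multiset.mem_add, Multiset.mem_map, Multiset.mem_map] at h
  rcases h with ⟨i, hi, h⟩ | ⟨i, hi, h⟩
  · exact ⟨i, Multiset.mem_range.1 hi, Or.inl h.symm⟩
  · exact ⟨i, Multiset.mem_range.1 hi, Or.inr h.symm⟩

theorem split_even (φ : ℕ → ℝ) (h : ℕ) : (Multiset.range (2 * h)).map φ =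
    (Multiset.range h).map (fun i => φ (2 * i)) + (Multiset.range h).map (fun i => φ (2 * i + 1)) := by
  induction h with
  | zero => rfl
  | succ h ih =>
    rw [show 2 * (h + 1) = 2 * h + 1 + 1 by ring, Multiset.range_succ, Multiset.range_succ,
      Multiset.map_cons, Multiset.map_cons, ih, Multiset.range_succ, Multiset.map_cons,
      Multiset.map_cons, ← Multiset.singleton_add, ← Multiset.singleton_add,
      ← Multiset.singleton_add, ← Multiset.singleton_add]
    abel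

theorem front (φ : ℕ → ℝ) (k : ℕ) : (Multiset.range (k + 1)).map φ =
    {φ 0} + (Multiset.range k).map (fun i => φ (i + 1)) := by
  have h : Multiset.range (k + 1) = 0 ::ₘ (Multiset.range k).map Nat.succ := by
    unfold Multiset.range
    rw [List.range_succ_eq_map, Multiset.map_coe, Multiset.cons_coe]
  rw [h, Multiset.map_cons, Multiset.map_map, Multiset.singleton_add]
  rfl

theorem M_one (p : ℕ) : M p 1 = {1 / 2} + {-1 / 2} := by
  have h1 : lf p 1 0 = 1 / 2 := by
    rw [lf0]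
    norm_num
  have h2 : rt p 1 0 = -1 / 2 := by
    rw [rt0]
    norm_num
  have h3 : Multiset.range (2 ^ 0) = {0} := rfl
  change (Multiset.range (2 ^ 0)).map (lf p (0 + 1)) + (Multiset.range (2 ^ 0)).map (rt p (0 + 1)) = _
  rw [h3, Multiset.map_singleton, Multiset.map_singleton]
  simp only [zero_add, h1, h2]

theorem M_step {p g : ℕ} (hg : g < p) : M p (g + 1) =
    (M p g).map (zeta p g) + (M p g).map (fun τ => 2 * τ - zeta p g τ) := by
  have hE := E_succ hg
  rcases g with _ | g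
  · have h1 : zeta p 0 0 = -1 / 2 := by
      have h2 := z_lf0 p 0
      rw [lf0] at h2
      simp only [Nat.cast_zero, zero_div] at h2
      rw [h2]
      norm_num
    rw [show M p (0 + 1) = {1 / 2} + {-1 / 2} from M_one p]
    change _ = Multiset.map (zeta p 0) {0} + Multiset.map (fun τ => 2 * τ - zeta p 0 τ) {0}
    rw [Multiset.map_singleton, Multiset.map_singleton, h1, add_comm]
    norm_num
  · obtain ⟨k, hk⟩ : ∃ k, 2 ^ g = k + 1 := ⟨2 ^ g - 1, by have := Nat.one_le_two_pow (n := g); omega⟩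
    have e1 : ∀ i : ℕ, zeta p (g + 1) (lf p (g + 1) (i + 1)) = lf p (g + 1 + 1) (2 * (i + 1)) := by
      intro i
      rw [z_lf (Nat.succ_ne_zero i) hg.le, lfs (Nat.succ_ne_zero i), lfs (by omega), hE]
      push_cast
      ring
    have e2 : ∀ i : ℕ, 2 * lf p (g + 1) (i + 1) - zeta p (g + 1) (lf p (g + 1) (i + 1)) =
        lf p (g + 1 + 1) (2 * (i + 1) + 1) := by
      intro i
      rw [z_lf (Nat.succ_ne_zero i) hg.le, lfs (Nat.succ_ne_zero i), lfs (by omega), hE]
      push_cast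
      ring
    have e3 : ∀ i : ℕ, zeta p (g + 1) (rt p (g + 1) (i + 1)) =
        rt p (g + 1 + 1) (2 * (i + 1) + 1) := by
      intro i
      rw [z_rt (Nat.succ_ne_zero i) hg.le, rts (Nat.succ_ne_zero i), rts (by omega), hE,
        log2 (Nat.succ_ne_zero i)]
      push_cast
      ring
    have e4 : ∀ i : ℕ, 2 * rt p (g + 1) (i + 1) - zeta p (g + 1) (rt p (g + 1) (i + 1)) =
        rt p (g + 1 + 1) (2 * (i + 1)) := by
      intro i
      rw [z_rt (Nat.succ_ne_zero i) hg.le, rts (Nat.succ_ne_zero i), rts (by omega), hE,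
        log1 (Nat.succ_ne_zero i)]
      push_cast
      ring
    have f1 : zeta p (g + 1) (lf p (g + 1) 0) = rt p (g + 1 + 1) 0 := by
      rw [z_lf0, rt0]
      push_cast
      ring
    have f2 : 2 * lf p (g + 1) 0 - zeta p (g + 1) (lf p (g + 1) 0) = lf p (g + 1 + 1) 0 := by
      rw [z_lf0, lf0, lf0]
      push_cast
      ring
    have f3 : zeta p (g + 1) (rt p (g + 1) 0) = rt p (g + 1 + 1) (2 * 0 + 1) := by
      rw [z_rt0, rts (by omega), hE]
      simp only [mul_zero, zero_add, Nat.log_one_right]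
      push_cast
      ring
    have f4 : 2 * rt p (g + 1) 0 - zeta p (g + 1) (rt p (g + 1) 0) =
        lf p (g + 1 + 1) (2 * 0 + 1) := by
      rw [z_rt0, rt0, lfs (by omega), hE]
      push_cast
      ring
    have hM1 : M p (g + 1) = (Multiset.range (k + 1)).map (lf p (g + 1)) +
        (Multiset.range (k + 1)).map (rt p (g + 1)) := by rw [M, hk]
    have hM2 : M p (g + 1 + 1) = (Multiset.range (2 * (k + 1))).map (lf p (g + 1 + 1)) +
        (Multiset.range (2 * (k + 1))).map (rt p (g + 1 + 1)) := by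
      rw [M, pow_succ, hk, mul_comm]
    rw [hM1, hM2, split_even, split_even, Multiset.map_add, Multiset.map_add,
      Multiset.map_map, Multiset.map_map, Multiset.map_map, Multiset.map_map]
    rw [front _ k, front _ k, front _ k, front _ k, front _ k, front _ k, front _ k, front _ k]
    simp only [e1] at e2
    simp only [e3] at e4
    rw [f1] at f2
    rw [f3] at f4
    simp only [Function.comp, e1, e2, e3, e4, f1, f2, f3, f4]
    simp only [mul_zero]
    abel

theorem upper {p g i : ℕ} (h1 : 1 ≤ g) (hg : g ≤ p) (hi : i < 2 ^ (g - 1)) :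
    lf p g i ≤ (p : ℝ) + 2 ^ (p - 1) - E p g / 2 := by
  have h2 := E_pos p g
  have h3 := E_mul h1 hg
  have h4 : (i : ℝ) + 1 ≤ 2 ^ (g - 1) := by exact_mod_cast hi
  have h5 : (g : ℝ) ≤ p := by exact_mod_cast hg
  have h6 : (0 : ℝ) ≤ g := Nat.cast_nonneg g
  have h7 : (0 : ℝ) ≤ i := Nat.cast_nonneg i
  by_cases h0 : i = 0
  · subst h0
    rw [lf0]
    nlinarith
  · rw [lfs h0]
    nlinarith

theorem lower {p g i : ℕ} (h1 : 1 ≤ g) (hg : g ≤ p) (hi : i < 2 ^ (g - 1)) :
    -((p : ℝ) + 1 + 2 ^ (p - 1)) + E p g / 2 ≤ rt p g i := by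
  have h2 := E_pos p g
  have h3 := E_mul h1 hg
  have h4 : (i : ℝ) + 1 ≤ 2 ^ (g - 1) := by exact_mod_cast hi
  have h5 : (g : ℝ) ≤ p := by exact_mod_cast hg
  have h6 : (1 : ℝ) ≤ g := by exact_mod_cast h1
  have h7 : (0 : ℝ) ≤ i := Nat.cast_nonneg i
  by_cases h0 : i = 0
  · subst h0
    rw [rt0]
    nlinarith
  · rw [rts h0]
    have h8 : Nat.log 2 i < g - 1 := Nat.log_lt_of_lt_pow h0 hi
    have h9 : (Nat.log 2 i : ℝ) + 2 ≤ g := by exact_mod_cast (show Nat.log 2 i + 2 ≤ g by omega)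
    nlinarith

theorem zeta_lt {p g : ℕ} (hg : g < p) {τ : ℝ} : ∀ _ : τ ∈ T p g, zeta p g τ < τ := by
  intro h
  have h2 := E_pos p g
  have h5 : (g : ℝ) ≤ p := by exact_mod_cast hg.le
  have h6 : (0 : ℝ) ≤ g := Nat.cast_nonneg g
  unfold zeta
  split_ifs with h3 h4
  · linarith
  · rw [h4]
    linarith
  · linarith

theorem gaps {p g : ℕ} (hg : g + 1 < p) {τ τ' : ℝ} (h : τ ∈ T p (g + 1)) (h' : τ' ∈ T p (g + 1))
    (hlt : τ' < τ) : τ' < zeta p (g + 1) τ := by
  have hE := E_pos p (g + 1)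
  obtain ⟨i, -, h1⟩ := mem_T h
  obtain ⟨j, -, h2⟩ := mem_T h'
  have hgp : ((g + 1 : ℕ) : ℝ) ≤ p := by exact_mod_cast hg.le
  have hg0 : (0 : ℝ) ≤ ((g + 1 : ℕ) : ℝ) := Nat.cast_nonneg _
  rcases h1 with rfl | rfl <;> rcases h2 with rfl | rfl
  · have hji : j < i := (lf_mono hg.le).lt_iff_lt.1 hlt
    have hi : i ≠ 0 := by omega
    rw [z_lf hi hg.le]
    by_cases hj : j = 0
    · subst hj
      rw [lf0]
      exact lf_gt hi hg.le
    · rw [lfs hi, lfs hj]
      have h3 : (j : ℝ) + 1 ≤ i := by exact_mod_cast hji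
      nlinarith
  · have h3 := rt_le hg.le j
    by_cases hi : i = 0
    · subst hi
      rw [z_lf0]
      linarith
    · rw [z_lf hi hg.le]
      have h4 := lf_gt hi hg.le
      linarith
  · have h3 := rt_lt_lf hg.le i j
    linarith
  · have hij : i < j := (rt_anti hg.le).lt_iff_gt.1 hlt
    have hj : j ≠ 0 := by omega
    by_cases hi : i = 0
    · subst hi
      rw [z_rt0]
      have h3 := rt_lt hj hg.le
      linarith
    · rw [z_rt hi hg.le, rts hi, rts hj]
      have h3 : (i : ℝ) + 1 ≤ j := by exact_mod_cast hij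
      have h5 : (Nat.log 2 i : ℝ) ≤ Nat.log 2 j := by
        exact_mod_cast Nat.log_mono_right hij.le
      nlinarith

theorem final {g : ℕ} {τ τ' : ℝ} (h : τ ∈ T (g + 1) (g + 1)) (h' : τ' ∈ T (g + 1) (g + 1))
    (hlt : τ' < τ) : τ' + 1 ≤ τ := by
  have hE : E (g + 1) (g + 1) = 1 := by simp [E]
  obtain ⟨i, -, h1⟩ := mem_T h
  obtain ⟨j, -, h2⟩ := mem_T h'
  have hg0 : (1 : ℝ) ≤ ((g + 1 : ℕ) : ℝ) := by exact_mod_cast Nat.le_add_left 1 g
  rcases h1 with rfl | rfl <;> rcases h2 with rfl | rfl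
  · have hji : j < i := (lf_mono le_rfl).lt_iff_lt.1 hlt
    have hi : i ≠ 0 := by omega
    have h3 : (j : ℝ) + 1 ≤ i := by exact_mod_cast hji
    by_cases hj : j = 0
    · subst hj
      rw [lf0, lfs hi, hE]
      simp only [Nat.cast_zero, zero_add] at h3
      linarith
    · rw [lfs hi, lfs hj, hE]
      linarith
  · have h3 := rt_le (le_refl (g + 1)) j
    have h4 := lf_ge (le_refl (g + 1)) i
    linarith
  · have h3 := rt_lt_lf (le_refl (g + 1)) i j
    linarith
  · have hij : i < j := (rt_anti le_rfl).lt_iff_gt.1 hlt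
    have hj : j ≠ 0 := by omega
    by_cases hi : i = 0
    · subst hi
      rw [rt0]
      have h3 := rt_lt hj (le_refl (g + 1))
      rw [hE] at h3
      linarith
    · rw [rts hi, rts hj, hE]
      have h3 : (i : ℝ) + 1 ≤ j := by exact_mod_cast hij
      have h5 : (Nat.log 2 i : ℝ) ≤ Nat.log 2 j := by
        exact_mod_cast Nat.log_mono_right hij.le
      linarith

end PAT

open PAT in
theorem t_PAT : S_PAT := by
  intro p hp
  refine ⟨T p, zeta p, ?_⟩
  constructor
  · rw [T, M]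
    simp
  · ext x
    rw [T, M_one, Multiset.mem_toFinset, Multiset.mem_add, Multiset.mem_singleton,
      Multiset.mem_singleton, Finset.mem_insert, Finset.mem_singleton, or_comm]
  · have h2 := z_lf0 p 0
    rw [lf0] at h2
    simp only [Nat.cast_zero, zero_div] at h2
    rw [h2]
    norm_num
  · intro g hg
    rw [Finset.card_def, T_val hg, M_card]
  · intro g hg
    rw [T_val hg, T_val hg.le, M_step hg]
  · intro g hg τ hτ
    exact zeta_lt hg hτ
  · intro g hg τ hτ
    have h2 : (0 : ℝ) < 2 ^ (p - 1) := by positivity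
    have h3 : (2 : ℝ) ≤ p := by exact_mod_cast hp
    rcases g with _ | g
    · rw [T, M, Multiset.mem_toFinset, Multiset.mem_singleton] at hτ
      subst hτ
      constructor <;> linarith
    · obtain ⟨i, hi, h1⟩ := mem_T hτ
      have hE := E_pos p (g + 1)
      have h4 := upper (i := i) (Nat.le_add_left 1 g) hg (by simpa using hi)
      have h5 := lower (i := i) (Nat.le_add_left 1 g) hg (by simpa using hi)
      have h6 := rt_lt_lf hg i i
      rcases h1 with rfl | rfl <;> constructor <;> linarith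
  · intro g h1 hg τ hτ τ' hτ' hlt
    obtain ⟨g, rfl⟩ : ∃ k, g = k + 1 := ⟨g - 1, by omega⟩
    exact gaps hg hτ hτ' hlt
  · intro τ hτ τ' hτ' hlt
    obtain ⟨g, rfl⟩ : ∃ k, p = k + 1 := ⟨p - 1, by omega⟩
    exact final hτ hτ' hlt
  · intro τ hτ
    obtain ⟨g, rfl⟩ : ∃ k, p = k + 1 := ⟨p - 1, by omega⟩
    have hE : E (g + 1) (g + 1) = 1 := by simp [E]
    obtain ⟨i, hi, h1⟩ := mem_T hτ
    have h4 := upper (i := i) (Nat.le_add_left 1 g) (le_refl (g + 1)) (by simpa using hi)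
    have h5 := lower (i := i) (Nat.le_add_left 1 g) (le_refl (g + 1)) (by simpa using hi)
    have h6 := rt_lt_lf (le_refl (g + 1)) i i
    rw [hE] at h4 h5
    rcases h1 with rfl | rfl <;> constructor <;> linarith

end Pool.Agent.Q42.EB
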