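import Pool.Agent.Q42.EB.Stm2

set_option autoImplicit false

/-! JOB REV of row MP_eb524a_co (helper65). -/

namespace Pool.Agent.Q42.EB

namespace REV

section

variable {ι : Type} (F : Finset ι) (s z : ι → ℝ)

/-- the number of longer intervals -/
noncomputable def rk (i : ι) : ℕ := (F.filter fun j => s i < s j).card

/-- the cut intervals at time `k` -/
noncomputable def C (k : ℕ) : Finset ι := F.filter fun i => rk F s i < k

/-- the uncut intervals at time `k` -/
noncomputable def U (k : ℕ) : Finset ι := F.filter fun i => ¬ rk F s i < k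

/-- the state at time `k` -/
noncomputable def State (k : ℕ) : Multiset ℝ :=
  (U F s k).val.map s + ((C F s k).val.map z + (C F s k).val.map fun i => s i - z i)

variable {F s z}

theorem rk_lt {i : ι} (hi : i ∈ F) : rk F s i < F.card := by
  unfold rk
  refine Finset.card_lt_card ((Finset.ssubset_iff_of_subset (Finset.filter_subset _ _)).2 ⟨i, hi, ?_⟩)
  simp

theorem rk_anti {i j : ι} (hj : j ∈ F) (h : s i < s j) : rk F s j < rk F s i := by
  unfold rk
  refine Finset.card_lt_card ((Finset.ssubset_iff_of_subset ?_).2 ⟨j, ?_, ?_⟩)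
  · intro k hk
    simp only [Finset.mem_filter] at hk ⊢
    exact ⟨hk.1, h.trans hk.2⟩
  · simp only [Finset.mem_filter]
    exact ⟨hj, h⟩
  · simp

theorem rk_lt_of {i j : ι} (hi : i ∈ F) (h : rk F s j < rk F s i)
    (hinj : s i = s j → i = j) : s i < s j := by
  rcases lt_trichotomy (s i) (s j) with h1 | h1 | h1
  · exact h1
  · rw [hinj h1] at h
    exact absurd h (lt_irrefl _)
  · exact absurd (rk_anti hi h1) (not_lt.2 h.le)

theorem rk_surj (hinj : ∀ i ∈ F, ∀ j ∈ F, s i = s j → i = j) {k : ℕ} (hk : k < F.card) :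
    ∃ i ∈ F, rk F s i = k := by
  classical
  have h1 : F.image (rk F s) ⊆ Finset.range F.card := by
    intro m hm
    obtain ⟨i, hi, rfl⟩ := Finset.mem_image.1 hm
    exact Finset.mem_range.2 (rk_lt hi)
  have h2 : (F.image (rk F s)).card = F.card := by
    refine Finset.card_image_of_injOn fun i hi j hj hij => ?_
    refine hinj i hi j hj ?_
    rcases lt_trichotomy (s i) (s j) with h3 | h3 | h3
    · have := rk_anti (F := F) (s := s) hj h3
      have hij' : rk F s i = rk F s j := hij
      omega
    · exact h3
    · have := rk_anti (F := F) (s := s) hi h3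
      have hij' : rk F s i = rk F s j := hij
      omega
  have h3 : F.image (rk F s) = Finset.range F.card :=
    Finset.eq_of_subset_of_card_le h1 (by rw [h2, Finset.card_range])
  have h4 : k ∈ F.image (rk F s) := by rw [h3]; exact Finset.mem_range.2 hk
  exact Finset.mem_image.1 h4

theorem rk_inj (hinj : ∀ i ∈ F, ∀ j ∈ F, s i = s j → i = j) {i j : ι} (hi : i ∈ F) (hj : j ∈ F)
    (h : rk F s i = rk F s j) : i = j := by
  refine hinj i hi j hj ?_
  rcases lt_trichotomy (s i) (s j) with h3 | h3 | h3
  · have := rk_anti (F := F) (s := s) hj h3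
    omega
  · exact h3
  · have := rk_anti (F := F) (s := s) hi h3
    omega

theorem state_zero : State F s z 0 = F.val.map s := by
  have h1 : U F s 0 = F := by
    unfold U
    simp
  have h2 : C F s 0 = ∅ := by
    unfold C
    simp
  unfold State
  rw [h1, h2]
  simp

theorem state_card : State F s z F.card = F.val.map z + F.val.map (fun i => s i - z i) := by
  have h1 : C F s F.card = F := by
    unfold C
    exact Finset.filter_true_of_mem fun i hi => rk_lt hi
  have h2 : U F s F.card = ∅ := by
    unfold U
    exact Finset.filter_false_of_mem fun i hi => not_not.2 (rk_lt hi)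
  unfold State
  rw [h1, h2]
  simp

theorem step (hinj : ∀ i ∈ F, ∀ j ∈ F, s i = s j → i = j)
    (hz : ∀ i ∈ F, 0 < z i ∧ z i ≤ s i / 2) {k : ℕ} (hk : k < F.card) :
    MCut (State F s z k) (State F s z (k + 1)) := by
  classical
  obtain ⟨i, hi, hik⟩ := rk_surj hinj hk
  have hU : U F s k = insert i (U F s (k + 1)) := by
    ext j
    simp only [U, Finset.mem_insert, Finset.mem_filter]
    constructor
    · rintro ⟨hj, h1⟩
      by_cases h2 : rk F s j = k
      · exact Or.inl (rk_inj hinj hj hi (h2.trans hik.symm))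
      · exact Or.inr ⟨hj, by omega⟩
    · rintro (rfl | ⟨hj, h1⟩)
      · exact ⟨hi, by omega⟩
      · exact ⟨hj, by omega⟩
  have hC : C F s (k + 1) = insert i (C F s k) := by
    ext j
    simp only [C, Finset.mem_insert, Finset.mem_filter]
    constructor
    · rintro ⟨hj, h1⟩
      by_cases h2 : rk F s j = k
      · exact Or.inl (rk_inj hinj hj hi (h2.trans hik.symm))
      · exact Or.inr ⟨hj, by omega⟩
    · rintro (rfl | ⟨hj, h1⟩)
      · exact ⟨hi, by omega⟩
      · exact ⟨hj, by omega⟩
  have hiU : i ∉ U F s (k + 1) := by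
    simp only [U, Finset.mem_filter, not_and, not_not]
    intro _
    omega
  have hiC : i ∉ C F s k := by
    simp only [C, Finset.mem_filter, not_and]
    intro _
    omega
  refine ⟨(U F s (k + 1)).val.map s + ((C F s k).val.map z + (C F s k).val.map fun i => s i - z i),
    z i, s i - z i, (hz i hi).1, ?_, ?_, ?_⟩
  · have := hz i hi
    linarith
  · unfold State
    rw [hU, Finset.insert_val_of_notMem hiU, Multiset.map_cons, Multiset.cons_add]
    congr 1
    ring
  · unfold State
    rw [hC, Finset.insert_val_of_notMem hiC, Multiset.map_cons, Multiset.map_cons,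
      Multiset.cons_add, Multiset.add_cons, Multiset.add_cons, Multiset.add_cons]

theorem mem_state {k : ℕ} {x : ℝ} : x ∈ State F s z k ↔ (∃ i ∈ U F s k, s i = x) ∨
    (∃ i ∈ C F s k, z i = x) ∨ ∃ i ∈ C F s k, s i - z i = x := by
  unfold State
  simp only [Multiset.mem_add, Multiset.mem_map, Finset.mem_val]

end

end REV

open REV in
theorem t_REV : S_REV := by
  intro ι F s z D hinj hz ha hc hb
  have hsp : ∀ i ∈ F, 0 < s i := fun i hi => by
    have := hz i hi
    linarith
  have hsz : ∀ i ∈ F, z i ≤ s i - z i := fun i hi => by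
    have := hz i hi
    linarith
  have hD : ∀ i ∈ F, 1 ≤ D := fun i hi => by
    have h1 := hc i hi i hi
    have h2 := hsp i hi
    by_contra h3
    push Not at h3
    nlinarith
  have cM : Multiset.card (F.val.map s) = F.card := by rw [Multiset.card_map]; rfl
  have cM' : Multiset.card (F.val.map z + F.val.map (fun i => s i - z i)) = F.card + F.card := by
    rw [Multiset.card_add, Multiset.card_map, Multiset.card_map]; rfl
  have hCF : ∀ {k : ℕ} {i : ι}, i ∈ C F s k → i ∈ F ∧ rk F s i < k := by
    intro k i h
    exact Finset.mem_filter.1 h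
  have hUF : ∀ {k : ℕ} {i : ι}, i ∈ U F s k → i ∈ F ∧ ¬ rk F s i < k := by
    intro k i h
    exact Finset.mem_filter.1 h
  have hbal : ∀ k : ℕ, Bal D (State F s z k) := by
    intro k
    constructor
    · intro x hx
      rcases mem_state.1 hx with ⟨i, hi, rfl⟩ | ⟨i, hi, rfl⟩ | ⟨i, hi, rfl⟩
      · exact hsp i (hUF hi).1
      · exact (hz i (hCF hi).1).1
      · exact (hz i (hCF hi).1).1.trans_le (hsz i (hCF hi).1)
    · -- comparison with a small part
      have key : ∀ x ∈ State F s z k, ∀ j ∈ C F s k, x ≤ D * z j := by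
        intro x hx j hj
        obtain ⟨hj1, hj2⟩ := hCF hj
        rcases mem_state.1 hx with ⟨i, hi, rfl⟩ | ⟨i, hi, rfl⟩ | ⟨i, hi, rfl⟩
        · obtain ⟨hi1, hi2⟩ := hUF hi
          exact ha j hj1 i hi1 (rk_lt_of hi1 (by omega) (hinj i hi1 j hj1))
        · exact (hsz i (hCF hi).1).trans (hb i (hCF hi).1 j hj1)
        · exact hb i (hCF hi).1 j hj1
      intro x hx y hy
      rcases mem_state.1 hy with ⟨j, hj, rfl⟩ | ⟨j, hj, rfl⟩ | ⟨j, hj, rfl⟩
      · have hj1 := (hUF hj).1
        rcases mem_state.1 hx with ⟨i, hi, rfl⟩ | ⟨i, hi, rfl⟩ | ⟨i, hi, rfl⟩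
        · exact hc i (hUF hi).1 j hj1
        · have h1 := hz i (hCF hi).1
          have h2 := hc i (hCF hi).1 j hj1
          linarith
        · have h1 := hz i (hCF hi).1
          have h2 := hc i (hCF hi).1 j hj1
          linarith
      · exact key x hx j hj
      · refine (key x hx j hj).trans (mul_le_mul_of_nonneg_left (hsz j (hCF hj).1) ?_)
        linarith [hD j (hCF hj).1]
  refine ⟨by rw [cM, cM']; omega, fun t => State F s z (t - F.card), ?_, ?_, ?_, ?_⟩
  · rw [cM]
    change State F s z (F.card - F.card) = _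
    rw [Nat.sub_self]
    exact state_zero
  · rw [cM']
    change State F s z (F.card + F.card - F.card) = _
    rw [Nat.add_sub_cancel]
    exact state_card
  · intro t h1 h2
    rw [cM] at h1
    rw [cM'] at h2
    have e : t + 1 - F.card = (t - F.card) + 1 := by omega
    change MCut (State F s z (t - F.card)) (State F s z (t + 1 - F.card))
    rw [e]
    exact step hinj hz (by omega)
  · intro t _ _
    exact hbal _

end Pool.Agent.Q42.EB
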