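import Pool.Agent.Q42.EB.Stm2

set_option autoImplicit false

/-! JOB REVS of row MP_eb524a_co (helper65). -/

namespace Pool.Agent.Q42.EB

namespace REVS

theorem fin_bound {κ : Type} (F : Finset κ) (a b : κ → ℝ)
    (h : ∀ k ∈ F, 0 < b k ∧ a k < 2 * b k) :
    ∃ D : ℝ, D < 2 ∧ 1 ≤ D ∧ ∀ k ∈ F, a k ≤ D * b k := by
  classical
  induction F using Finset.induction_on with
  | empty => exact ⟨1, by norm_num, le_rfl, by simp⟩
  | insert x F hx ih =>
    obtain ⟨D, hD, hD1, hD2⟩ := ih fun k hk => h k (Finset.mem_insert_of_mem hk)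
    obtain ⟨h1, h2⟩ := h x (Finset.mem_insert_self x F)
    refine ⟨max D (a x / b x), max_lt hD ((div_lt_iff₀ h1).2 h2), le_max_of_le_left hD1, ?_⟩
    intro k hk
    rcases Finset.mem_insert.1 hk with rfl | hk
    · calc a k = a k / b k * b k := by field_simp
        _ ≤ _ := mul_le_mul_of_nonneg_right (le_max_right _ _) h1.le
    · exact (hD2 k hk).trans (mul_le_mul_of_nonneg_right (le_max_left _ _)
        (h k (Finset.mem_insert_of_mem hk)).1.le)

end REVS

theorem t_REVS : S_REVS := by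
  classical
  intro hR ι F s z hinj hz h1 h2 h3
  have hs : ∀ i ∈ F, 0 < s i := fun i hi => by
    have := hz i hi
    linarith
  obtain ⟨D1, a1, b1, c1⟩ := REVS.fin_bound ((F ×ˢ F).filter fun q => s q.2 < s q.1)
    (fun q => s q.2) (fun q => z q.1) (fun q hq => by
      obtain ⟨hq1, hq2⟩ := Finset.mem_filter.1 hq
      obtain ⟨hi, hj⟩ := Finset.mem_product.1 hq1
      exact ⟨(hz _ hi).1, h1 _ hi _ hj hq2⟩)
  obtain ⟨D2, a2, b2, c2⟩ := REVS.fin_bound (F ×ˢ F)
    (fun q => s q.1) (fun q => s q.2) (fun q hq => by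
      obtain ⟨hi, hj⟩ := Finset.mem_product.1 hq
      exact ⟨hs _ hj, h2 _ hi _ hj⟩)
  obtain ⟨D3, a3, b3, c3⟩ := REVS.fin_bound (F ×ˢ F)
    (fun q => s q.1 - z q.1) (fun q => z q.2) (fun q hq => by
      obtain ⟨hi, hj⟩ := Finset.mem_product.1 hq
      exact ⟨(hz _ hj).1, h3 _ hi _ hj⟩)
  refine ⟨max D1 (max D2 D3), max_lt a1 (max_lt a2 a3), le_max_of_le_left b1, ?_⟩
  refine hR ι F s z _ hinj hz ?_ ?_ ?_
  · intro i hi j hj hij
    refine (c1 (i, j) (Finset.mem_filter.2 ⟨Finset.mem_product.2 ⟨hi, hj⟩, hij⟩)).trans ?_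
    exact mul_le_mul_of_nonneg_right (le_max_left _ _) (hz i hi).1.le
  · intro i hi j hj
    refine (c2 (i, j) (Finset.mem_product.2 ⟨hi, hj⟩)).trans ?_
    exact mul_le_mul_of_nonneg_right (le_max_of_le_right (le_max_left _ _)) (hs j hj).le
  · intro i hi j hj
    refine (c3 (i, j) (Finset.mem_product.2 ⟨hi, hj⟩)).trans ?_
    exact mul_le_mul_of_nonneg_right (le_max_of_le_right (le_max_right _ _)) (hz j hj).1.le

end Pool.Agent.Q42.EB
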