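import Pool.Agent.Q42.EB.Stm2

/-! Row MP_eb524a_co, job STAGE (helper214): one stage of the construction. -/

set_option autoImplicit false

namespace Pool.Agent.Q42.EB

open Multiset

namespace STAGE

theorem map_pair (X : Finset ℝ) (f : ℝ × ℝ → ℝ) (c d : ℝ) (hcd : c ≠ d) :
    (X ×ˢ ({c, d} : Finset ℝ)).val.map f =
      X.val.map (fun x => f (x, c)) + X.val.map (fun x => f (x, d)) := by
  have h1 : ({c, d} : Finset ℝ).val = c ::ₘ {d} := by
    rw [Finset.insert_val_of_notMem (by simpa using hcd)]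
    rfl
  have h2 : (X ×ˢ ({c, d} : Finset ℝ)).val = X.val.bind fun a => (c ::ₘ {d}).map (Prod.mk a) := by
    rw [Finset.product_val, h1]
    rfl
  rw [h2, Multiset.map_bind]
  have h3 : (fun a : ℝ => ((c ::ₘ ({d} : Multiset ℝ)).map (Prod.mk a)).map f) =
      fun a => f (a, c) ::ₘ {f (a, d)} := by
    funext a
    simp
  rw [h3, Multiset.bind_cons, Multiset.bind_singleton]

theorem St_one (X : Finset ℝ) (u : ℝ) : St X u ({-1 / 2, 1 / 2} : Finset ℝ) 1 =
    X.val.map (fun x => x * (1 - u / 2) / 2) +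
      X.val.map (fun x => x - x * (1 - u / 2) / 2) := by
  unfold St
  rw [map_pair X _ (-1 / 2) (1 / 2) (by norm_num)]
  congr 1
  · refine Multiset.map_congr rfl fun x _ => ?_
    show x * (1 + u * (-1 / 2)) / 2 ^ 1 = _
    ring
  · refine Multiset.map_congr rfl fun x _ => ?_
    show x * (1 + u * (1 / 2)) / 2 ^ 1 = _
    ring

theorem card_St_one (X : Finset ℝ) (u : ℝ) :
    card (St X u ({-1 / 2, 1 / 2} : Finset ℝ) 1) = 2 * X.card := by
  rw [St_one, Multiset.card_add, Multiset.card_map, Multiset.card_map]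
  change X.card + X.card = _
  ring

/-- the first generation -/
theorem first (hREV : S_REV) (b : ℝ) (hb : 0 < b) (X : Finset ℝ) (n : ℕ) (hn : 32 ≤ n)
    (u : ℝ) (hu0 : 0 < u) (hu : u ≤ 8 * b / (n : ℝ) ^ 2) (hδ : gap b n < 1 / 2)
    (hpos : ∀ x ∈ X, 0 < x) (hgap : ∀ x ∈ X, ∀ y ∈ X, y < x → y ≤ (1 - gap b n) * x)
    (hrat : ∀ x ∈ X, ∀ y ∈ X, x ≤ 2 * (1 - gap b n) * y) :
    Path (2 - 2 * b / (n : ℝ)) X.val (St X u ({-1 / 2, 1 / 2} : Finset ℝ) 1) := by
  have hn0 : (0 : ℝ) < n := by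
    have : 0 < n := by omega
    exact_mod_cast this
  have hg : gap b n = b / n + 8 * b / (n : ℝ) ^ 2 := by
    unfold gap
    field_simp
  set β : ℝ := b / n with hβ
  have hβ0 : 0 < β := div_pos hb hn0
  have hD : 2 - 2 * b / (n : ℝ) = 2 * (1 - β) := by rw [hβ]; ring
  have hgβ : β + u ≤ gap b n := by rw [hg]; linarith
  have hβ1 : β < 1 / 2 := by linarith
  have key1 : 1 - gap b n ≤ (1 - β) * (1 - u / 2) := by nlinarith [mul_pos hβ0 hu0]
  have key2 : (1 - gap b n) * (1 + u / 2) ≤ (1 - β) * (1 - u / 2) := by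
    nlinarith [mul_pos hβ0 hu0, mul_nonneg (le_of_lt hu0) (by linarith : (0 : ℝ) ≤ gap b n)]
  have h := hREV ℝ X id (fun x => x * (1 - u / 2) / 2) (2 * (1 - β)) (fun i _ j _ h => h)
    ?_ ?_ ?_ ?_
  · rw [hD, St_one]
    rw [Multiset.map_id] at h
    exact h
  · intro x hx
    have := hpos x hx
    constructor
    · have : 0 < x * (1 - u / 2) := mul_pos this (by linarith)
      linarith
    · show x * (1 - u / 2) / 2 ≤ x / 2
      nlinarith
  · intro x hx y hy hyx
    show y ≤ 2 * (1 - β) * (x * (1 - u / 2) / 2)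
    have h1 := hgap x hx y hy hyx
    have h2 := mul_le_mul_of_nonneg_right key1 (hpos x hx).le
    calc y ≤ (1 - gap b n) * x := h1
      _ ≤ (1 - β) * (1 - u / 2) * x := h2
      _ = 2 * (1 - β) * (x * (1 - u / 2) / 2) := by ring
  · intro x hx y hy
    show x ≤ 2 * (1 - β) * y
    have h1 := hrat x hx y hy
    have h2 : (1 - gap b n) * y ≤ (1 - β) * y :=
      mul_le_mul_of_nonneg_right (by linarith) (hpos y hy).le
    linarith
  · intro x hx y hy
    show x - x * (1 - u / 2) / 2 ≤ 2 * (1 - β) * (y * (1 - u / 2) / 2)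
    have h1 := hrat x hx y hy
    have h2 := mul_le_mul_of_nonneg_right key2 (hpos y hy).le
    have h3 : x * (1 + u / 2) ≤ 2 * (1 - gap b n) * y * (1 + u / 2) :=
      mul_le_mul_of_nonneg_right h1 (by linarith)
    nlinarith [h2, h3]

end STAGE

theorem t_STAGE : S_STAGE := by
  intro hREV hREVS hTRANS hPAT hCHAIN hBIS hNUM b M hb hblog hG N
  obtain ⟨h32, hnd, hpos, hgap, hrat⟩ := hG
  obtain ⟨p, hp, u, ω, hu0, hδ, hω, hu, hδ2, hω0, hω1, hQ⟩ := hNUM b (card M) hb hblog h32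
  obtain ⟨T, ζ, hT⟩ := hPAT p hp
  set X : Finset ℝ := ⟨M, hnd⟩ with hX
  have hXM : X.val = M := rfl
  have hXc : X.card = card M := rfl
  have hposX : ∀ x ∈ X, 0 < x := fun x hx => hpos x hx
  have hgapX : ∀ x ∈ X, ∀ y ∈ X, y < x → y ≤ (1 - gap b (card M)) * x :=
    fun x hx y hy => hgap x hx y hy
  have hratX : ∀ x ∈ X, ∀ y ∈ X, x ≤ 2 * (1 - gap b (card M)) * y :=
    fun x hx y hy => hrat x hx y hy
  have hXne : X.Nonempty := by
    rw [← Finset.card_pos, hXc]
    omega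
  have hp2 : (0 : ℝ) < 2 ^ (p - 1) := by positivity
  have hpp : (2 : ℝ) ^ p = 2 * 2 ^ (p - 1) := by
    rw [← pow_succ', Nat.sub_add_cancel (by omega)]
  have hp0 : (0 : ℝ) ≤ p := Nat.cast_nonneg p
  set δ : ℝ := gap b (card M) with hδdef
  set A : ℝ := ((p : ℝ) + 2 ^ (p - 1)) * u with hA
  set B : ℝ := ((p : ℝ) + 1 + 2 ^ (p - 1)) * u with hB
  have hAB : A + B = δ := by rw [hδ, hA, hB, hpp]; ring
  have hA0 : 0 < A := by
    rw [hA]
    exact mul_pos (by linarith) hu0
  have huB : u ≤ B := by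
    rw [hB]
    nlinarith [mul_nonneg hp0 hu0.le, mul_pos hp2 hu0]
  have hδ0 : 0 < δ := by linarith
  have hu1 : u < 1 := by linarith
  -- generation 0 → 1
  have P1 : Path (2 - 2 * b / (card M : ℝ)) M (St X u (T 1) 1) := by
    rw [hT.one]
    exact STAGE.first hREV b hb X (card M) h32 u hu0 hu hδ2 hposX hgapX hratX
  have hc1 : card (St X u (T 1) 1) = 2 * card M := by
    rw [hT.one, STAGE.card_St_one, hXc]
  -- generations 1 → p
  obtain ⟨D, hD2, hD1, P2⟩ := hCHAIN hREV hREVS hTRANS p T ζ hp hT X u δ hXne hu0 hδ (by linarith)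
    hposX hgapX hratX p (by omega) le_rfl
  -- the bisections
  obtain ⟨Q, hQN, hQ32, hQD, hQr⟩ := hQ D N hD2
  have key : (1 - δ) * (1 + A) ≤ 1 - B := by nlinarith [mul_pos hδ0 hA0]
  have hωA : ω * (1 + A) = u / 2 := by
    rw [hω]
    have : (1 + A) ≠ 0 := by linarith
    field_simp
  have h2p : (0 : ℝ) < 2 ^ p := by positivity
  -- ranges
  have hlow : ∀ τ ∈ T p, -B + u / 2 ≤ u * τ := by
    intro τ hτ
    have h := (hT.finalRange τ hτ).1
    have := mul_le_mul_of_nonneg_left h hu0.le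
    rw [hB]
    nlinarith
  have hupp : ∀ τ ∈ T p, u * τ ≤ A - u / 2 := by
    intro τ hτ
    have h := (hT.finalRange τ hτ).2
    have := mul_le_mul_of_nonneg_left h hu0.le
    rw [hA]
    nlinarith
  have hFne : (X ×ˢ T p).Nonempty := by
    refine Finset.Nonempty.product hXne ?_
    rw [← Finset.card_pos, hT.cardT p le_rfl]
    positivity
  obtain ⟨Z, hZc, hZpos, hZgap, hZrat, P3⟩ := hBIS hREV hTRANS (ℝ × ℝ) (X ×ˢ T p)
    (fun q => q.1 * (1 + u * q.2) / 2 ^ p) (fun q => q.1 * (u / 2) / 2 ^ p) ω hFne hω0 hω1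
    (by
      rintro ⟨x, τ⟩ hq
      rw [Finset.mem_product] at hq
      obtain ⟨hx, hτ⟩ := hq
      have hx0 := hposX x hx
      have h1 := hlow τ hτ
      have h2 := hupp τ hτ
      refine ⟨?_, ?_, ?_⟩
      · show 0 < x * (u / 2) / 2 ^ p
        positivity
      · show x * (u / 2) / 2 ^ p < x * (1 + u * τ) / 2 ^ p
        apply div_lt_div_of_pos_right _ h2p
        apply mul_lt_mul_of_pos_left _ hx0
        linarith
      · show ω * (x * (1 + u * τ) / 2 ^ p + x * (u / 2) / 2 ^ p) ≤ x * (u / 2) / 2 ^ p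
        have e : ω * (x * (1 + u * τ) / 2 ^ p + x * (u / 2) / 2 ^ p) =
          x * (ω * (1 + u * τ + u / 2)) / 2 ^ p := by ring
        rw [e]
        apply div_le_div_of_nonneg_right _ h2p.le
        apply mul_le_mul_of_nonneg_left _ hx0.le
        calc ω * (1 + u * τ + u / 2) ≤ ω * (1 + A) :=
              mul_le_mul_of_nonneg_left (by linarith) hω0.le
          _ = u / 2 := hωA)
    (by
      have hdiff : ∀ x ∈ X, ∀ y ∈ X, ∀ τ ∈ T p, ∀ τ' ∈ T p, y < x →
          y * (1 + u * τ') / 2 ^ p + y * (u / 2) / 2 ^ p ≤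
            x * (1 + u * τ) / 2 ^ p - x * (u / 2) / 2 ^ p := by
        intro x hx y hy τ hτ τ' hτ' hyx
        have hx0 := hposX x hx
        have hy0 := hposX y hy
        rw [← add_div, ← sub_div]
        apply div_le_div_of_nonneg_right _ h2p.le
        have h1 := hupp τ' hτ'
        have h2 := hlow τ hτ
        calc y * (1 + u * τ') + y * (u / 2) = y * (1 + u * τ' + u / 2) := by ring
          _ ≤ y * (1 + A) := mul_le_mul_of_nonneg_left (by linarith) hy0.le
          _ ≤ (1 - δ) * x * (1 + A) :=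
              mul_le_mul_of_nonneg_right (hgapX x hx y hy hyx) (by linarith)
          _ = x * ((1 - δ) * (1 + A)) := by ring
          _ ≤ x * (1 - B) := mul_le_mul_of_nonneg_left key hx0.le
          _ ≤ x * (1 + u * τ - u / 2) := mul_le_mul_of_nonneg_left (by linarith) hx0.le
          _ = x * (1 + u * τ) - x * (u / 2) := by ring
      have hsame : ∀ x ∈ X, ∀ τ ∈ T p, ∀ τ' ∈ T p, τ' < τ →
          x * (1 + u * τ') / 2 ^ p + x * (u / 2) / 2 ^ p ≤
            x * (1 + u * τ) / 2 ^ p - x * (u / 2) / 2 ^ p := by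
        intro x hx τ hτ τ' hτ' h
        have hx0 := hposX x hx
        rw [← add_div, ← sub_div]
        apply div_le_div_of_nonneg_right _ h2p.le
        have h1 := mul_le_mul_of_nonneg_left (hT.final τ hτ τ' hτ' h) hu0.le
        calc x * (1 + u * τ') + x * (u / 2) = x * (1 + u * τ' + u / 2) := by ring
          _ ≤ x * (1 + u * τ - u / 2) := mul_le_mul_of_nonneg_left (by linarith) hx0.le
          _ = x * (1 + u * τ) - x * (u / 2) := by ring
      rintro ⟨x, τ⟩ hq ⟨y, τ'⟩ hq' hne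
      rw [Finset.mem_product] at hq hq'
      obtain ⟨hx, hτ⟩ := hq
      obtain ⟨hy, hτ'⟩ := hq'
      rcases lt_trichotomy x y with h | h | h
      · exact Or.inl (hdiff y hy x hx τ' hτ' τ hτ h)
      · change x = y at h
        subst h
        rcases lt_trichotomy τ τ' with h' | h' | h'
        · exact Or.inl (hsame x hx τ' hτ' τ hτ h')
        · exact absurd (by rw [h']) hne
        · exact Or.inr (hsame x hx τ hτ τ' hτ' h')
      · exact Or.inr (hdiff x hx y hy τ hτ τ' hτ' h))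
    (by
      rintro ⟨x, τ⟩ hq ⟨y, τ'⟩ hq'
      rw [Finset.mem_product] at hq hq'
      obtain ⟨hx, hτ⟩ := hq
      obtain ⟨hy, hτ'⟩ := hq'
      have hx0 := hposX x hx
      have hy0 := hposX y hy
      have h1 := hupp τ hτ
      have h2 := hlow τ' hτ'
      show x * (1 + u * τ) / 2 ^ p + x * (u / 2) / 2 ^ p ≤
        2 * (y * (1 + u * τ') / 2 ^ p - y * (u / 2) / 2 ^ p)
      have e : 2 * (y * (1 + u * τ') / 2 ^ p - y * (u / 2) / 2 ^ p) =
          (2 * (y * (1 + u * τ') - y * (u / 2))) / 2 ^ p := by ring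
      rw [← add_div, e]
      apply div_le_div_of_nonneg_right _ h2p.le
      calc x * (1 + u * τ) + x * (u / 2) = x * (1 + u * τ + u / 2) := by ring
        _ ≤ x * (1 + A) := mul_le_mul_of_nonneg_left (by linarith) hx0.le
        _ ≤ 2 * (1 - δ) * y * (1 + A) :=
            mul_le_mul_of_nonneg_right (hratX x hx y hy) (by linarith)
        _ = 2 * y * ((1 - δ) * (1 + A)) := by ring
        _ ≤ 2 * y * (1 - B) := mul_le_mul_of_nonneg_left key (by linarith)
        _ ≤ 2 * y * (1 + u * τ' - u / 2) := mul_le_mul_of_nonneg_left (by linarith) (by linarith)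
        _ = 2 * (y * (1 + u * τ') - y * (u / 2)) := by ring)
    Q
  have hZcard : Z.card = 2 ^ Q * (2 ^ p * card M) := by
    rw [hZc, Finset.card_product, hT.cardT p le_rfl, hXc, mul_comm (card M)]
  have hZM : card Z.val = 2 ^ Q * (2 ^ p * card M) := hZcard
  have hn' : (0 : ℝ) < ((2 ^ Q * (2 ^ p * card M) : ℕ) : ℝ) := by
    have : 0 < 2 ^ Q * (2 ^ p * card M) := by omega
    exact_mod_cast this
  refine ⟨St X u (T 1) 1, Z.val, hc1, P1, ?_, ?_, ?_⟩
  · rw [hZM]
    refine hTRANS.2 _ _ _ _ (hTRANS.1 _ _ _ _ hQD P2) (hTRANS.1 _ _ _ _ ?_ P3)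
    have hg : b / ((2 ^ Q * (2 ^ p * card M) : ℕ) : ℝ) ≤ gap b (2 ^ Q * (2 ^ p * card M)) := by
      unfold gap
      apply div_le_div_of_nonneg_right _ hn'.le
      have : 0 ≤ 8 / ((2 ^ Q * (2 ^ p * card M) : ℕ) : ℝ) := by positivity
      nlinarith
    have : 2 * b / ((2 ^ Q * (2 ^ p * card M) : ℕ) : ℝ) =
      2 * (b / ((2 ^ Q * (2 ^ p * card M) : ℕ) : ℝ)) := by ring
    rw [this]
    linarith
  · refine ⟨?_, Z.nodup, fun v hv => hZpos v hv, ?_, ?_⟩
    · rw [hZM]
      exact hQ32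
    · intro v hv v' hv' h
      rw [hZM]
      exact le_trans (hZgap v hv v' hv' h) (mul_le_mul_of_nonneg_right hQr (hZpos v hv).le)
    · intro v hv v' hv'
      rw [hZM]
      refine le_trans (hZrat v hv v' hv') (mul_le_mul_of_nonneg_right ?_ (hZpos v' hv').le)
      linarith
  · rw [hZM]
    exact hQN

end Pool.Agent.Q42.EB
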