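import Mathlib

/-! Row MP_eb524a_co: the exact value `disc(n) = 2 ^ (1 - 1 / ⌈n/2⌉)`. Definitions and statements. -/

set_option autoImplicit false

namespace Pool.Agent.Q42.EB

/-- A partition of `[0,1]` into finitely many intervals of positive length, given by the list of the
lengths of its intervals from left to right. -/
def IsPartition (l : List ℝ) : Prop := (∀ x ∈ l, 0 < x) ∧ l.sum = 1

/-- `l'` arises from `l` by cutting one interval, of length `y + z`, into two intervals of the lengths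
`y` and `z`. -/
def Cut (l l' : List ℝ) : Prop :=
  ∃ (l₁ l₂ : List ℝ) (y z : ℝ), l = l₁ ++ (y + z) :: l₂ ∧ l' = l₁ ++ y :: z :: l₂

/-- A strategy `S 1, …, S n` of length `n` (the other values of `S` are irrelevant). -/
structure IsStrategyUpTo (n : ℕ) (S : ℕ → List ℝ) : Prop where
  part : ∀ i, 1 ≤ i → i ≤ n → IsPartition (S i)
  len : ∀ i, 1 ≤ i → i ≤ n → (S i).length = i
  cut : ∀ i, 1 ≤ i → i < n → Cut (S i) (S (i + 1))

/-- LOW. Let S be a strategy of length n whose partitions all have ratios at most D (x ≤ D * y for any two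
lengths x, y of the same S t, 1 ≤ t ≤ n), and m ≥ 1 with 2 m - 1 ≤ n. Then D ≥ 2 ^ (1 - 1/m).
Proof: let a t be the maximum of S t (for 1 ≤ t ≤ n; the list is nonempty). (i) For t + 1 ≤ n: the cut
replaces X = y + z ∈ S t by y, z ∈ S (t+1); both are positive, so min y z ≤ X / 2 ≤ a t / 2, and
a (t+1) ≤ D * min y z ≤ (D/2) * a t. (ii) So a (2m-1) ≤ (D/2)^(m-1) * a m. (iii) From time m to time
2m-1 there are only m - 1 cuts, each destroys one interval, so some element x of S m is still an element of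
S (2m-1): prove by induction on j ≤ m-1 that there is a sublist/multiset of S m of card ≥ m - j contained in
S (m+j) (as multisets: `(S m : Multiset ℝ)` minus at most j elements is ≤ S (m+j); simplest: there is a multiset
R with R ≤ S m, R ≤ S (m+j), card R ≥ m - j; at a cut erase y+z from R). Then a (2m-1) ≥ x ≥ a m / D.
(iv) D ≥ 1 > 0 (take x = y). So 1/D ≤ (D/2)^(m-1), i.e. D^m ≥ 2^(m-1), and D ≥ 2^((m-1)/m) = 2^(1-1/m)
(Real.rpow_le_rpow_left_iff, Real.rpow_natCast, Real.le_rpow_inv_iff_of_pos or pow_le_pow_left contrapositive). -/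
def S_LOW : Prop := ∀ (n m : ℕ) (S : ℕ → List ℝ) (D : ℝ), 1 ≤ m → 2 * m ≤ n + 1 → IsStrategyUpTo n S →
  (∀ t, 1 ≤ t → t ≤ n → ∀ x ∈ S t, ∀ y ∈ S t, x ≤ D * y) → (2 : ℝ) ^ (1 - 1 / (m : ℝ)) ≤ D

/-- SEQ. For every m ≥ 1 there is a : ℕ → ℝ with a k > 0 for 1 ≤ k, a 1 = 1, a k = a (2k) + a (2k+1) for
1 ≤ k < 2m, a antitone on 1 ≤ k < 4m, and a t ≤ 2^(1-1/m) * a (2t-1) for 1 ≤ t ≤ 2m.
Proof: put q = 2^(-1/m) (so q^m = 1/2, 1/2 ≤ q < 1) and define b k = q^(k/2) / 2 (k/2 the floor) for k ≥ 2m,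
b k = q^k for m ≤ k < 2m, and b k = b (2k) + b (2k+1) for 1 ≤ k < m (well-founded recursion on 2m - k, or
recursion with fuel; b 0 := 1); finally a k = b k / b 1. For m ≤ k < 2m: b (2k) = b (2k+1) = q^k / 2, so the
sum is b k. Claim: b (k+1) ≤ q * b k for 1 ≤ k < 2m-1 (downward induction on k): clear for k ≥ m (equality);
k = m-1: b (m-1) = q^(2m-2) + q^(2m-1) = q^m (q^(m-2) ...) -- in general q^(2m-2)+q^(2m-1) = (q^m)^2 (q^(-2)+q^(-1))
≥ (1/4) * 2 * q^(-1) = q^m / q = b m / q; k < m-1: b (k+1) = b (2k+2) + b (2k+3) ≤ q^2 (b (2k) + b (2k+1)) ≤ q b k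
(the indices 2k, ..., 2k+3 are ≤ 2m-1). Also b (2m) = q^m/2 = 1/4 ≤ q^(2m-1) = q^(-1)/4, and b is antitone on
[2m, 4m). So b is antitone on [1,4m). Ratio: for t < m: b t = b (2t) + b (2t+1) ≤ (q + q^2) b (2t-1) ≤
2 q b (2t-1) (t ≥ 1; all indices ≤ 2m-1), t = m: b m = 1/2 = 2 q * q^(2m-1); m < t < 2m (and t = 2m):
b (2t-1) = q^(t-1) / 2 and b t = q^t (b (2m) = q^m / 2 = 1/4 = q^(2m)): b t = 2 q b (2t-1). Here
2 q = 2^(1-1/m). t = 1 = m: fine too (m = 1: q = 1/2). -/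
def S_SEQ : Prop := ∀ m : ℕ, 1 ≤ m → ∃ a : ℕ → ℝ, (∀ k, 1 ≤ k → 0 < a k) ∧ a 1 = 1 ∧
  (∀ k, 1 ≤ k → k < 2 * m → a k = a (2 * k) + a (2 * k + 1)) ∧
  (∀ k l, 1 ≤ k → k ≤ l → l < 4 * m → a l ≤ a k) ∧
  ∀ t, 1 ≤ t → t ≤ 2 * m → a t ≤ (2 : ℝ) ^ (1 - 1 / (m : ℝ)) * a (2 * t - 1)

/-- LIST. If a k > 0 for k ≥ 1, a 1 = 1 and a k = a (2k) + a (2k+1) for 1 ≤ k < N, then there is a strategy S
of length N such that the elements of S t (1 ≤ t ≤ N) are exactly a t, a (t+1), ..., a (2t-1) (as a multiset).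
Proof: if the multiset of l is {a t, ..., a (2t-1)}, write l = l₁ ++ a t :: l₂ (List.append_of_mem /
List.mem_iff_append) with a t = a (2t) + a (2t+1), and put l' = l₁ ++ a (2t) :: a (2t+1) :: l₂; its multiset is
{a (t+1), ..., a (2t+1)}. So by recursion (Nat.rec on a subtype, or define S (t+1) with Classical.choose of the
next list, using an `if` for t ≥ N) there is S with S 1 = [1]. Sum and positivity follow from the multiset
(or the sum is preserved by Cut). -/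
def S_LIST : Prop := ∀ (N : ℕ) (a : ℕ → ℝ), (∀ k, 1 ≤ k → 0 < a k) → a 1 = 1 →
  (∀ k, 1 ≤ k → k < N → a k = a (2 * k) + a (2 * k + 1)) →
  ∃ S : ℕ → List ℝ, IsStrategyUpTo N S ∧
    ∀ t, 1 ≤ t → t ≤ N → (S t : Multiset ℝ) = (Multiset.range t).map (fun i => a (t + i))

end Pool.Agent.Q42.EB
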