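import Pool.Agent.Q42.EB.Stm

/-! Row MP_eb524a_co, second part: for every `b < log 2` there is an infinite strategy with
`disc_{2n}(S) ≤ 2 - 2 b / n` for infinitely many `n`. Statements. -/

set_option autoImplicit false

namespace Pool.Agent.Q42.EB

open Multiset

/-- `M'` arises from the multiset `M` of lengths by cutting one interval. -/
def MCut (M M' : Multiset ℝ) : Prop :=
  ∃ (R : Multiset ℝ) (y z : ℝ), 0 < y ∧ 0 < z ∧ M = (y + z) ::ₘ R ∧ M' = y ::ₘ z ::ₘ R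

/-- All lengths are positive and all quotients are at most `D`. -/
def Bal (D : ℝ) (M : Multiset ℝ) : Prop := (∀ x ∈ M, 0 < x) ∧ ∀ x ∈ M, ∀ y ∈ M, x ≤ D * y

/-- A sequence of cuts from `M` to `M'` with all quotients at most `D`; the time is the number of
intervals. -/
def Path (D : ℝ) (M M' : Multiset ℝ) : Prop :=
  card M ≤ card M' ∧ ∃ f : ℕ → Multiset ℝ, f (card M) = M ∧ f (card M') = M' ∧
    (∀ t, card M ≤ t → t < card M' → MCut (f t) (f (t + 1))) ∧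
    ∀ t, card M ≤ t → t ≤ card M' → Bal D (f t)

/-- the multiplicative gap required at time `n` -/
noncomputable def gap (b : ℝ) (n : ℕ) : ℝ := b * (1 + 8 / (n : ℝ)) / (n : ℝ)

/-- good states: at least 32 different lengths, any two of them with quotient at most `1 - gap` (smaller
by larger) and at least `1 / (2 (1 - gap))`. -/
def Good (b : ℝ) (M : Multiset ℝ) : Prop :=
  32 ≤ card M ∧ M.Nodup ∧ (∀ x ∈ M, 0 < x) ∧
  (∀ x ∈ M, ∀ y ∈ M, y < x → y ≤ (1 - gap b (card M)) * x) ∧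
  ∀ x ∈ M, ∀ y ∈ M, x ≤ 2 * (1 - gap b (card M)) * y

/-- The properties of the pattern of depth `p`: `T g` is the finite set of positions at generation `g`,
`ζ g τ` the position of the lower child of `τ ∈ T g` (the upper child is `2 τ - ζ g τ`). -/
structure Pattern (p : ℕ) (T : ℕ → Finset ℝ) (ζ : ℕ → ℝ → ℝ) : Prop where
  zero : T 0 = {0}
  one : T 1 = {-1 / 2, 1 / 2}
  zeta0 : ζ 0 0 = -1 / 2
  cardT : ∀ g, g ≤ p → (T g).card = 2 ^ g
  step : ∀ g, g < p → (T (g + 1)).val = (T g).val.map (ζ g) + (T g).val.map (fun τ => 2 * τ - ζ g τ)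
  lt : ∀ g, g < p → ∀ τ ∈ T g, ζ g τ < τ
  range : ∀ g, g ≤ p → ∀ τ ∈ T g, -((p : ℝ) + 1 + 2 ^ (p - 1)) < τ ∧ τ < (p : ℝ) + 2 ^ (p - 1)
  gaps : ∀ g, 1 ≤ g → g < p → ∀ τ ∈ T g, ∀ τ' ∈ T g, τ' < τ → τ' < ζ g τ
  final : ∀ τ ∈ T p, ∀ τ' ∈ T p, τ' < τ → τ' + 1 ≤ τ
  finalRange : ∀ τ ∈ T p, -((p : ℝ) + 1 + 2 ^ (p - 1)) + 1 / 2 ≤ τ ∧ τ ≤ (p : ℝ) + 2 ^ (p - 1) - 1 / 2

/-- the state at generation `g`: the lengths `x (1 + u τ) / 2 ^ g`, `x ∈ X`, `τ ∈ T` -/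
noncomputable def St (X : Finset ℝ) (u : ℝ) (T : Finset ℝ) (g : ℕ) : Multiset ℝ :=
  (X ×ˢ T).val.map (fun q : ℝ × ℝ => q.1 * (1 + u * q.2) / 2 ^ g)

/-- REV. One revolution: cut all intervals of a state once, the longest first. Let s i (i ∈ F) be the lengths
(s injective on F), z i ≤ s i / 2 the smaller and s i - z i the larger part of s i. If (a) s j ≤ D z i whenever
s j < s i, (c) s i ≤ D s j for all i, j and (b) s i - z i ≤ D z j for all i, j, then cutting the s i in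
decreasing order is a Path D. Proof: induction on the number of cut intervals (or on F with the maximum
removed, generalised: C ⊆ F the already cut ones, all of them longer than the uncut ones, the state is
(F \ C).map s + C.map z + C.map (s - z)). Bal D of such a state: uncut/uncut (c); s j ≤ D z i for j uncut, i
cut (a); s i - z i ≤ s i ≤ D s j (c); cut/cut (b), and z i ≤ s i - z i, which gives the remaining pairs.
(Finset.induction_on_max_value or strong induction on card of F \ C.) -/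
def S_REV : Prop := ∀ (ι : Type) (F : Finset ι) (s z : ι → ℝ) (D : ℝ),
  (∀ i ∈ F, ∀ j ∈ F, s i = s j → i = j) → (∀ i ∈ F, 0 < z i ∧ z i ≤ s i / 2) →
  (∀ i ∈ F, ∀ j ∈ F, s j < s i → s j ≤ D * z i) → (∀ i ∈ F, ∀ j ∈ F, s i ≤ D * s j) →
  (∀ i ∈ F, ∀ j ∈ F, s i - z i ≤ D * z j) →
  Path D (F.val.map s) (F.val.map z + F.val.map (fun i => s i - z i))

/-- REVS. Strict version of REV: with strict inequalities and D = 2 there is a D < 2 that works (F is finite: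
take D the maximum of 1 and the finitely many quotients s j / z i (s j < s i), s i / s j, (s i - z i) / z j,
all of them < 2; then apply S_REV). -/
def S_REVS : Prop := S_REV → ∀ (ι : Type) (F : Finset ι) (s z : ι → ℝ),
  (∀ i ∈ F, ∀ j ∈ F, s i = s j → i = j) → (∀ i ∈ F, 0 < z i ∧ z i ≤ s i / 2) →
  (∀ i ∈ F, ∀ j ∈ F, s j < s i → s j < 2 * z i) → (∀ i ∈ F, ∀ j ∈ F, s i < 2 * s j) →
  (∀ i ∈ F, ∀ j ∈ F, s i - z i < 2 * z j) →
  ∃ D : ℝ, D < 2 ∧ 1 ≤ D ∧ Path D (F.val.map s) (F.val.map z + F.val.map (fun i => s i - z i))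

/-- TRANS. Paths can be weakened and concatenated. (Bal is monotone in D since the lengths are positive; glue the
two functions f at time card M'.) -/
def S_TRANS : Prop := (∀ (D D' : ℝ) (M M' : Multiset ℝ), D ≤ D' → Path D M M' → Path D' M M') ∧
  ∀ (D : ℝ) (M M' M'' : Multiset ℝ), Path D M M' → Path D M' M'' → Path D M M''

/-- PAT. The pattern exists for p ≥ 2. Construction: for 1 ≤ g ≤ p let T g consist of
F_g = g/2, S_g = (g-2)/2 and, for 1 ≤ i < 2^(g-1), L_{g,i} = p + (i + 1/2) 2^(p-g) and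
R_{g,i} = -p + (g - 3 - log2 i) - (i + 1/2) 2^(p-g) (log2 i = Nat.log 2 i, 2^(p-g) a natural number since g ≤ p;
write everything in ℝ), T 0 = {0} (and T g arbitrary for g > p). Children (lower one first):
F_g -> S_{g+1}, F_{g+1}; S_g -> R_{g+1,1}, L_{g+1,1}; L_{g,i} -> L_{g+1,2i}, L_{g+1,2i+1};
R_{g,i} -> R_{g+1,2i+1}, R_{g+1,2i}; the sum of the children is twice the parent in all cases
(Nat.log 2 (2i) = Nat.log 2 (2i+1) = Nat.log 2 i + 1). In decreasing order the elements of T g are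
L_{g,2^(g-1)-1}, ..., L_{g,1}, F_g, S_g, R_{g,1}, ..., R_{g,2^(g-1)-1}, and the lower child of each is larger
than the next element: L_{g+1,2i} = p + (i+1/4) 2^(p-g) > L_{g,i-1}, and > F_g for i = 1; S_{g+1} = (g-1)/2 > S_g;
R_{g+1,1} = -p+g-2-(3/4)2^(p-g) > R_{g,1} = -p+g-3-(3/2)2^(p-g);
R_{g+1,2i+1} = -p+(g-3-log2 i)-(i+3/4)2^(p-g) > R_{g,i+1}. ζ g is defined on the values (all values of T g are
different; e.g. index the nodes by an inductive type or by k ∈ range (2^g) and define ζ with the inverse of the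
indexing, Function.invFunOn). At g = p: all gaps are ≥ 1 (L and R gaps ≥ 1, L_{p,1} - F_p = p/2 + 3/2,
F_p - S_p = 1, S_p - R_{p,1} = p/2 - 1 + 9/2). -/
def S_PAT : Prop := ∀ p : ℕ, 2 ≤ p → ∃ (T : ℕ → Finset ℝ) (ζ : ℕ → ℝ → ℝ), Pattern p T ζ

/-- CHAIN. The generations 1, ..., p. Let δ = (2^p + 2p + 1) u, 0 < u, δ < 1. Put A = (p + 2^(p-1)) u,
B = (p + 1 + 2^(p-1)) u, A + B = δ. For y < x in X: y (1 + A) ≤ x (1 - B) (since (1-δ)(1+A) ≤ 1 - A - B + A ... =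
1 + A - δ - δ A ≤ 1 - B), and for all x, y ∈ X: x (1 + A) ≤ 2 y (1 - B). So the clusters
{x (1 + u τ) : τ ∈ T g} ⊂ (x (1-B), x (1+A)) are disjoint. For each 1 ≤ g < p apply S_REVS with
F = X ×ˢ T g, s (x,τ) = x (1 + uτ)/2^g, z (x,τ) = x (1 + u ζ g τ)/2^(g+1), s - z = x (1 + u (2τ - ζ g τ))/2^(g+1):
in the same cluster use Pattern.gaps, in different clusters the disjointness (the children also lie in the
cluster intervals by Pattern.range at g+1 and Pattern.step); the new state is St X u (T (g+1)) (g+1) by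
Pattern.step. Then concatenate (S_TRANS, D the maximum). Induction on g. -/
def S_CHAIN : Prop := S_REV → S_REVS → S_TRANS → ∀ (p : ℕ) (T : ℕ → Finset ℝ) (ζ : ℕ → ℝ → ℝ), 2 ≤ p →
  Pattern p T ζ → ∀ (X : Finset ℝ) (u δ : ℝ), X.Nonempty → 0 < u → δ = (2 ^ p + 2 * (p : ℝ) + 1) * u → δ < 1 →
  (∀ x ∈ X, 0 < x) → (∀ x ∈ X, ∀ y ∈ X, y < x → y ≤ (1 - δ) * x) → (∀ x ∈ X, ∀ y ∈ X, x ≤ 2 * (1 - δ) * y) →
  ∀ g, 1 ≤ g → g ≤ p → ∃ D : ℝ, D < 2 ∧ 1 ≤ D ∧ Path D (St X u (T 1) 1) (St X u (T g) g)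

/-- BIS. Bisecting cells. Let the cells [y i - e i, y i + e i] (i ∈ F) be disjoint, with
e i ≥ ω (y i + e i), and y i + e i ≤ 2 (y j - e j) for all i, j. Then for every Q the cells can be bisected Q
times. Proof: induction on Q; normalised positions at generation q: cells of half-width e i / 2^q, centres
v; one generation is a revolution (S_REV) with z = (v - e_v/2)/2 (e_v the half-width of the cell of v, everything
divided by 2^q): with ω_q = ω/2^q: for v' < v: v' (1 + ω_q) ≤ v' + e_{v'} ≤ v - e_v, and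
(v - e_v)/(v - e_v/2) ≤ (1-ω_q)/(1-ω_q/2), and (1-ω_q)/((1-ω_q/2)(1+ω_q)) ≤ (1-ω_Q)/(1+ω_Q) for q + 1 ≤ Q
(with w = ω_Q ≤ ω_q/2 : reduces to 1 - w - 2 w^2 ≤ 1 - 3 w^2 + 2 w^3 for ω_q = 2w and monotonicity in ω_q);
(c) v ≤ 2 v' (1-ω_q)/(1+ω_q); (b) the same at q+1. Best done as a one-step lemma: from (F, y, e, ω) to
(F × Bool, (y ± e/2)/2, e/4, ω/2) with the same hypotheses, then induction on Q for all ι, F, y, e, ω. -/
def S_BIS : Prop := S_REV → S_TRANS → ∀ (ι : Type) (F : Finset ι) (y e : ι → ℝ) (ω : ℝ), F.Nonempty → 0 < ω → ω < 1 →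
  (∀ i ∈ F, 0 < e i ∧ e i < y i ∧ ω * (y i + e i) ≤ e i) →
  (∀ i ∈ F, ∀ j ∈ F, i ≠ j → y i + e i ≤ y j - e j ∨ y j + e j ≤ y i - e i) →
  (∀ i ∈ F, ∀ j ∈ F, y i + e i ≤ 2 * (y j - e j)) →
  ∀ Q : ℕ, ∃ Z : Finset ℝ, Z.card = 2 ^ Q * F.card ∧ (∀ v ∈ Z, 0 < v) ∧
    (∀ v ∈ Z, ∀ v' ∈ Z, v' < v → v' ≤ (1 - ω / 2 ^ Q) / (1 + ω / 2 ^ Q) * v) ∧
    (∀ v ∈ Z, ∀ v' ∈ Z, v ≤ 2 * ((1 - ω / 2 ^ Q) / (1 + ω / 2 ^ Q)) * v') ∧
    Path (2 * ((1 - ω / 2 ^ Q) / (1 + ω / 2 ^ Q))) (F.val.map y) Z.val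

/-- NUM. The numbers of one stage. For 0 < b < log 2 and n ≥ 32 there are p ≥ 2 such that with
δ = gap b n = b (1 + 8/n)/n, u = δ/(2^p + 2p + 1), A = (p + 2^(p-1)) u, ω = u/(2 (1 + A)): u ≤ 8 b / n^2, δ < 1/2,
ω < 1 and: for every D < 2 and N there is Q with n' = 2^Q * (2^p * n) ≥ N, 32 ≤ n', D ≤ 2 - 2 b / n', and
(1 - ω/2^Q)/(1 + ω/2^Q) ≤ 1 - gap b n'. Proof: δ ≤ (0.7)(1.25)/n < 1/n; 2^p n · 2ω = 2^p u n/(1+A) =
b (1+8/n) · 2^p/(2^p+2p+1) / (1+A) with A ≤ δ/2 ≤ 1/(2n); for p large this is > b, since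
(1+8/n)/(1+1/n) > 1; 1 - (1-w)/(1+w) = 2w/(1+w), w = ω/2^Q, and n' · 2w/(1+w) = (2^p n · 2 ω)/(1+w) → 2^p n 2ω > b as
Q → ∞, whereas n' gap b n' = b (1 + 8/n') → b; and 2 - 2b/n' → 2 > D. (Also gap b n' ≥ b / n'.) -/
def S_NUM : Prop := ∀ (b : ℝ) (n : ℕ), 0 < b → b < Real.log 2 → 32 ≤ n → ∃ p : ℕ, 2 ≤ p ∧ ∃ u ω : ℝ,
  0 < u ∧ gap b n = (2 ^ p + 2 * (p : ℝ) + 1) * u ∧ ω = u / (2 * (1 + ((p : ℝ) + 2 ^ (p - 1)) * u)) ∧
  u ≤ 8 * b / (n : ℝ) ^ 2 ∧ gap b n < 1 / 2 ∧ 0 < ω ∧ ω < 1 ∧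
  ∀ (D : ℝ) (N : ℕ), D < 2 → ∃ Q : ℕ, N ≤ 2 ^ Q * (2 ^ p * n) ∧ 32 ≤ 2 ^ Q * (2 ^ p * n) ∧
    D ≤ 2 - 2 * b / ((2 ^ Q * (2 ^ p * n) : ℕ) : ℝ) ∧
    (1 - ω / 2 ^ Q) / (1 + ω / 2 ^ Q) ≤ 1 - gap b (2 ^ Q * (2 ^ p * n))

/-- STAGE. One stage: from a good state of n lengths to a good state of n' lengths. Proof: let X be the finset of
the lengths, n = card, p, u, ω from S_NUM, T, ζ from S_PAT. Generation 0 -> 1: S_REV with F = X, s = id,
z x = x (1 - u/2)/2 and D = 2 - 2b/n: (a) (1-δ) ≤ (1 - b/n)(1 - u/2), (b) (1-δ)(1+u/2) ≤ (1-b/n)(1-u/2), both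
from u ≤ 8b/n², δ = b/n + 8b/n²; (c) clear. M₁ = St X u (T 1) 1 has 2 n elements. Then S_CHAIN with g = p and
S_BIS with F = X ×ˢ T p, y (x,τ) = x (1+uτ)/2^p, e (x,τ) = x (u/2)/2^p, ω: the cells lie in
x [1-B, 1+A] / 2^p by Pattern.finalRange, B = (p + 1 + 2^(p-1)) u, A + B = δ, cells of the same x are disjoint by
Pattern.final, those of different x because y (1+A) ≤ x (1-B) for y < x; ω (y+e) ≤ e since y + e ≤ x (1+A)/2^p.
M' = Z.val with Q from S_NUM (D = the D of S_CHAIN). 2 (1-ω/2^Q)/(1+ω/2^Q) ≤ 2 - 2 gap b n' ≤ 2 - 2b/n'. -/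
def S_STAGE : Prop := S_REV → S_REVS → S_TRANS → S_PAT → S_CHAIN → S_BIS → S_NUM →
  ∀ (b : ℝ) (M : Multiset ℝ), 0 < b → b < Real.log 2 → Good b M → ∀ N : ℕ, ∃ M₁ M' : Multiset ℝ,
    card M₁ = 2 * card M ∧ Path (2 - 2 * b / (card M : ℝ)) M M₁ ∧
    Path (2 - 2 * b / (card M' : ℝ)) M₁ M' ∧ Good b M' ∧ N ≤ card M'

/-- INIT. A good initial state, reached from {1} with all quotients at most some D < 2. Proof: for m large let
q = 2^(-1/m) and take the sequence a of S_SEQ (proved in Pool.Agent.Q42.EB.SEQ; the proof there gives a k = a m q^(k-m)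
for m ≤ k < 2m, reuse its auxiliary lemmas, or redo it: b k = q^k for m ≤ k < 2m, b k = b (2k) + b (2k+1) for k < m,
b (k+1) ≤ q b k). States f t = {a t, ..., a (2t-1)}, 1 ≤ t ≤ m, f 1 = {1}, the quotients are at most
2^(1-1/m) < 2 (as in Pool.Agent.Results.MP_eb524a_co.ExactFiniteDisc.exists_strategy). M₀ = f m = {a m q^j : j < m}:
with gap b m ≤ 1 - q for large m, since m (1 - 2^(-1/m)) → log 2 > b = lim b (1 + 8/m); a m ≤ 2 q · a m q^(m-1)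
because q^m = 1/2. -/
def S_INIT : Prop := ∀ b : ℝ, 0 < b → b < Real.log 2 → ∃ (M : Multiset ℝ) (D : ℝ), D < 2 ∧ Good b M ∧
  Path D {1} M

/-- GLUE. The infinite sequence. Proof: start with M₀ of S_INIT, choose by S_STAGE (with N larger than
card of the previous state, and for the first stage also D₀ ≤ 2 - 2b/N) states M_k, k = 0, 1, ..., and glue the
paths; n_k = card M_k is strictly increasing. For k ≥ 1 all states at times t ≤ 2 n_k have quotients at most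
2 - 2b/n_k (the bounds 2 - 2b/n_j of the earlier stages, j ≤ k, are smaller). -/
def S_GLUE : Prop := S_TRANS → ∀ b : ℝ, 0 < b → b < Real.log 2 →
  (∃ (M : Multiset ℝ) (D : ℝ), D < 2 ∧ Good b M ∧ Path D {1} M) →
  (∀ M : Multiset ℝ, Good b M → ∀ N : ℕ, ∃ M₁ M' : Multiset ℝ,
    card M₁ = 2 * card M ∧ Path (2 - 2 * b / (card M : ℝ)) M M₁ ∧
    Path (2 - 2 * b / (card M' : ℝ)) M₁ M' ∧ Good b M' ∧ N ≤ card M') →
  ∃ f : ℕ → Multiset ℝ, f 1 = {1} ∧ (∀ t, 1 ≤ t → MCut (f t) (f (t + 1))) ∧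
    ∀ N : ℕ, ∃ n : ℕ, N ≤ n ∧ 1 ≤ n ∧ ∀ t, 1 ≤ t → t ≤ 2 * n → Bal (2 - 2 * b / (n : ℝ)) (f t)

/-- LIFT. A sequence of multisets is realised by lists (same proof as S_LIST in Pool.Agent.Q42.EB.LIST: write the
list of f t as l₁ ++ (y + z) :: l₂ using that y + z is a member, and the multiset of l₁ ++ l₂ is R). -/
def S_LIFT : Prop := ∀ f : ℕ → Multiset ℝ, f 1 = {1} → (∀ t, 1 ≤ t → MCut (f t) (f (t + 1))) →
  ∃ S : ℕ → List ℝ, (∀ i, 1 ≤ i → IsPartition (S i)) ∧ (∀ i, 1 ≤ i → (S i).length = i) ∧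
    (∀ i, 1 ≤ i → Cut (S i) (S (i + 1))) ∧ ∀ t, 1 ≤ t → (S t : Multiset ℝ) = f t

end Pool.Agent.Q42.EB
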