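import Pool.Agent.Q42.EB.Stm2

/-! Row MP_eb524a_co, job TRANS (helper214): paths can be weakened and concatenated. -/

set_option autoImplicit false

namespace Pool.Agent.Q42.EB

open Multiset

namespace TRANS

theorem bal_mono {D D' : ℝ} {M : Multiset ℝ} (h : D ≤ D') (hb : Bal D M) : Bal D' M := by
  refine ⟨hb.1, fun x hx y hy => le_trans (hb.2 x hx y hy) ?_⟩
  exact mul_le_mul_of_nonneg_right h (hb.1 y hy).le

end TRANS

theorem t_TRANS : S_TRANS := by
  refine ⟨?_, ?_⟩
  · rintro D D' M M' h ⟨hc, f, h0, h1, hs, hb⟩
    exact ⟨hc, f, h0, h1, hs, fun t ht ht' => TRANS.bal_mono h (hb t ht ht')⟩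
  · rintro D M M' M'' ⟨hc, f, h0, h1, hs, hb⟩ ⟨hc', f', h0', h1', hs', hb'⟩
    refine ⟨le_trans hc hc', fun t => if t ≤ card M' then f t else f' t, ?_, ?_, ?_, ?_⟩
    · show (if card M ≤ card M' then f (card M) else f' (card M)) = M
      rw [if_pos hc, h0]
    · show (if card M'' ≤ card M' then f (card M'') else f' (card M'')) = M''
      by_cases h : card M'' ≤ card M'
      · have he : card M'' = card M' := le_antisymm h hc'
        rw [if_pos h, he, h1, ← h0', ← he, h1']
      · rw [if_neg h, h1']
    · intro t ht ht'
      show MCut (if t ≤ card M' then f t else f' t) (if t + 1 ≤ card M' then f (t + 1) else f' (t + 1))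
      rcases lt_trichotomy t (card M') with h | h | h
      · rw [if_pos h.le, if_pos (by omega)]
        exact hs t ht h
      · rw [if_pos h.le, if_neg (by omega)]
        have e : f t = f' t := by rw [h, h1, h0']
        rw [e]
        exact hs' t h.ge ht'
      · rw [if_neg (by omega), if_neg (by omega)]
        exact hs' t h.le ht'
    · intro t ht ht'
      show Bal D (if t ≤ card M' then f t else f' t)
      by_cases h : t ≤ card M'
      · rw [if_pos h]
        exact hb t ht h
      · rw [if_neg h]
        exact hb' t (by omega) ht'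

end Pool.Agent.Q42.EB
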